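import Pool.Agent.H59.SP.Brou

/-!
# Module K2: Brouwer's fixed point theorem for continuous maps
-/

open MeasureTheory Metric Set
open scoped Topology ContDiff

namespace SP

/-- a continuous map is uniformly approximated by maps of class `C ^ 1` -/
theorem brou2_smooth {n : ℕ} {F : EuclideanSpace ℝ (Fin n) → EuclideanSpace ℝ (Fin n)}
    (hF : Continuous F) {ε : ℝ} (hε : 0 < ε) :
    ∃ g : EuclideanSpace ℝ (Fin n) → EuclideanSpace ℝ (Fin n),
      ContDiff ℝ 1 g ∧ ∀ x, ‖g x - F x‖ < ε := by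
  obtain ⟨g, hg⟩ := exists_contMDiffMap_forall_mem_convex_of_local_const (n := 1)
    (modelWithCornersSelf ℝ (EuclideanSpace ℝ (Fin n)))
    (M := EuclideanSpace ℝ (Fin n)) (F := EuclideanSpace ℝ (Fin n))
    (t := fun x => ball (F x) ε) (fun x => convex_ball _ _)
    (fun x => ⟨F x, by
      have h := (hF.tendsto x).eventually (ball_mem_nhds (F x) hε)
      filter_upwards [h] with y hy
      rwa [mem_ball, dist_comm]⟩)
  refine ⟨g, g.contMDiff.contDiff, fun x => ?_⟩
  have := hg x
  rwa [mem_ball, dist_eq_norm] at this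

/-- the radial retraction on the unit ball -/
theorem brou2_retr {n : ℕ} :
    ∃ r : EuclideanSpace ℝ (Fin n) → EuclideanSpace ℝ (Fin n), Continuous r ∧
      (∀ x, ‖r x‖ ≤ 1) ∧ ∀ x, ‖x‖ ≤ 1 → r x = x := by
  refine ⟨fun x => (max 1 ‖x‖)⁻¹ • x, ?_, ?_, ?_⟩
  · have hc : Continuous fun x : EuclideanSpace ℝ (Fin n) => max (1 : ℝ) ‖x‖ :=
      continuous_const.max continuous_norm
    refine Continuous.fun_smul (hc.inv₀ fun x => ?_) continuous_id
    have : (1 : ℝ) ≤ max 1 ‖x‖ := le_max_left _ _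
    linarith
  · intro x
    have h : (0 : ℝ) < max 1 ‖x‖ := lt_of_lt_of_le one_pos (le_max_left _ _)
    rw [norm_smul, norm_inv, Real.norm_eq_abs, abs_of_pos h, inv_mul_le_iff₀ h, mul_one]
    exact le_max_right _ _
  · intro x hx
    simp only [max_eq_left hx, inv_one, one_smul]

/-- the point where the ray from `h x` through `x` leaves the ball -/
theorem brou2_ray {n : ℕ} {h : EuclideanSpace ℝ (Fin n) → EuclideanSpace ℝ (Fin n)}
    (hh : ContDiff ℝ 1 h) (h1 : ∀ x, ‖h x‖ < 1)
    (h2 : ∀ x ∈ closedBall (0 : EuclideanSpace ℝ (Fin n)) 1, h x ≠ x) : False := by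
  set u : EuclideanSpace ℝ (Fin n) → EuclideanSpace ℝ (Fin n) := fun x => x - h x with hu
  have huC : ContDiff ℝ 1 u := contDiff_id.sub hh
  set b : EuclideanSpace ℝ (Fin n) → ℝ := fun x => inner ℝ x (u x) with hb
  set a : EuclideanSpace ℝ (Fin n) → ℝ := fun x => inner ℝ (u x) (u x) with ha
  have hbC : ContDiff ℝ 1 b := contDiff_id.inner ℝ huC
  have haC : ContDiff ℝ 1 a := huC.inner ℝ huC
  set Δ : EuclideanSpace ℝ (Fin n) → ℝ := fun x => b x ^ 2 + a x * (1 - inner ℝ x x) with hΔ
  have hΔC : ContDiff ℝ 1 Δ :=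
    (hbC.pow 2).add (haC.mul (contDiff_const.sub (contDiff_id.inner ℝ contDiff_id)))
  have haa : ∀ x, a x = ‖u x‖ ^ 2 := fun x => real_inner_self_eq_norm_sq _
  set U : Set (EuclideanSpace ℝ (Fin n)) := {x | 0 < a x ∧ 0 < Δ x} with hUdef
  have hU : IsOpen U :=
    (isOpen_lt continuous_const haC.continuous).inter (isOpen_lt continuous_const hΔC.continuous)
  have hxx : ∀ x : EuclideanSpace ℝ (Fin n), inner ℝ x x = ‖x‖ ^ 2 :=
    fun x => real_inner_self_eq_norm_sq _
  have hbpos : ∀ x, ‖x‖ = 1 → 0 < b x := by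
    intro x hx
    have e : b x = 1 - inner ℝ x (h x) := by
      simp only [hb, hu, inner_sub_right, hxx, hx, one_pow]
    have : inner ℝ x (h x) ≤ ‖x‖ * ‖h x‖ := real_inner_le_norm _ _
    rw [hx, one_mul] at this
    have := h1 x
    rw [e]
    linarith
  have hapos : ∀ x ∈ closedBall (0 : EuclideanSpace ℝ (Fin n)) 1, 0 < a x := by
    intro x hx
    rw [haa]
    have : u x ≠ 0 := by
      intro h0
      exact h2 x hx (sub_eq_zero.mp h0).symm
    positivity
  have hB : closedBall (0 : EuclideanSpace ℝ (Fin n)) 1 ⊆ U := by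
    intro x hx
    refine ⟨hapos x hx, ?_⟩
    have hxn : ‖x‖ ≤ 1 := by rwa [mem_closedBall_zero_iff] at hx
    rcases hxn.lt_or_eq with hlt | heq
    · have h3 : 0 < 1 - inner ℝ x x := by
        rw [hxx]
        have := norm_nonneg x
        nlinarith
      have := mul_pos (hapos x hx) h3
      have := sq_nonneg (b x)
      simp only [hΔ]
      linarith
    · have h3 : (1 : ℝ) - inner ℝ x x = 0 := by
        rw [hxx, heq]; norm_num
      have := hbpos x heq
      simp only [hΔ, h3, mul_zero, add_zero]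
      positivity
  set s : EuclideanSpace ℝ (Fin n) → ℝ := fun x => (-b x + √(Δ x)) / a x with hs
  have hsC : ContDiffOn ℝ 1 s U := by
    refine ContDiffOn.div ?_ haC.contDiffOn fun x hx => hx.1.ne'
    refine hbC.neg.contDiffOn.add ?_
    exact hΔC.contDiffOn.sqrt fun x hx => hx.2.ne'
  refine no_retraction (fun x => x + s x • u x) hU hB ?_ ?_ ?_
  · exact contDiff_id.contDiffOn.add (hsC.smul huC.contDiffOn)
  · intro x hx
    have h3 := hapos x hx
    have h4 : 0 < Δ x := (hB hx).2
    have h5 : ‖x + s x • u x‖ ^ 2 = 1 := by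
      rw [← real_inner_self_eq_norm_sq, inner_add_left, inner_add_right, inner_add_right,
        inner_smul_left, inner_smul_right, inner_smul_left, inner_smul_right]
      have e1 : inner ℝ (u x) x = b x := real_inner_comm _ _
      have e2 : inner ℝ x (u x) = b x := rfl
      have e3 : inner ℝ (u x) (u x) = a x := rfl
      rw [e1, e2, e3]
      simp only [conj_trivial]
      have h6 : √(Δ x) ^ 2 = Δ x := Real.sq_sqrt h4.le
      have h7 : s x * a x = -b x + √(Δ x) := by
        simp only [hs]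
        field_simp
      have h8 : (s x * a x + b x) ^ 2 = Δ x := by
        rw [h7]
        calc (-b x + √(Δ x) + b x) ^ 2 = √(Δ x) ^ 2 := by ring
          _ = Δ x := h6
      have h9 : Δ x = b x ^ 2 + a x * (1 - inner ℝ x x) := rfl
      have h10 : a x * (inner ℝ x x + 2 * (s x * b x) + s x * (s x * a x) - 1) = 0 := by
        nlinarith
      have h11 : inner ℝ x x + 2 * (s x * b x) + s x * (s x * a x) - 1 = 0 := by
        rcases mul_eq_zero.mp h10 with h | h
        · exact absurd h h3.ne'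
        · exact h
      linarith
    have h6 := norm_nonneg (x + s x • u x)
    nlinarith
  · intro x hx
    have h3 : (1 : ℝ) - inner ℝ x x = 0 := by
      rw [hxx, hx]; norm_num
    have h4 : Δ x = b x ^ 2 := by
      simp only [hΔ, h3, mul_zero, add_zero]
    have h5 : s x = 0 := by
      simp only [hs]
      rw [h4, Real.sqrt_sq (hbpos x hx).le]
      simp
    simp only [h5, zero_smul, add_zero]

/-- from `no_retraction`: approximate `f` by a polynomial map without fixed points (all
coordinates by Stone-Weierstrass), scaled so that it maps the ball to itself; the point where the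
ray from `g x` through `x` leaves the ball is a `C ^ 1` retraction -/
theorem brouwer_ball {n : ℕ} {f : EuclideanSpace ℝ (Fin n) → EuclideanSpace ℝ (Fin n)}
    (hf : ContinuousOn f (closedBall 0 1))
    (hm : MapsTo f (closedBall (0 : EuclideanSpace ℝ (Fin n)) 1) (closedBall 0 1)) :
    ∃ x ∈ closedBall (0 : EuclideanSpace ℝ (Fin n)) 1, f x = x := by
  by_contra hcon
  push Not at hcon
  have hcomp : IsCompact (closedBall (0 : EuclideanSpace ℝ (Fin n)) 1) :=
    isCompact_closedBall _ _
  have hne : (closedBall (0 : EuclideanSpace ℝ (Fin n)) 1).Nonempty :=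
    ⟨0, mem_closedBall_self zero_le_one⟩
  obtain ⟨x₀, hx₀, hmin⟩ := hcomp.exists_isMinOn hne (f := fun x => ‖f x - x‖)
    ((hf.sub continuousOn_id).norm)
  set δ : ℝ := ‖f x₀ - x₀‖ with hδ
  have hδpos : 0 < δ := norm_pos_iff.mpr (sub_ne_zero.mpr (hcon x₀ hx₀))
  have hδle : ∀ x ∈ closedBall (0 : EuclideanSpace ℝ (Fin n)) 1, δ ≤ ‖f x - x‖ :=
    fun x hx => hmin hx
  obtain ⟨r, hrc, hr1, hr2⟩ := brou2_retr (n := n)
  have hrB : ∀ x, r x ∈ closedBall (0 : EuclideanSpace ℝ (Fin n)) 1 :=
    fun x => mem_closedBall_zero_iff.mpr (hr1 x)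
  have hFc : Continuous fun x => f (r x) := hf.comp_continuous hrc hrB
  have hFn : ∀ x, ‖f (r x)‖ ≤ 1 := fun x => mem_closedBall_zero_iff.mp (hm (hrB x))
  obtain ⟨g, hgC, hg⟩ := brou2_smooth hFc (ε := δ / 4) (by positivity)
  set ε : ℝ := δ / 4 with hε
  have hεpos : 0 < ε := by positivity
  have hgn : ∀ x, ‖g x‖ < 1 + ε := by
    intro x
    have h1 : ‖g x‖ ≤ ‖g x - f (r x)‖ + ‖f (r x)‖ := by
      simpa using norm_add_le (g x - f (r x)) (f (r x))
    have := hg x
    have := hFn x
    linarith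
  have h1e : (0 : ℝ) < 1 + ε := by linarith
  refine brou2_ray (h := fun x => (1 + ε)⁻¹ • g x) (contDiff_const.fun_smul hgC) ?_ ?_
  · intro x
    rw [norm_smul, norm_inv, Real.norm_eq_abs, abs_of_pos h1e, inv_mul_lt_iff₀ h1e, mul_one]
    exact hgn x
  · intro x hx heq
    have hxn : ‖x‖ ≤ 1 := mem_closedBall_zero_iff.mp hx
    have h3 : g x = (1 + ε) • x := by
      have h30 : (1 + ε) • ((1 + ε)⁻¹ • g x) = (1 + ε) • x := congrArg _ heq
      rwa [smul_smul, mul_inv_cancel₀ h1e.ne', one_smul] at h30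
    have h4 := hg x
    rw [hr2 x hxn, h3] at h4
    have h5 := hδle x hx
    have h6 : ‖f x - x‖ ≤ ‖(1 + ε) • x - f x‖ + ‖ε • x‖ := by
      have : f x - x = -((1 + ε) • x - f x) + ε • x := by
        rw [add_smul, one_smul]; abel
      rw [this]
      refine (norm_add_le _ _).trans ?_
      rw [norm_neg]
    have h7 : ‖ε • x‖ ≤ ε := by
      rw [norm_smul, Real.norm_eq_abs, abs_of_pos hεpos]
      exact mul_le_of_le_one_right hεpos.le hxn
    have : δ = 4 * ε := by rw [hε]; ring
    linarith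

/-- the nearest point map of a compact convex set -/
theorem brou2_proj {n : ℕ} {D : Set (EuclideanSpace ℝ (Fin n))} (hD : IsCompact D)
    (hc : Convex ℝ D) (hne : D.Nonempty) :
    ∃ P : EuclideanSpace ℝ (Fin n) → EuclideanSpace ℝ (Fin n), Continuous P ∧
      (∀ x, P x ∈ D) ∧ ∀ x ∈ D, P x = x := by
  have hex := exists_norm_eq_iInf_of_complete_convex hne hD.isComplete hc
  choose P hPD hP using hex
  have hin : ∀ x, ∀ w ∈ D, inner ℝ (x - P x) (w - P x) ≤ 0 :=
    fun x => (norm_eq_iInf_iff_real_inner_le_zero hc (hPD x)).mp (hP x)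
  have hlip : ∀ x y, ‖P x - P y‖ ≤ ‖x - y‖ := by
    intro x y
    have h1 := hin x (P y) (hPD y)
    have h2 := hin y (P x) (hPD x)
    have h3 : inner ℝ (P x - P y) (P x - P y) ≤ inner ℝ (x - y) (P x - P y) := by
      have e : inner ℝ (x - y) (P x - P y) - inner ℝ (P x - P y) (P x - P y)
          = -(inner ℝ (x - P x) (P y - P x)) - inner ℝ (y - P y) (P x - P y) := by
        simp only [inner_sub_left, inner_sub_right]
        ring
      linarith
    have h4 : inner ℝ (x - y) (P x - P y) ≤ ‖x - y‖ * ‖P x - P y‖ := real_inner_le_norm _ _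
    rw [real_inner_self_eq_norm_sq] at h3
    by_contra hlt
    push Not at hlt
    have h5 := norm_nonneg (x - y)
    nlinarith
  refine ⟨P, ?_, hPD, ?_⟩
  · refine LipschitzWith.continuous (K := 1) (LipschitzWith.of_dist_le_mul fun x y => ?_)
    rw [dist_eq_norm, dist_eq_norm]
    simpa using hlip x y
  · intro x hx
    have h1 := hin x x hx
    rw [real_inner_self_eq_norm_sq] at h1
    have h2 : ‖x - P x‖ = 0 := by
      have := sq_nonneg ‖x - P x‖
      have h3 : ‖x - P x‖ ^ 2 = 0 := le_antisymm h1 this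
      exact pow_eq_zero_iff (two_ne_zero) |>.mp h3
    exact (sub_eq_zero.mp (norm_eq_zero.mp h2)).symm

/-- compact convex sets: compose with the nearest point retraction -/
theorem brouwer {n : ℕ} {D : Set (EuclideanSpace ℝ (Fin n))} (hD : IsCompact D)
    (hc : Convex ℝ D) (hne : D.Nonempty)
    {f : EuclideanSpace ℝ (Fin n) → EuclideanSpace ℝ (Fin n)} (hf : ContinuousOn f D)
    (hm : MapsTo f D D) : ∃ x ∈ D, f x = x := by
  obtain ⟨P, hPc, hPD, hPid⟩ := brou2_proj hD hc hne
  obtain ⟨R, hR0, hR⟩ : ∃ R : ℝ, 0 < R ∧ D ⊆ closedBall 0 R := by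
    obtain ⟨R, hR⟩ := hD.isBounded.subset_closedBall (0 : EuclideanSpace ℝ (Fin n))
    refine ⟨max R 1, lt_of_lt_of_le one_pos (le_max_right _ _), ?_⟩
    exact hR.trans (closedBall_subset_closedBall (le_max_left _ _))
  have hFc : Continuous fun x => R⁻¹ • f (P (R • x)) :=
    continuous_const.fun_smul (hf.comp_continuous (hPc.comp (continuous_const_smul R))
      fun x => hPD _)
  obtain ⟨x, -, hx⟩ := brouwer_ball (f := fun x => R⁻¹ • f (P (R • x))) hFc.continuousOn (by
    intro x _
    rw [mem_closedBall_zero_iff, norm_smul, norm_inv, Real.norm_eq_abs, abs_of_pos hR0,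
      inv_mul_le_iff₀ hR0, mul_one]
    exact mem_closedBall_zero_iff.mp (hR (hm (hPD _))))
  have h1 : f (P (R • x)) = R • x := by
    have h10 : R • (R⁻¹ • f (P (R • x))) = R • x := congrArg _ hx
    rwa [smul_smul, mul_inv_cancel₀ hR0.ne', one_smul] at h10
  have h2 : R • x ∈ D := by
    rw [← h1]; exact hm (hPD _)
  refine ⟨R • x, h2, ?_⟩
  rw [hPid _ h2] at h1
  exact h1

end SP
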