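import Pool.Agent.H59.SP.Defs

/-!
# Module E: the example, definitions

`a = ⌊k/2⌋`, `b = ⌈k/2⌉`; the labels `i < a` form the block `I`, the others the block `J`.
-/

open Metric Set

namespace SP

/-- size of the block `I` -/
noncomputable def aa (k : ℕ) : ℝ := ((k / 2 : ℕ) : ℝ)

/-- size of the block `J` -/
noncomputable def bb (k : ℕ) : ℝ := (((k + 1) / 2 : ℕ) : ℝ)

/-- the block `I` -/
def blI (k : ℕ) (i : Fin k) : Prop := i.val < k / 2

instance (k : ℕ) (i : Fin k) : Decidable (blI k i) := inferInstanceAs (Decidable (_ < _))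

/-- the mass of the block `I` -/
noncomputable def sI (k : ℕ) (x : V k) : ℝ := ∑ i with blI k i, x i

/-- the affine function `L s = s / a - (1 - s) / b` -/
noncomputable def LL (k : ℕ) (s : ℝ) : ℝ := s / aa k - (1 - s) / bb k

/-- the clamped function `D` -/
noncomputable def DD (k : ℕ) (δ s : ℝ) : ℝ := LL k (max δ (min s (1 - δ)))

/-- the sets: `i ∈ I`: `x i` is the maximum over the block `I` and
`x i - max_J x ≥ D (s x)`, that is `x i - x j ≥ D (s x)` for all `j ∈ J`;
`j ∈ J`: `x j` is the maximum over `J` and `x i - x j ≤ D (s x)` for all `i ∈ I` -/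
def exA (k : ℕ) (δ : ℝ) (i : Fin k) : Set (V k) :=
  {x | x ∈ Sx k ∧ (∀ j, (blI k i ↔ blI k j) → x j ≤ x i) ∧
    (blI k i → ∀ j, ¬ blI k j → DD k δ (sI k x) ≤ x i - x j) ∧
    (¬ blI k i → ∀ j, blI k j → x j - x i ≤ DD k δ (sI k x))}

/-- the point with mass `s` distributed evenly over `I` and `1 - s` over `J` -/
noncomputable def pt (k : ℕ) (s : ℝ) : V k :=
  WithLp.toLp 2 fun i => if blI k i then s / aa k else (1 - s) / bb k

/-- end point: zero at `i`, the value `m` on the rest of the block of `i`, the remaining mass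
evenly over the other block; for `i ∈ I`: `m = δ k / (a (k - 1))`, for `i ∈ J`:
`m = δ k / (b (k - 1))` -/
noncomputable def qt (k : ℕ) (δ : ℝ) (i : Fin k) : V k :=
  WithLp.toLp 2 fun j =>
    if blI k i then
      (if j = i then 0 else if blI k j then δ * k / (aa k * (k - 1))
        else (1 - (aa k - 1) * (δ * k / (aa k * (k - 1)))) / bb k)
    else
      (if j = i then 0 else if blI k j then
        (1 - (bb k - 1) * (δ * k / (bb k * (k - 1)))) / aa k
        else δ * k / (bb k * (k - 1)))

/-- first end points of the segments: `none` is the main segment -/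
noncomputable def sp (k : ℕ) (δ : ℝ) : Option (Fin k) → V k
  | none => pt k δ
  | some i => if blI k i then pt k δ else pt k (1 - δ)

/-- second end points of the segments -/
noncomputable def sq (k : ℕ) (δ : ℝ) : Option (Fin k) → V k
  | none => pt k (1 - δ)
  | some i => qt k δ i

end SP
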