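import Pool.Agent.H59.SP.Ex

/-!
# Module E1: the example is admissible
-/

open Metric Set

namespace SP

theorem exAdm_aa {k : ℕ} (hk : 4 ≤ k) : (2 : ℝ) ≤ aa k := by
  unfold aa
  have : 2 ≤ k / 2 := by omega
  exact_mod_cast this

theorem exAdm_bb {k : ℕ} (hk : 4 ≤ k) : (2 : ℝ) ≤ bb k := by
  unfold bb
  have : 2 ≤ (k + 1) / 2 := by omega
  exact_mod_cast this

theorem exAdm_LL_mono {k : ℕ} (hk : 4 ≤ k) {s t : ℝ} (h : s ≤ t) : LL k s ≤ LL k t := by
  have ha := exAdm_aa hk
  have hb := exAdm_bb hk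
  unfold LL
  have h1 : s / aa k ≤ t / aa k := div_le_div_of_nonneg_right h (by linarith)
  have h2 : (1 - t) / bb k ≤ (1 - s) / bb k :=
    div_le_div_of_nonneg_right (by linarith) (by linarith)
  linarith

theorem exAdm_LL_lip {k : ℕ} (hk : 4 ≤ k) {s t : ℝ} (h : s ≤ t) :
    LL k t ≤ LL k s + (t - s) := by
  have ha := exAdm_aa hk
  have hb := exAdm_bb hk
  unfold LL
  have h1 : (t - s) / aa k ≤ (t - s) / 2 :=
    div_le_div_of_nonneg_left (by linarith) (by norm_num) ha
  have h2 : (t - s) / bb k ≤ (t - s) / 2 :=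
    div_le_div_of_nonneg_left (by linarith) (by norm_num) hb
  have e1 : t / aa k = s / aa k + (t - s) / aa k := by rw [← add_div]; ring_nf
  have e2 : (1 - s) / bb k = (1 - t) / bb k + (t - s) / bb k := by rw [← add_div]; ring_nf
  linarith

theorem exAdm_DD_mono {k : ℕ} (hk : 4 ≤ k) (δ : ℝ) {s t : ℝ} (h : s ≤ t) :
    DD k δ s ≤ DD k δ t := by
  unfold DD
  exact exAdm_LL_mono hk (max_le_max le_rfl (min_le_min h le_rfl))

theorem exAdm_DD_lip {k : ℕ} (hk : 4 ≤ k) (δ : ℝ) {s t : ℝ} (h : s ≤ t) :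
    DD k δ t ≤ DD k δ s + (t - s) := by
  unfold DD
  have h1 : max δ (min s (1 - δ)) ≤ max δ (min t (1 - δ)) :=
    max_le_max le_rfl (min_le_min h le_rfl)
  have h2 := exAdm_LL_lip hk h1
  have h3 : max δ (min t (1 - δ)) ≤ max δ (min s (1 - δ)) + (t - s) := by
    apply max_le
    · have := le_max_left δ (min s (1 - δ))
      linarith
    · have h4 := le_max_right δ (min s (1 - δ))
      have h5 : min t (1 - δ) ≤ min s (1 - δ) + (t - s) := by
        rcases le_total s (1 - δ) with h6 | h6
        · rw [min_eq_left h6]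
          have := min_le_left t (1 - δ)
          linarith
        · rw [min_eq_right h6]
          have := min_le_right t (1 - δ)
          linarith
      linarith
  linarith

theorem exAdm_LL_cont (k : ℕ) : Continuous (LL k) := by
  unfold LL
  fun_prop

theorem exAdm_DD_cont (k : ℕ) (δ : ℝ) : Continuous (DD k δ) := by
  unfold DD
  exact (exAdm_LL_cont k).comp (by fun_prop)

theorem exAdm_sI_cont (k : ℕ) : Continuous (sI k) := by
  unfold sI
  fun_prop

theorem exAdm_Sx_closed (k : ℕ) : IsClosed (Sx k) := by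
  have h1 : IsClosed {x : V k | ∀ i, 0 ≤ x i} := by
    have : {x : V k | ∀ i, 0 ≤ x i} = ⋂ i, {x : V k | 0 ≤ x i} := by
      ext x; simp
    rw [this]
    exact isClosed_iInter fun i => isClosed_le continuous_const (by fun_prop)
  have h2 : IsClosed {x : V k | ∑ i, x i = 1} :=
    isClosed_eq (by fun_prop) continuous_const
  exact h1.inter h2

theorem exAdm_closed (k : ℕ) (δ : ℝ) (i : Fin k) : IsClosed (exA k δ i) := by
  have h1 : IsClosed {x : V k | ∀ j, (blI k i ↔ blI k j) → x j ≤ x i} := by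
    have : {x : V k | ∀ j, (blI k i ↔ blI k j) → x j ≤ x i}
        = ⋂ j, ⋂ (_ : blI k i ↔ blI k j), {x : V k | x j ≤ x i} := by
      ext x; simp
    rw [this]
    exact isClosed_iInter fun j => isClosed_iInter fun _ =>
      isClosed_le (by fun_prop) (by fun_prop)
  have hc : Continuous fun x : V k => DD k δ (sI k x) :=
    (exAdm_DD_cont k δ).comp (exAdm_sI_cont k)
  have h2 : IsClosed {x : V k | blI k i → ∀ j, ¬ blI k j → DD k δ (sI k x) ≤ x i - x j} := by
    have : {x : V k | blI k i → ∀ j, ¬ blI k j → DD k δ (sI k x) ≤ x i - x j}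
        = ⋂ (_ : blI k i), ⋂ j, ⋂ (_ : ¬ blI k j),
          {x : V k | DD k δ (sI k x) ≤ x i - x j} := by
      ext x; simp
    rw [this]
    exact isClosed_iInter fun _ => isClosed_iInter fun j => isClosed_iInter fun _ =>
      isClosed_le hc (by fun_prop)
  have h3 : IsClosed {x : V k | ¬ blI k i → ∀ j, blI k j → x j - x i ≤ DD k δ (sI k x)} := by
    have : {x : V k | ¬ blI k i → ∀ j, blI k j → x j - x i ≤ DD k δ (sI k x)}
        = ⋂ (_ : ¬ blI k i), ⋂ j, ⋂ (_ : blI k j),
          {x : V k | x j - x i ≤ DD k δ (sI k x)} := by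
      ext x; simp
    rw [this]
    exact isClosed_iInter fun _ => isClosed_iInter fun j => isClosed_iInter fun _ =>
      isClosed_le (by fun_prop) hc
  exact (exAdm_Sx_closed k).inter (h1.inter (h2.inter h3))

theorem exAdm_cover {k : ℕ} (hk : 4 ≤ k) (δ : ℝ) : ⋃ i, exA k δ i = Sx k := by
  apply Set.Subset.antisymm
  · exact Set.iUnion_subset fun i x hx => hx.1
  · intro x hx
    have hI : (Finset.univ.filter (fun i : Fin k => blI k i)).Nonempty :=
      ⟨⟨0, by omega⟩, by simp [blI]; omega⟩
    have hJ : (Finset.univ.filter (fun i : Fin k => ¬ blI k i)).Nonempty :=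
      ⟨⟨k - 1, by omega⟩, by simp [blI]; omega⟩
    obtain ⟨i, hi, him⟩ := Finset.exists_max_image _ (fun i => x i) hI
    obtain ⟨j, hj, hjm⟩ := Finset.exists_max_image _ (fun i => x i) hJ
    simp only [Finset.mem_filter, Finset.mem_univ, true_and] at hi hj him hjm
    rcases le_total (DD k δ (sI k x)) (x i - x j) with h | h
    · refine Set.mem_iUnion.2 ⟨i, hx, fun l hl => him l (hl.1 hi), fun _ l hl => ?_,
        fun h' => absurd hi h'⟩
      have := hjm l hl
      linarith
    · refine Set.mem_iUnion.2 ⟨j, hx, fun l hl => hjm l (fun h' => hj (hl.2 h')),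
        fun h' => absurd h' hj, fun _ l hl => ?_⟩
      have := him l hl
      linarith

theorem exAdm_sum_split {k : ℕ} {x : V k} (hx : x ∈ Sx k) :
    sI k x + ∑ i with ¬ blI k i, x i = 1 := by
  unfold sI
  rw [Finset.sum_filter_add_sum_filter_not]
  exact hx.2

theorem exAdm_card_I0 {k : ℕ} :
    (Finset.univ.filter (fun i : Fin k => blI k i)).card = k / 2 := by
  have h : Finset.univ.filter (fun i : Fin k => blI k i)
      = Finset.univ.filter (fun i : Fin k => i.val < k / 2) := by
    ext i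
    simp [blI]
  rw [h, Fin.card_filter_val_lt]
  omega

theorem exAdm_card_I {k : ℕ} :
    ((Finset.univ.filter (fun i : Fin k => blI k i)).card : ℝ) = aa k := by
  rw [exAdm_card_I0]
  rfl

theorem exAdm_card_J {k : ℕ} :
    ((Finset.univ.filter (fun i : Fin k => ¬ blI k i)).card : ℝ) = bb k := by
  unfold bb
  norm_cast
  have h := Finset.card_filter_add_card_filter_not (s := (Finset.univ : Finset (Fin k)))
    (fun i : Fin k => blI k i)
  have h2 := exAdm_card_I0 (k := k)
  rw [Finset.card_univ, Fintype.card_fin] at h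
  omega

theorem exAdm_pos {k : ℕ} (hk : 4 ≤ k) {δ : ℝ} (h0 : 0 < δ) (h1 : δ < 1 / 2) (i : Fin k)
    (x : V k) (hx : x ∈ exA k δ i) : 0 < x i := by
  obtain ⟨hS, hm, hI, hJ⟩ := hx
  by_contra hneg
  have hxi : x i = 0 := le_antisymm (not_lt.1 hneg) (hS.1 i)
  have ha := exAdm_aa hk
  have hb := exAdm_bb hk
  have hsplit := exAdm_sum_split hS
  by_cases hi : blI k i
  · have hz : ∀ j, blI k j → x j = 0 := fun j hj =>
      le_antisymm (by have := hm j (by tauto); linarith) (hS.1 j)
    have hs : sI k x = 0 := by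
      unfold sI
      exact Finset.sum_eq_zero fun j hj => hz j (by simpa using hj)
    have hDD : DD k δ (sI k x) = LL k δ := by
      rw [hs]
      unfold DD
      rw [min_eq_left (by linarith), max_eq_left (by linarith)]
    have hle : ∀ j ∈ Finset.univ.filter (fun i : Fin k => ¬ blI k i), x j ≤ - LL k δ := by
      intro j hj
      have := hI hi j (by simpa using hj)
      rw [hDD, hxi] at this
      linarith
    have hsum := Finset.sum_le_card_nsmul _ _ _ hle
    rw [nsmul_eq_mul, exAdm_card_J] at hsum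
    have h3 : (1 : ℝ) ≤ bb k * (- LL k δ) := by linarith
    unfold LL at h3
    have h4 : bb k * (-(δ / aa k - (1 - δ) / bb k)) = (1 - δ) - bb k * δ / aa k := by
      field_simp
      ring
    rw [h4] at h3
    have h5 : 0 < bb k * δ / aa k := by positivity
    linarith
  · have hz : ∀ j, ¬ blI k j → x j = 0 := fun j hj =>
      le_antisymm (by have := hm j (by tauto); linarith) (hS.1 j)
    have hs0 : ∑ j with ¬ blI k j, x j = 0 :=
      Finset.sum_eq_zero fun j hj => hz j (by simpa using hj)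
    have hs : sI k x = 1 := by linarith
    have hDD : DD k δ (sI k x) = LL k (1 - δ) := by
      rw [hs]
      unfold DD
      rw [min_eq_right (by linarith), max_eq_right (by linarith)]
    have hle : ∀ j ∈ Finset.univ.filter (fun i : Fin k => blI k i), x j ≤ LL k (1 - δ) := by
      intro j hj
      have := hJ hi j (by simpa using hj)
      rw [hDD, hxi] at this
      linarith
    have hsum := Finset.sum_le_card_nsmul _ _ _ hle
    rw [nsmul_eq_mul, exAdm_card_I] at hsum
    have h3 : (1 : ℝ) ≤ aa k * LL k (1 - δ) := by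
      have : sI k x = ∑ j with blI k j, x j := rfl
      linarith
    unfold LL at h3
    have h4 : aa k * ((1 - δ) / aa k - (1 - (1 - δ)) / bb k)
        = (1 - δ) - aa k * δ / bb k := by
      field_simp
      ring
    rw [h4] at h3
    have h5 : 0 < aa k * δ / bb k := by positivity
    linarith

/-- the point `x` with mass `t` moved from `i` to `j` -/
noncomputable def exAdm_mv {k : ℕ} (x : V k) (i j : Fin k) (t : ℝ) : V k :=
  x + t • (EuclideanSpace.single j (1 : ℝ) - EuclideanSpace.single i (1 : ℝ))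

theorem exAdm_mv_apply {k : ℕ} (x : V k) (i j : Fin k) (t : ℝ) (l : Fin k) :
    exAdm_mv x i j t l = x l + t * ((if l = j then 1 else 0) - (if l = i then 1 else 0)) := by
  simp [exAdm_mv]

theorem exAdm_mv_dist {k : ℕ} (x : V k) (i j : Fin k) {t : ℝ} (ht : 0 ≤ t) :
    dist x (exAdm_mv x i j t) ≤ 2 * t := by
  unfold exAdm_mv
  rw [dist_self_add_right, norm_smul, Real.norm_of_nonneg ht]
  have h := norm_sub_le (EuclideanSpace.single j (1 : ℝ)) (EuclideanSpace.single i (1 : ℝ))
  rw [PiLp.norm_single, PiLp.norm_single, norm_one] at h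
  nlinarith

theorem exAdm_mv_mem {k : ℕ} {x : V k} (hx : x ∈ Sx k) {i j : Fin k} (hij : i ≠ j) {t : ℝ}
    (ht : 0 ≤ t) (hti : t ≤ x i) : exAdm_mv x i j t ∈ Sx k := by
  refine ⟨fun l => ?_, ?_⟩
  · rw [exAdm_mv_apply]
    have := hx.1 l
    by_cases h1 : l = i
    · subst h1
      simp [hij]
      linarith
    · by_cases h2 : l = j
      · subst h2
        simp [h1]
        linarith
      · simp [h1, h2, this]
  · simp_rw [exAdm_mv_apply]
    rw [Finset.sum_add_distrib, ← Finset.mul_sum, Finset.sum_sub_distrib]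
    simp [hx.2]

theorem exAdm_mv_sI {k : ℕ} (x : V k) (i j : Fin k) (t : ℝ) :
    sI k (exAdm_mv x i j t) = sI k x + t * ((if blI k j then 1 else 0)
      - (if blI k i then 1 else 0)) := by
  unfold sI
  simp_rw [exAdm_mv_apply]
  rw [Finset.sum_add_distrib, ← Finset.mul_sum, Finset.sum_sub_distrib]
  simp [Finset.sum_ite_eq']

theorem exAdm_key {k : ℕ} (hk : 4 ≤ k) (δ : ℝ) {i j : Fin k} (hij : i ≠ j) {x : V k}
    (hxi : x ∈ exA k δ i) (hxj : x ∈ exA k δ j) {t : ℝ} (ht : 0 < t) :
    exAdm_mv x i j t ∉ exA k δ i := by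
  intro hy
  have e1 : exAdm_mv x i j t i = x i - t := by
    rw [exAdm_mv_apply]
    simp [hij]
    ring
  have e2 : exAdm_mv x i j t j = x j + t := by
    rw [exAdm_mv_apply]
    simp [hij.symm]
  have e3 := exAdm_mv_sI x i j t
  obtain ⟨-, hm, hI, hJ⟩ := hy
  rw [e1] at hI hJ hm
  by_cases hi : blI k i
  · by_cases hj : blI k j
    · have h1 := hm j (by tauto)
      have h2 := hxi.2.1 j (by tauto)
      have h3 := hxj.2.1 i (by tauto)
      rw [e2] at h1
      linarith
    · have h1 := hI hi j hj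
      have h2 := hxj.2.2.2 hj i hi
      rw [e2, e3] at h1
      simp only [hi, hj, if_true, if_false] at h1
      have h3 := exAdm_DD_lip hk δ (s := sI k x + t * (0 - 1)) (t := sI k x) (by linarith)
      linarith
  · by_cases hj : blI k j
    · have h1 := hJ hi j hj
      have h2 := hxj.2.2.1 hj i hi
      rw [e2, e3] at h1
      simp only [hi, hj, if_true, if_false] at h1
      have h3 := exAdm_DD_lip hk δ (s := sI k x) (t := sI k x + t * (1 - 0)) (by linarith)
      linarith
    · have h1 := hm j (by tauto)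
      have h2 := hxi.2.1 j (by tauto)
      have h3 := hxj.2.1 i (by tauto)
      rw [e2] at h1
      linarith

theorem ex_adm {k : ℕ} (hk : 4 ≤ k) {δ : ℝ} (h0 : 0 < δ) (h1 : δ < 1 / 2) :
    Adm k (exA k δ) := by
  refine ⟨⟨exAdm_closed k δ, exAdm_cover hk δ, exAdm_pos hk h0 h1⟩, ?_⟩
  intro i j hij x hx
  rw [Metric.mem_closure_iff]
  intro ε hε
  have hpos := exAdm_pos hk h0 h1 i x hx.1
  have ht : 0 < min (x i) (ε / 3) := lt_min hpos (by linarith)
  refine ⟨exAdm_mv x i j (min (x i) (ε / 3)),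
    ⟨exAdm_mv_mem hx.1.1 hij ht.le (min_le_left _ _), exAdm_key hk δ hij hx.1 hx.2 ht⟩, ?_⟩
  have h2 := exAdm_mv_dist x i j ht.le
  have h3 := min_le_right (x i) (ε / 3)
  linarith

end SP
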