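import Pool.Agent.H59.SP.Ex

/-!
# Module E2: the points in `k - 1` sets of the example
-/

open Metric Set

namespace SP

theorem exm_cardI (k : ℕ) : (Finset.univ.filter (fun i : Fin k => blI k i)).card = k / 2 := by
  have h : (Finset.univ.filter (fun i : Fin k => blI k i))
      = Finset.univ.filter (fun i : Fin k => i.val < k / 2) :=
    Finset.filter_congr (fun i _ => Iff.rfl)
  rw [h, Fin.card_filter_val_lt]
  omega

theorem exm_cardJ (k : ℕ) :
    (Finset.univ.filter (fun i : Fin k => ¬ blI k i)).card = (k + 1) / 2 := by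
  have h := Finset.card_filter_add_card_filter_not (s := (Finset.univ : Finset (Fin k)))
    (p := fun i => blI k i)
  rw [exm_cardI, Finset.card_univ, Fintype.card_fin] at h
  omega

theorem exm_ab (k : ℕ) : aa k + bb k = k := by
  unfold aa bb
  rw [← Nat.cast_add]
  congr 1
  omega

theorem exm_a2 {k : ℕ} (hk : 4 ≤ k) : 2 ≤ aa k := by
  unfold aa
  have : 2 ≤ k / 2 := by omega
  exact_mod_cast this

theorem exm_b2 {k : ℕ} (hk : 4 ≤ k) : 2 ≤ bb k := by
  unfold bb
  have : 2 ≤ (k + 1) / 2 := by omega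
  exact_mod_cast this

/-- a point with two values on the block `I` -/
noncomputable def exmP (k : ℕ) (i0 : Fin k) (u m w : ℝ) : V k :=
  WithLp.toLp 2 fun j => if blI k j then (if j = i0 then u else m) else w

/-- a point with two values on the block `J` -/
noncomputable def exmQ (k : ℕ) (i0 : Fin k) (u m w : ℝ) : V k :=
  WithLp.toLp 2 fun j => if blI k j then w else (if j = i0 then u else m)

theorem exm_sumI (k : ℕ) (i0 : Fin k) (h : blI k i0) (u m : ℝ) :
    ∑ j with blI k j, (if j = i0 then u else m) = (aa k - 1) * m + u := by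
  have h1 : ∀ j : Fin k, (if j = i0 then u else m) = m + (if j = i0 then u - m else 0) := by
    intro j; split_ifs <;> ring
  simp_rw [h1]
  rw [Finset.sum_add_distrib, Finset.sum_const, exm_cardI, Finset.sum_ite_eq']
  rw [if_pos (by simp [h])]
  unfold aa
  rw [nsmul_eq_mul]; ring

theorem exm_sumJ (k : ℕ) (i0 : Fin k) (h : ¬ blI k i0) (u m : ℝ) :
    ∑ j with ¬ blI k j, (if j = i0 then u else m) = (bb k - 1) * m + u := by
  have h1 : ∀ j : Fin k, (if j = i0 then u else m) = m + (if j = i0 then u - m else 0) := by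
    intro j; split_ifs <;> ring
  simp_rw [h1]
  rw [Finset.sum_add_distrib, Finset.sum_const, exm_cardJ, Finset.sum_ite_eq']
  rw [if_pos (by simp [h])]
  unfold bb
  rw [nsmul_eq_mul]; ring

theorem exm_split (k : ℕ) (x : V k) :
    ∑ i, x i = ∑ i with blI k i, x i + ∑ i with ¬ blI k i, x i :=
  (Finset.sum_filter_add_sum_filter_not _ _ _).symm

theorem exmP_sI (k : ℕ) (i0 : Fin k) (h : blI k i0) (u m w : ℝ) :
    sI k (exmP k i0 u m w) = (aa k - 1) * m + u := by
  rw [← exm_sumI k i0 h u m]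
  unfold sI exmP
  refine Finset.sum_congr rfl fun j hj => ?_
  have hj' : blI k j := (Finset.mem_filter.1 hj).2
  simp [hj']

theorem exmP_sum (k : ℕ) (i0 : Fin k) (h : blI k i0) (u m w : ℝ) :
    ∑ i, exmP k i0 u m w i = (aa k - 1) * m + u + bb k * w := by
  rw [exm_split]
  have h1 := exmP_sI k i0 h u m w
  unfold sI at h1
  rw [h1]
  congr 1
  have h2 : ∑ i with ¬ blI k i, exmP k i0 u m w i = ∑ i : Fin k with ¬ blI k i, w := by
    refine Finset.sum_congr rfl fun j hj => ?_
    have hj' : ¬ blI k j := (Finset.mem_filter.1 hj).2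
    simp [exmP, hj']
  rw [h2, Finset.sum_const, exm_cardJ, nsmul_eq_mul]
  rfl

theorem exmQ_sI (k : ℕ) (i0 : Fin k) (u m w : ℝ) :
    sI k (exmQ k i0 u m w) = aa k * w := by
  unfold sI
  have h2 : ∑ i with blI k i, exmQ k i0 u m w i = ∑ i : Fin k with blI k i, w := by
    refine Finset.sum_congr rfl fun j hj => ?_
    have hj' : blI k j := (Finset.mem_filter.1 hj).2
    simp [exmQ, hj']
  rw [h2, Finset.sum_const, exm_cardI, nsmul_eq_mul]
  rfl

theorem exmQ_sum (k : ℕ) (i0 : Fin k) (h : ¬ blI k i0) (u m w : ℝ) :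
    ∑ i, exmQ k i0 u m w i = (bb k - 1) * m + u + aa k * w := by
  rw [exm_split]
  have h1 := exmQ_sI k i0 u m w
  unfold sI at h1
  rw [h1, add_comm]
  congr 1
  rw [← exm_sumJ k i0 h u m]
  refine Finset.sum_congr rfl fun j hj => ?_
  have hj' : ¬ blI k j := (Finset.mem_filter.1 hj).2
  simp [exmQ, hj']

theorem exm_cover {k : ℕ} (hk : 4 ≤ k) {A : Fin k → Set (V k)} {x : V k}
    (hx : x ∈ meet k A (k - 1)) : ∃ i0, ∀ i, i ≠ i0 → x ∈ A i := by
  obtain ⟨T, hT, hx⟩ := hx
  have hc : Tᶜ.card ≤ 1 := by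
    rw [Finset.card_compl, Fintype.card_fin]; omega
  have : Nonempty (Fin k) := ⟨⟨0, by omega⟩⟩
  obtain ⟨i0, hi0⟩ := Finset.card_le_one_iff_subset_singleton.1 hc
  refine ⟨i0, fun i hi => hx i ?_⟩
  by_contra hiT
  exact hi (Finset.mem_singleton.1 (hi0 (Finset.mem_compl.2 hiT)))

theorem exm_meet_of {k : ℕ} {A : Fin k → Set (V k)} {x : V k} (i0 : Fin k)
    (h : ∀ i, i ≠ i0 → x ∈ A i) : x ∈ meet k A (k - 1) := by
  refine ⟨Finset.univ.erase i0, ?_, fun i hi => h i (Finset.ne_of_mem_erase hi)⟩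
  rw [Finset.card_erase_of_mem (Finset.mem_univ _), Finset.card_univ, Fintype.card_fin]

/-- two different labels in the block `I` -/
theorem exm_otherI {k : ℕ} (hk : 4 ≤ k) (i0 : Fin k) : ∃ i1, blI k i1 ∧ i1 ≠ i0 := by
  by_cases h : i0.val = 0
  · refine ⟨⟨1, by omega⟩, ?_, ?_⟩
    · show 1 < k / 2
      omega
    · intro he
      rw [← he] at h
      simp at h
  · refine ⟨⟨0, by omega⟩, ?_, ?_⟩
    · show 0 < k / 2
      omega
    · intro he
      rw [← he] at h
      simp at h

theorem exm_otherJ {k : ℕ} (hk : 4 ≤ k) (i0 : Fin k) : ∃ i1, ¬ blI k i1 ∧ i1 ≠ i0 := by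
  by_cases h : i0.val = k - 1
  · refine ⟨⟨k - 2, by omega⟩, ?_, ?_⟩
    · show ¬ (k - 2 < k / 2)
      omega
    · intro he
      rw [← he] at h
      simp at h
      omega
  · refine ⟨⟨k - 1, by omega⟩, ?_, ?_⟩
    · show ¬ (k - 1 < k / 2)
      omega
    · intro he
      rw [← he] at h
      simp at h

theorem exmP_mem {k : ℕ} {δ : ℝ} {i0 : Fin k} (h : blI k i0) {u m w : ℝ} (hu : 0 ≤ u)
    (hum : u ≤ m) (hw : 0 ≤ w) (hs : (aa k - 1) * m + u + bb k * w = 1)
    (hD : m - w = DD k δ ((aa k - 1) * m + u)) :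
    ∀ i, i ≠ i0 → exmP k i0 u m w ∈ exA k δ i := by
  intro i hi
  have hv : ∀ j, exmP k i0 u m w j = if blI k j then (if j = i0 then u else m) else w :=
    fun j => rfl
  refine ⟨⟨?_, ?_⟩, ?_, ?_, ?_⟩
  · intro j
    rw [hv]
    split_ifs <;> linarith
  · rw [exmP_sum k i0 h, hs]
  · intro j hj
    rw [hv, hv, if_neg hi]
    by_cases hb : blI k i
    · rw [if_pos hb, if_pos (hj.1 hb)]
      split_ifs <;> linarith
    · rw [if_neg hb, if_neg (fun hc => hb (hj.2 hc))]
  · intro hb j hj
    rw [exmP_sI k i0 h, hv, hv, if_pos hb, if_neg hi, if_neg hj, hD]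
  · intro hb j hj
    rw [exmP_sI k i0 h, hv, hv, if_pos hj, if_neg hb, ← hD]
    split_ifs <;> linarith

theorem exmQ_mem {k : ℕ} {δ : ℝ} {i0 : Fin k} (h : ¬ blI k i0) {u m w : ℝ} (hu : 0 ≤ u)
    (hum : u ≤ m) (hw : 0 ≤ w) (hs : (bb k - 1) * m + u + aa k * w = 1)
    (hD : w - m = DD k δ (aa k * w)) :
    ∀ i, i ≠ i0 → exmQ k i0 u m w ∈ exA k δ i := by
  intro i hi
  have hv : ∀ j, exmQ k i0 u m w j = if blI k j then w else (if j = i0 then u else m) :=
    fun j => rfl
  refine ⟨⟨?_, ?_⟩, ?_, ?_, ?_⟩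
  · intro j
    rw [hv]
    split_ifs <;> linarith
  · rw [exmQ_sum k i0 h, hs]
  · intro j hj
    rw [hv, hv, if_neg hi]
    by_cases hb : blI k i
    · rw [if_pos hb, if_pos (hj.1 hb)]
    · rw [if_neg hb, if_neg (fun hc => hb (hj.2 hc))]
      split_ifs <;> linarith
  · intro hb j hj
    rw [exmQ_sI k i0, hv, hv, if_pos hb, if_neg hj, ← hD]
    split_ifs <;> linarith
  · intro hb j hj
    rw [exmQ_sI k i0, hv, hv, if_pos hj, if_neg hi, if_neg hb, hD]

theorem exmP_of {k : ℕ} (hk : 4 ≤ k) {δ : ℝ} {i0 : Fin k} (h : blI k i0) {x : V k}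
    (hx : ∀ i, i ≠ i0 → x ∈ exA k δ i) :
    ∃ u m w, x = exmP k i0 u m w ∧ 0 ≤ u ∧ u ≤ m ∧
      (aa k - 1) * m + u + bb k * w = 1 ∧ m - w = DD k δ ((aa k - 1) * m + u) := by
  obtain ⟨i1, h1, h1n⟩ := exm_otherI hk i0
  obtain ⟨j1, g1, g1n⟩ := exm_otherJ hk i0
  have e : x = exmP k i0 (x i0) (x i1) (x j1) := by
    ext j
    have hv : exmP k i0 (x i0) (x i1) (x j1) j
      = if blI k j then (if j = i0 then x i0 else x i1) else x j1 := rfl
    rw [hv]
    split_ifs with hb hj
    · rw [hj]
    · exact le_antisymm ((hx i1 h1n).2.1 j ⟨fun _ => hb, fun _ => h1⟩)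
        ((hx j hj).2.1 i1 ⟨fun _ => h1, fun _ => hb⟩)
    · have hj : j ≠ i0 := fun he => hb (he ▸ h)
      exact le_antisymm ((hx j1 g1n).2.1 j ⟨fun hc => absurd hc g1, fun hc => absurd hc hb⟩)
        ((hx j hj).2.1 j1 ⟨fun hc => absurd hc hb, fun hc => absurd hc g1⟩)
  have hS := (hx i1 h1n).1
  refine ⟨x i0, x i1, x j1, e, hS.1 i0, (hx i1 h1n).2.1 i0 ⟨fun _ => h, fun _ => h1⟩, ?_, ?_⟩
  · rw [← exmP_sum k i0 h, ← e]
    exact hS.2
  · rw [← exmP_sI k i0 h (x i0) (x i1) (x j1), ← e]
    exact le_antisymm ((hx j1 g1n).2.2.2 g1 i1 h1) ((hx i1 h1n).2.2.1 h1 j1 g1)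

theorem exmQ_of {k : ℕ} (hk : 4 ≤ k) {δ : ℝ} {i0 : Fin k} (h : ¬ blI k i0) {x : V k}
    (hx : ∀ i, i ≠ i0 → x ∈ exA k δ i) :
    ∃ u m w, x = exmQ k i0 u m w ∧ 0 ≤ u ∧ u ≤ m ∧
      (bb k - 1) * m + u + aa k * w = 1 ∧ w - m = DD k δ (aa k * w) := by
  obtain ⟨i1, h1, h1n⟩ := exm_otherI hk i0
  obtain ⟨j1, g1, g1n⟩ := exm_otherJ hk i0
  have e : x = exmQ k i0 (x i0) (x j1) (x i1) := by
    ext j
    have hv : exmQ k i0 (x i0) (x j1) (x i1) j
      = if blI k j then x i1 else (if j = i0 then x i0 else x j1) := rfl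
    rw [hv]
    split_ifs with hb hj
    · have hj : j ≠ i0 := fun he => h (he ▸ hb)
      exact le_antisymm ((hx i1 h1n).2.1 j ⟨fun _ => hb, fun _ => h1⟩)
        ((hx j hj).2.1 i1 ⟨fun _ => h1, fun _ => hb⟩)
    · rw [hj]
    · exact le_antisymm ((hx j1 g1n).2.1 j ⟨fun hc => absurd hc g1, fun hc => absurd hc hb⟩)
        ((hx j hj).2.1 j1 ⟨fun hc => absurd hc hb, fun hc => absurd hc g1⟩)
  have hS := (hx i1 h1n).1
  refine ⟨x i0, x j1, x i1, e, hS.1 i0,
    (hx j1 g1n).2.1 i0 ⟨fun hc => absurd hc g1, fun hc => absurd hc h⟩, ?_, ?_⟩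
  · rw [← exmQ_sum k i0 h, ← e]
    exact hS.2
  · rw [← exmQ_sI k i0 (x i0) (x j1) (x i1), ← e]
    exact le_antisymm ((hx j1 g1n).2.2.2 g1 i1 h1) ((hx i1 h1n).2.2.1 h1 j1 g1)

theorem exm_num1 {a b δ u m w : ℝ} (ha : 0 < a) (hb : 0 < b) (h1 : δ < 1 / 2)
    (hum : u ≤ m) (hs : (a - 1) * m + u + b * w = 1)
    (hD : m - w = (max δ (min ((a - 1) * m + u) (1 - δ))) / a
      - (1 - max δ (min ((a - 1) * m + u) (1 - δ))) / b) :
    (u = m ∧ δ ≤ a * m ∧ a * m ≤ 1 - δ) ∨ (a + b - 1) * m + u = (a + b) * δ / a := by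
  set c := max δ (min ((a - 1) * m + u) (1 - δ)) with hc
  have e1 : a * ((a + b - 1) * m + u) = (a + b) * c := by
    have h2 : a * b * (m - w) = b * c - a * (1 - c) := by
      rw [hD]; field_simp
    have h3 : a * (b * w) = a * (1 - ((a - 1) * m + u)) := by
      linear_combination a * hs
    linarith [h2, h3, mul_comm a b]
  rcases eq_or_lt_of_le hum with he | hlt
  · left
    subst he
    have h4 : a * u = c := by
      have : (a + b) * (a * u) = (a + b) * c := by rw [← e1]; ring
      exact mul_left_cancel₀ (by positivity) this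
    refine ⟨rfl, ?_, ?_⟩
    · rw [h4]; exact le_max_left _ _
    · rw [h4]; exact max_le (by linarith) (min_le_right _ _)
  · right
    have h5 : (a - 1) * m + u < c := by
      have h6 : (a + b) * (c - ((a - 1) * m + u)) = b * (m - u) := by linarith
      have h7 : 0 < b * (m - u) := mul_pos hb (by linarith)
      rw [← h6] at h7
      have := (pos_iff_pos_of_mul_pos h7).1 (by positivity)
      linarith
    have h8 : c = δ := by
      rcases max_choice δ (min ((a - 1) * m + u) (1 - δ)) with h | h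
      · rw [hc, h]
      · exfalso
        have h9 : c ≤ (a - 1) * m + u := by rw [hc, h]; exact min_le_left _ _
        linarith
    rw [h8] at e1
    rw [eq_div_iff ha.ne', ← e1]; ring

theorem exm_num2 {a b δ u m w : ℝ} (ha : 0 < a) (hb : 0 < b) (h1 : δ < 1 / 2)
    (hum : u ≤ m) (hs : (b - 1) * m + u + a * w = 1)
    (hD : w - m = (max δ (min (a * w) (1 - δ))) / a
      - (1 - max δ (min (a * w) (1 - δ))) / b) :
    (u = m ∧ δ ≤ a * w ∧ a * w ≤ 1 - δ) ∨ (a + b - 1) * m + u = (a + b) * δ / b := by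
  set c := max δ (min (a * w) (1 - δ)) with hc
  have e1 : b * ((a + b - 1) * m + u) = (a + b) * (1 - c) := by
    have h2 : a * b * (w - m) = b * c - a * (1 - c) := by
      rw [hD]; field_simp
    have h3 : b * (a * w) = b * (1 - ((b - 1) * m + u)) := by
      linear_combination b * hs
    linarith [h2, h3, mul_comm a b]
  have e2 : (a + b) * (a * w - c) = a * (m - u) := by
    have h3 : (a + b) * (a * w) = (a + b) * (1 - ((b - 1) * m + u)) := by
      linear_combination (a + b) * hs
    linarith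
  rcases eq_or_lt_of_le hum with he | hlt
  · left
    subst he
    have h4 : a * w = c := by
      have : (a + b) * (a * w - c) = 0 := by rw [e2]; ring
      rcases mul_eq_zero.1 this with h | h
      · exfalso; linarith
      · linarith
    refine ⟨rfl, ?_, ?_⟩
    · rw [h4]; exact le_max_left _ _
    · rw [h4]; exact max_le (by linarith) (min_le_right _ _)
  · right
    have h5 : c < a * w := by
      have h7 : 0 < a * (m - u) := mul_pos ha (by linarith)
      rw [← e2] at h7
      have := (pos_iff_pos_of_mul_pos h7).1 (by positivity)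
      linarith
    have h8 : c = 1 - δ := by
      rcases max_choice δ (min (a * w) (1 - δ)) with h | h
      · exfalso
        have h9 := le_max_right δ (min (a * w) (1 - δ))
        rw [h] at h9
        have h10 : a * w ≤ δ := by
          rcases min_le_iff.1 h9 with h' | h'
          · exact h'
          · exfalso; linarith
        have h11 : c = δ := by rw [hc, h]
        linarith
      · rcases min_choice (a * w) (1 - δ) with h' | h'
        · exfalso
          have : c = a * w := by rw [hc, h, h']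
          linarith
        · rw [hc, h, h']
    rw [h8] at e1
    rw [eq_div_iff hb.ne']
    linarith

theorem exm_seg {k : ℕ} {x p q : V k} (α β : ℝ) (hα : 0 ≤ α) (hβ : 0 ≤ β) (h : α + β = 1)
    (e : ∀ j, x j = α * p j + β * q j) : x ∈ segment ℝ p q := by
  refine ⟨α, β, hα, hβ, h, ?_⟩
  ext j
  rw [e j]
  rfl

theorem exm_seg' {k : ℕ} {x p q : V k} (hx : x ∈ segment ℝ p q) :
    ∃ α β : ℝ, 0 ≤ α ∧ 0 ≤ β ∧ α + β = 1 ∧ ∀ j, x j = α * p j + β * q j := by
  obtain ⟨α, β, hα, hβ, h, rfl⟩ := hx
  exact ⟨α, β, hα, hβ, h, fun j => rfl⟩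

theorem exm_main {k : ℕ} {δ s : ℝ} (h0 : δ ≤ s) (h1 : s ≤ 1 - δ) (hd : δ < 1 / 2)
    {x : V k} (hx : ∀ j, x j = pt k s j) : x ∈ segment ℝ (pt k δ) (pt k (1 - δ)) := by
  have hp : 0 < 1 - 2 * δ := by linarith
  obtain ⟨θ, hθ0, hθ1, hθ⟩ : ∃ θ : ℝ, 0 ≤ θ ∧ θ ≤ 1 ∧ s = (1 - θ) * δ + θ * (1 - δ) := by
    refine ⟨(s - δ) / (1 - 2 * δ), div_nonneg (by linarith) hp.le, ?_, ?_⟩
    · rw [div_le_one hp]; linarith
    · have := div_mul_cancel₀ (s - δ) hp.ne'
      linear_combination -this
  refine exm_seg (1 - θ) θ (by linarith) hθ0 (by ring) ?_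
  intro j
  rw [hx]
  have hv : ∀ t, pt k t j = if blI k j then t / aa k else (1 - t) / bb k := fun t => rfl
  rw [hv, hv, hv, hθ]
  split_ifs <;> ring

/-- the segment from `pt k δ` to `qt k δ i0`, `i0` in the block `I` -/
theorem exm_segI {k : ℕ} (hk : 4 ≤ k) {δ : ℝ} (h0 : 0 < δ) {i0 : Fin k} (h : blI k i0)
    (x : V k) : x ∈ segment ℝ (pt k δ) (qt k δ i0) ↔
      ∃ u m w, x = exmP k i0 u m w ∧ 0 ≤ u ∧ u ≤ m ∧ (aa k - 1) * m + u + bb k * w = 1 ∧
        (aa k + bb k - 1) * m + u = (aa k + bb k) * δ / aa k := by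
  have ha := exm_a2 hk
  have hb := exm_b2 hk
  have hkk : ((k : ℕ) : ℝ) = aa k + bb k := (exm_ab k).symm
  have ha0 : aa k ≠ 0 := by linarith
  have hb0 : bb k ≠ 0 := by linarith
  have hk0 : aa k + bb k - 1 ≠ 0 := by
    have : 0 < aa k + bb k - 1 := by linarith
    exact this.ne'
  have hpv : ∀ j, pt k δ j = if blI k j then δ / aa k else (1 - δ) / bb k := fun t => rfl
  have hqv : ∀ j, qt k δ i0 j = if j = i0 then 0 else if blI k j then
      δ * (aa k + bb k) / (aa k * (aa k + bb k - 1)) else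
      (1 - (aa k - 1) * (δ * (aa k + bb k) / (aa k * (aa k + bb k - 1)))) / bb k := by
    intro j
    rw [← hkk]
    show (if blI k i0 then _ else _) = _
    rw [if_pos h]
  have hev : ∀ u m w j, exmP k i0 u m w j = if blI k j then (if j = i0 then u else m) else w :=
    fun u m w j => rfl
  constructor
  · intro hx
    obtain ⟨α, β, hα, hβ, hαβ, e⟩ := exm_seg' hx
    have hβ' : β = 1 - α := by linarith
    refine ⟨α * (δ / aa k), α * (δ / aa k) +
      β * (δ * (aa k + bb k) / (aa k * (aa k + bb k - 1))), α * ((1 - δ) / bb k) +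
      β * ((1 - (aa k - 1) * (δ * (aa k + bb k) / (aa k * (aa k + bb k - 1)))) / bb k),
      ?_, ?_, ?_, ?_, ?_⟩
    · ext j
      rw [e j, hpv, hqv, hev]
      by_cases hj : blI k j
      · by_cases hj' : j = i0
        · simp [hj', h]
        · simp [hj, hj']
      · have hj' : j ≠ i0 := fun he => hj (he ▸ h)
        simp [hj, hj']
    · have : 0 ≤ aa k := by linarith
      positivity
    · have h1 : 0 ≤ aa k := by linarith
      have h2 : 0 ≤ aa k + bb k := by linarith
      have h3 : 0 ≤ aa k + bb k - 1 := by linarith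
      have : 0 ≤ β * (δ * (aa k + bb k) / (aa k * (aa k + bb k - 1))) := by positivity
      linarith
    · rw [hβ']; field_simp; ring
    · rw [hβ']; field_simp; ring
  · rintro ⟨u, m, w, rfl, hu, hum, hs, he⟩
    have hm : m = ((aa k + bb k) * δ / aa k - u) / (aa k + bb k - 1) := by
      rw [eq_div_iff hk0]; linarith
    have hule : u * aa k ≤ δ := by
      have h1 : (aa k + bb k) * u ≤ (aa k + bb k) * δ / aa k := by
        rw [← he]
        nlinarith
      have h2 : (aa k + bb k) * (u * aa k) ≤ (aa k + bb k) * δ := by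
        rw [le_div_iff₀ (by linarith)] at h1
        linarith
      exact le_of_mul_le_mul_left h2 (by linarith)
    have hw : w = (1 - ((aa k - 1) * m + u)) / bb k := by
      rw [eq_div_iff hb0]; linarith
    refine exm_seg (u * aa k / δ) (1 - u * aa k / δ) ?_ ?_ (by ring) ?_
    · have : 0 ≤ aa k := by linarith
      positivity
    · have : u * aa k / δ ≤ 1 := by rw [div_le_one h0]; exact hule
      linarith
    · intro j
      rw [hev, hpv, hqv, hw, hm]
      by_cases hj : blI k j
      · by_cases hj' : j = i0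
        · simp only [hj', if_true, h]
          field_simp
          ring
        · simp only [hj, hj', if_true, if_false]
          field_simp
          ring
      · have hj' : j ≠ i0 := fun he => hj (he ▸ h)
        simp only [hj, hj', if_false]
        field_simp
        ring

/-- the segment from `pt k (1 - δ)` to `qt k δ i0`, `i0` in the block `J` -/
theorem exm_segJ {k : ℕ} (hk : 4 ≤ k) {δ : ℝ} (h0 : 0 < δ) {i0 : Fin k} (h : ¬ blI k i0)
    (x : V k) : x ∈ segment ℝ (pt k (1 - δ)) (qt k δ i0) ↔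
      ∃ u m w, x = exmQ k i0 u m w ∧ 0 ≤ u ∧ u ≤ m ∧ (bb k - 1) * m + u + aa k * w = 1 ∧
        (aa k + bb k - 1) * m + u = (aa k + bb k) * δ / bb k := by
  have ha := exm_a2 hk
  have hb := exm_b2 hk
  have hkk : ((k : ℕ) : ℝ) = aa k + bb k := (exm_ab k).symm
  have ha0 : aa k ≠ 0 := by linarith
  have hb0 : bb k ≠ 0 := by linarith
  have hk0 : aa k + bb k - 1 ≠ 0 := by
    have : 0 < aa k + bb k - 1 := by linarith
    exact this.ne'
  have hpv : ∀ j, pt k (1 - δ) j = if blI k j then (1 - δ) / aa k else (1 - (1 - δ)) / bb k :=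
    fun t => rfl
  have hqv : ∀ j, qt k δ i0 j = if j = i0 then 0 else if blI k j then
      (1 - (bb k - 1) * (δ * (aa k + bb k) / (bb k * (aa k + bb k - 1)))) / aa k else
      δ * (aa k + bb k) / (bb k * (aa k + bb k - 1)) := by
    intro j
    rw [← hkk]
    show (if blI k i0 then _ else _) = _
    rw [if_neg h]
  have hev : ∀ u m w j, exmQ k i0 u m w j = if blI k j then w else (if j = i0 then u else m) :=
    fun u m w j => rfl
  constructor
  · intro hx
    obtain ⟨α, β, hα, hβ, hαβ, e⟩ := exm_seg' hx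
    have hβ' : β = 1 - α := by linarith
    refine ⟨α * (δ / bb k), α * (δ / bb k) +
      β * (δ * (aa k + bb k) / (bb k * (aa k + bb k - 1))), α * ((1 - δ) / aa k) +
      β * ((1 - (bb k - 1) * (δ * (aa k + bb k) / (bb k * (aa k + bb k - 1)))) / aa k),
      ?_, ?_, ?_, ?_, ?_⟩
    · ext j
      rw [e j, hpv, hqv, hev]
      by_cases hj : blI k j
      · have hj' : j ≠ i0 := fun he => h (he ▸ hj)
        simp [hj, hj']
      · by_cases hj' : j = i0
        · simp [hj', h]
        · simp [hj, hj']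
    · have : 0 ≤ bb k := by linarith
      positivity
    · have h1 : 0 ≤ bb k := by linarith
      have h2 : 0 ≤ aa k + bb k := by linarith
      have h3 : 0 ≤ aa k + bb k - 1 := by linarith
      have : 0 ≤ β * (δ * (aa k + bb k) / (bb k * (aa k + bb k - 1))) := by positivity
      linarith
    · rw [hβ']; field_simp; ring
    · rw [hβ']; field_simp; ring
  · rintro ⟨u, m, w, rfl, hu, hum, hs, he⟩
    have hm : m = ((aa k + bb k) * δ / bb k - u) / (aa k + bb k - 1) := by
      rw [eq_div_iff hk0]; linarith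
    have hule : u * bb k ≤ δ := by
      have h1 : (aa k + bb k) * u ≤ (aa k + bb k) * δ / bb k := by
        rw [← he]
        nlinarith
      have h2 : (aa k + bb k) * (u * bb k) ≤ (aa k + bb k) * δ := by
        rw [le_div_iff₀ (by linarith)] at h1
        linarith
      exact le_of_mul_le_mul_left h2 (by linarith)
    have hw : w = (1 - ((bb k - 1) * m + u)) / aa k := by
      rw [eq_div_iff ha0]; linarith
    refine exm_seg (u * bb k / δ) (1 - u * bb k / δ) ?_ ?_ (by ring) ?_
    · have : 0 ≤ bb k := by linarith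
      positivity
    · have : u * bb k / δ ≤ 1 := by rw [div_le_one h0]; exact hule
      linarith
    · intro j
      rw [hev, hpv, hqv, hw, hm]
      by_cases hj : blI k j
      · have hj' : j ≠ i0 := fun he => h (he ▸ hj)
        simp only [hj, hj', if_true, if_false]
        field_simp
        ring
      · by_cases hj' : j = i0
        · simp only [hj', if_true, h, if_false]
          field_simp
          ring
        · simp only [hj, hj', if_false]
          field_simp
          ring

theorem exm_DD {k : ℕ} {δ s : ℝ} : DD k δ s = (max δ (min s (1 - δ))) / aa k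
    - (1 - max δ (min s (1 - δ))) / bb k := rfl

theorem exm_clamp {δ s : ℝ} (h0 : δ ≤ s) (h1 : s ≤ 1 - δ) : max δ (min s (1 - δ)) = s := by
  rw [min_eq_left h1, max_eq_right h0]

theorem exm_none_mem {k : ℕ} (hk : 4 ≤ k) {δ : ℝ} (h0 : 0 < δ) {x : V k}
    (hx : x ∈ segment ℝ (pt k δ) (pt k (1 - δ))) (h1 : δ < 1 / 2) :
    x ∈ meet k (exA k δ) (k - 1) := by
  have ha := exm_a2 hk
  have hb := exm_b2 hk
  have ha0 : aa k ≠ 0 := by linarith
  have hb0 : bb k ≠ 0 := by linarith
  obtain ⟨α, β, hα, hβ, hαβ, e⟩ := exm_seg' hx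
  obtain ⟨i0, hi0, -⟩ := exm_otherI hk ⟨0, by omega⟩
  set s := α * δ + β * (1 - δ) with hs
  have hα' : α = 1 - β := by linarith
  have hβ1 : β ≤ 1 := by linarith
  have hs0 : δ ≤ s := by
    rw [hs, hα']
    nlinarith [mul_nonneg hβ (by linarith : 0 ≤ 1 - 2 * δ)]
  have hs1 : s ≤ 1 - δ := by
    rw [hs, hα']
    nlinarith [mul_nonneg (by linarith : 0 ≤ 1 - β) (by linarith : 0 ≤ 1 - 2 * δ)]
  have ex : x = exmP k i0 (s / aa k) (s / aa k) ((1 - s) / bb k) := by
    ext j
    rw [e j]
    have hpv : ∀ t, pt k t j = if blI k j then t / aa k else (1 - t) / bb k := fun t => rfl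
    have hev : exmP k i0 (s / aa k) (s / aa k) ((1 - s) / bb k) j
      = if blI k j then (if j = i0 then s / aa k else s / aa k) else (1 - s) / bb k := rfl
    rw [hpv, hpv, hev, hs, hα']
    split_ifs <;> ring
  have hap : 0 < aa k := by linarith
  have hbp : 0 < bb k := by linarith
  have e2 : (aa k - 1) * (s / aa k) + s / aa k = s := by field_simp; ring
  rw [ex]
  refine exm_meet_of i0 (exmP_mem hi0 (div_nonneg (by linarith) hap.le) le_rfl
    (div_nonneg (by linarith) hbp.le) ?_ ?_)
  · rw [e2]; field_simp; ring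
  · rw [e2, exm_DD, exm_clamp hs0 hs1]

theorem ex_meet {k : ℕ} (hk : 4 ≤ k) {δ : ℝ} (h0 : 0 < δ) (h1 : δ < 1 / 2) :
    meet k (exA k δ) (k - 1) = ⋃ a, segment ℝ (sp k δ a) (sq k δ a) := by
  have ha := exm_a2 hk
  have hb := exm_b2 hk
  have hap : 0 < aa k := by linarith
  have hbp : 0 < bb k := by linarith
  ext x
  rw [mem_iUnion]
  constructor
  · intro hx
    obtain ⟨i0, hi0⟩ := exm_cover hk hx
    by_cases h : blI k i0
    · obtain ⟨u, m, w, e, hu, hum, hs, hD⟩ := exmP_of hk h hi0
      rw [exm_DD] at hD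
      rcases exm_num1 hap hbp h1 hum hs hD with ⟨he, h2, h3⟩ | h2
      · refine ⟨none, exm_main (s := aa k * m) h2 h3 h1 ?_⟩
        intro j
        rw [e, he]
        have hev : exmP k i0 m m w j = if blI k j then (if j = i0 then m else m) else w := rfl
        have hpv : pt k (aa k * m) j = if blI k j then aa k * m / aa k
          else (1 - aa k * m) / bb k := rfl
        rw [hev, hpv]
        have hw : w = (1 - aa k * m) / bb k := by
          rw [eq_div_iff hbp.ne']
          rw [he] at hs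
          linarith
        split_ifs
        · field_simp
        · field_simp
        · exact hw
      · refine ⟨some i0, ?_⟩
        have : sp k δ (some i0) = pt k δ := if_pos h
        rw [this]
        exact (exm_segI hk h0 h x).2 ⟨u, m, w, e, hu, hum, hs, h2⟩
    · obtain ⟨u, m, w, e, hu, hum, hs, hD⟩ := exmQ_of hk h hi0
      rw [exm_DD] at hD
      rcases exm_num2 hap hbp h1 hum hs hD with ⟨he, h2, h3⟩ | h2
      · refine ⟨none, exm_main (s := aa k * w) h2 h3 h1 ?_⟩
        intro j
        rw [e, he]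
        have hev : exmQ k i0 m m w j = if blI k j then w else (if j = i0 then m else m) := rfl
        have hpv : pt k (aa k * w) j = if blI k j then aa k * w / aa k
          else (1 - aa k * w) / bb k := rfl
        rw [hev, hpv]
        have hm : m = (1 - aa k * w) / bb k := by
          rw [eq_div_iff hbp.ne']
          rw [he] at hs
          linarith
        split_ifs
        · field_simp
        · exact hm
        · exact hm
      · refine ⟨some i0, ?_⟩
        have : sp k δ (some i0) = pt k (1 - δ) := if_neg h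
        rw [this]
        exact (exm_segJ hk h0 h x).2 ⟨u, m, w, e, hu, hum, hs, h2⟩
  · rintro ⟨a, hx⟩
    cases a with
    | none => exact exm_none_mem hk h0 hx h1
    | some i0 =>
      by_cases h : blI k i0
      · have : sp k δ (some i0) = pt k δ := if_pos h
        rw [this] at hx
        obtain ⟨u, m, w, rfl, hu, hum, hs, he⟩ := (exm_segI hk h0 h x).1 hx
        have h2 : aa k * ((aa k + bb k - 1) * m + u) = (aa k + bb k) * δ := by
          rw [he]; field_simp
        have h3 : (aa k - 1) * m + u ≤ δ := by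
          have h4 : (aa k + bb k) * ((aa k - 1) * m + u) ≤ (aa k + bb k) * δ := by
            rw [← h2]
            nlinarith [mul_le_mul_of_nonneg_left hum hbp.le]
          exact le_of_mul_le_mul_left h4 (by linarith)
        have hw : w = (1 - ((aa k - 1) * m + u)) / bb k := by
          rw [eq_div_iff hbp.ne']; linarith
        have hc : max δ (min ((aa k - 1) * m + u) (1 - δ)) = δ :=
          max_eq_left ((min_le_left _ _).trans h3)
        refine exm_meet_of i0 (exmP_mem h hu hum ?_ hs ?_)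
        · rw [hw]
          exact div_nonneg (by linarith) hbp.le
        · rw [exm_DD, hc, hw]
          field_simp
          linarith
      · have : sp k δ (some i0) = pt k (1 - δ) := if_neg h
        rw [this] at hx
        obtain ⟨u, m, w, rfl, hu, hum, hs, he⟩ := (exm_segJ hk h0 h x).1 hx
        have h2 : bb k * ((aa k + bb k - 1) * m + u) = (aa k + bb k) * δ := by
          rw [he]; field_simp
        have h3 : (bb k - 1) * m + u ≤ δ := by
          have h4 : (aa k + bb k) * ((bb k - 1) * m + u) ≤ (aa k + bb k) * δ := by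
            rw [← h2]
            nlinarith [mul_le_mul_of_nonneg_left hum hap.le]
          exact le_of_mul_le_mul_left h4 (by linarith)
        have hw : w = (1 - ((bb k - 1) * m + u)) / aa k := by
          rw [eq_div_iff hap.ne']; linarith
        have hc : max δ (min (aa k * w) (1 - δ)) = 1 - δ := by
          rw [min_eq_right (by linarith), max_eq_right (by linarith)]
        refine exm_meet_of i0 (exmQ_mem h hu hum ?_ hs ?_)
        · rw [hw]
          exact div_nonneg (by linarith) hap.le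
        · rw [exm_DD, hc, hw]
          field_simp
          linarith

end SP
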