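import Pool.Agent.H59.SP.Ex

/-!
# Module E3: the segments of the example
-/

open Metric Set Filter
open scoped Topology

namespace SP

theorem exs_cardI (k : ℕ) : (Finset.univ.filter (fun i : Fin k => blI k i)).card = k / 2 := by
  have h : (Finset.univ.filter (fun i : Fin k => blI k i))
      = Finset.univ.filter (fun i : Fin k => i.val < k / 2) :=
    Finset.filter_congr (fun i _ => Iff.rfl)
  rw [h, Fin.card_filter_val_lt]
  omega

theorem exs_cardJ (k : ℕ) :
    (Finset.univ.filter (fun i : Fin k => ¬ blI k i)).card = (k + 1) / 2 := by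
  have h := Finset.card_filter_add_card_filter_not (s := (Finset.univ : Finset (Fin k)))
    (p := fun i => blI k i)
  rw [exs_cardI, Finset.card_univ, Fintype.card_fin] at h
  omega

theorem exs_a2 {k : ℕ} (hk : 4 ≤ k) : 2 ≤ aa k := by
  unfold aa
  have : 2 ≤ k / 2 := by omega
  exact_mod_cast this

theorem exs_b2 {k : ℕ} (hk : 4 ≤ k) : 2 ≤ bb k := by
  unfold bb
  have : 2 ≤ (k + 1) / 2 := by omega
  exact_mod_cast this

theorem exs_k4 {k : ℕ} (hk : 4 ≤ k) : (4 : ℝ) ≤ k := by exact_mod_cast hk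

/-- sum of a two valued function of the block -/
theorem exs_sum (k : ℕ) (u w : ℝ) :
    ∑ j : Fin k, (if blI k j then u else w) = aa k * u + bb k * w := by
  rw [Finset.sum_ite, Finset.sum_const, Finset.sum_const, exs_cardI, exs_cardJ, nsmul_eq_mul,
    nsmul_eq_mul]
  rfl

theorem exs_sum3 (k : ℕ) (i : Fin k) (u m w : ℝ) (h : blI k i) :
    ∑ j : Fin k, (if j = i then u else if blI k j then m else w) =
      u - m + (aa k * m + bb k * w) := by
  have h1 : ∀ j : Fin k, (if j = i then u else if blI k j then m else w) =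
      (if j = i then u - m else 0) + (if blI k j then m else w) := by
    intro j
    by_cases hj : j = i
    · subst hj
      simp [h]
    · simp [hj]
  simp_rw [h1]
  rw [Finset.sum_add_distrib, exs_sum, Finset.sum_ite_eq']
  simp

theorem exs_sum3' (k : ℕ) (i : Fin k) (u m w : ℝ) (h : ¬ blI k i) :
    ∑ j : Fin k, (if j = i then u else if blI k j then w else m) =
      u - m + (aa k * w + bb k * m) := by
  have h1 : ∀ j : Fin k, (if j = i then u else if blI k j then w else m) =
      (if j = i then u - m else 0) + (if blI k j then w else m) := by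
    intro j
    by_cases hj : j = i
    · subst hj
      simp [h]
    · simp [hj]
  simp_rw [h1]
  rw [Finset.sum_add_distrib, exs_sum, Finset.sum_ite_eq']
  simp

theorem exs_pt_mem {k : ℕ} (hk : 4 ≤ k) (s : ℝ) : pt k s ∈ Hp k := by
  have ha := exs_a2 hk
  have hb := exs_b2 hk
  change ∑ i : Fin k, (if blI k i then s / aa k else (1 - s) / bb k) = 1
  rw [exs_sum, mul_div_cancel₀ _ (by linarith), mul_div_cancel₀ _ (by linarith)]
  ring

theorem exs_qt_mem {k : ℕ} (hk : 4 ≤ k) (δ : ℝ) (i : Fin k) : qt k δ i ∈ Hp k := by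
  have ha := exs_a2 hk
  have hb := exs_b2 hk
  by_cases h : blI k i
  · have e : ∀ j, qt k δ i j = (if j = i then 0 else if blI k j then δ * k / (aa k * (k - 1))
        else (1 - (aa k - 1) * (δ * k / (aa k * (k - 1)))) / bb k) := by
      intro j
      change (if blI k i then _ else _) = _
      rw [if_pos h]
    change ∑ j : Fin k, qt k δ i j = 1
    simp_rw [e]
    rw [exs_sum3 k i _ _ _ h, mul_div_cancel₀ _ (by linarith)]
    ring
  · have e : ∀ j, qt k δ i j = (if j = i then 0 else if blI k j then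
        (1 - (bb k - 1) * (δ * k / (bb k * (k - 1)))) / aa k
        else δ * k / (bb k * (k - 1))) := by
      intro j
      change (if blI k i then _ else _) = _
      rw [if_neg h]
    change ∑ j : Fin k, qt k δ i j = 1
    simp_rw [e]
    rw [exs_sum3' k i _ _ _ h, mul_div_cancel₀ _ (by linarith)]
    ring

theorem ex_mem {k : ℕ} (hk : 4 ≤ k) (δ : ℝ) (a : Option (Fin k)) :
    sp k δ a ∈ Hp k ∧ sq k δ a ∈ Hp k := by
  cases a with
  | none => exact ⟨exs_pt_mem hk _, exs_pt_mem hk _⟩
  | some i =>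
    refine ⟨?_, exs_qt_mem hk _ _⟩
    change (if blI k i then pt k δ else pt k (1 - δ)) ∈ Hp k
    split_ifs
    · exact exs_pt_mem hk _
    · exact exs_pt_mem hk _

/-- a point of a segment -/
theorem exs_seg {k : ℕ} {p q x : V k} (h : x ∈ segment ℝ p q) :
    ∃ t : ℝ, 0 ≤ t ∧ t ≤ 1 ∧ (∀ j, x j = (1 - t) * p j + t * q j) ∧ (t = 0 → x = p) := by
  obtain ⟨a, b, ha, hb, hab, rfl⟩ := h
  have hab' : a = 1 - b := by linarith
  refine ⟨b, hb, by linarith, fun j => ?_, fun h => ?_⟩
  · rw [hab']; simp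
  · rw [hab', h]; simp

theorem exs_ptI {k : ℕ} {s : ℝ} {j : Fin k} (h : blI k j) : pt k s j = s / aa k := if_pos h

theorem exs_ptJ {k : ℕ} {s : ℝ} {j : Fin k} (h : ¬ blI k j) : pt k s j = (1 - s) / bb k :=
  if_neg h

theorem exs_qt_self {k : ℕ} {δ : ℝ} (i : Fin k) : qt k δ i i = 0 := by
  by_cases h : blI k i
  · change (if blI k i then (if i = i then 0 else if blI k i then _ else _) else _) = (0 : ℝ)
    rw [if_pos h, if_pos rfl]
  · change (if blI k i then _ else (if i = i then 0 else if blI k i then _ else _)) = (0 : ℝ)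
    rw [if_neg h, if_pos rfl]

theorem exs_qtI {k : ℕ} {δ : ℝ} {i j : Fin k} (hi : blI k i) (hj : blI k j) (hij : j ≠ i) :
    qt k δ i j = δ * k / (aa k * (k - 1)) := by
  change (if blI k i then (if j = i then 0 else if blI k j then _ else _) else _) = _
  rw [if_pos hi, if_neg hij, if_pos hj]

theorem exs_qtJ {k : ℕ} {δ : ℝ} {i j : Fin k} (hi : ¬ blI k i) (hj : ¬ blI k j) (hij : j ≠ i) :
    qt k δ i j = δ * k / (bb k * (k - 1)) := by
  change (if blI k i then _ else (if j = i then 0 else if blI k j then _ else _)) = _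
  rw [if_neg hi, if_neg hij, if_neg hj]

theorem exs_qtIJ {k : ℕ} {δ : ℝ} {i j : Fin k} (hi : blI k i) (hj : ¬ blI k j) :
    qt k δ i j = (1 - (aa k - 1) * (δ * k / (aa k * (k - 1)))) / bb k := by
  have hij : j ≠ i := fun h => hj (h ▸ hi)
  change (if blI k i then (if j = i then 0 else if blI k j then _ else _) else _) = _
  rw [if_pos hi, if_neg hij, if_neg hj]

/-- another index in the block `I` -/
theorem exs_otherI {k : ℕ} (hk : 4 ≤ k) (i : Fin k) : ∃ j : Fin k, blI k j ∧ j ≠ i := by
  have h : ({i} : Finset (Fin k)).card <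
      (Finset.univ.filter (fun i : Fin k => blI k i)).card := by
    rw [exs_cardI, Finset.card_singleton]
    omega
  obtain ⟨j, hj, hj'⟩ := Finset.exists_mem_notMem_of_card_lt_card h
  exact ⟨j, (Finset.mem_filter.1 hj).2, fun h => hj' (Finset.mem_singleton.2 h)⟩

theorem exs_otherJ {k : ℕ} (hk : 4 ≤ k) (i : Fin k) : ∃ j : Fin k, ¬ blI k j ∧ j ≠ i := by
  have h : ({i} : Finset (Fin k)).card <
      (Finset.univ.filter (fun i : Fin k => ¬ blI k i)).card := by
    rw [exs_cardJ, Finset.card_singleton]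
    omega
  obtain ⟨j, hj, hj'⟩ := Finset.exists_mem_notMem_of_card_lt_card h
  exact ⟨j, (Finset.mem_filter.1 hj).2, fun h => hj' (Finset.mem_singleton.2 h)⟩

/-- On the short segment of `i`, `i ∈ I`: `x i ≤ x j` for the other `j ∈ I`, with equality only
at the first end point. -/
theorem exs_leI {k : ℕ} (hk : 4 ≤ k) {δ : ℝ} (h0 : 0 < δ) {i : Fin k} (hi : blI k i)
    {x : V k} (hx : x ∈ segment ℝ (pt k δ) (qt k δ i)) :
    (∀ j, blI k j → x i ≤ x j) ∧ (∀ j, blI k j → j ≠ i → x j ≤ x i → x = pt k δ) ∧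
      x i ≤ δ / aa k := by
  have ha := exs_a2 hk
  have hk4 := exs_k4 hk
  obtain ⟨t, ht0, ht1, hx, hx0⟩ := exs_seg hx
  have hm : 0 < δ * k / (aa k * (k - 1)) := by
    apply div_pos (mul_pos h0 (by linarith)) (mul_pos (by linarith) (by linarith))
  have e1 : x i = (1 - t) * (δ / aa k) := by
    rw [hx i, exs_ptI hi, exs_qt_self, mul_zero, add_zero]
  have e2 : ∀ j, blI k j → j ≠ i →
      x j = (1 - t) * (δ / aa k) + t * (δ * k / (aa k * (k - 1))) := by
    intro j hj hji
    rw [hx j, exs_ptI hj, exs_qtI hi hj hji]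
  refine ⟨fun j hj => ?_, fun j hj hji h => ?_, ?_⟩
  · by_cases hji : j = i
    · rw [hji]
    · rw [e1, e2 j hj hji]
      have := mul_nonneg ht0 hm.le
      linarith
  · rw [e1, e2 j hj hji] at h
    apply hx0
    by_contra hne
    have ht : 0 < t := lt_of_le_of_ne ht0 (Ne.symm hne)
    have := mul_pos ht hm
    linarith
  · rw [e1]
    have : 0 < δ / aa k := div_pos h0 (by linarith)
    nlinarith

theorem exs_leJ {k : ℕ} (hk : 4 ≤ k) {δ : ℝ} (h0 : 0 < δ) {i : Fin k} (hi : ¬ blI k i)
    {x : V k} (hx : x ∈ segment ℝ (pt k (1 - δ)) (qt k δ i)) :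
    (∀ j, ¬ blI k j → x i ≤ x j) ∧
      (∀ j, ¬ blI k j → j ≠ i → x j ≤ x i → x = pt k (1 - δ)) := by
  have hb := exs_b2 hk
  have hk4 := exs_k4 hk
  obtain ⟨t, ht0, ht1, hx, hx0⟩ := exs_seg hx
  have hm : 0 < δ * k / (bb k * (k - 1)) := by
    apply div_pos (mul_pos h0 (by linarith)) (mul_pos (by linarith) (by linarith))
  have e1 : x i = (1 - t) * ((1 - (1 - δ)) / bb k) := by
    rw [hx i, exs_ptJ hi, exs_qt_self, mul_zero, add_zero]
  have e2 : ∀ j, ¬ blI k j → j ≠ i →
      x j = (1 - t) * ((1 - (1 - δ)) / bb k) + t * (δ * k / (bb k * (k - 1))) := by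
    intro j hj hji
    rw [hx j, exs_ptJ hj, exs_qtJ hi hj hji]
  refine ⟨fun j hj => ?_, fun j hj hji h => ?_⟩
  · by_cases hji : j = i
    · rw [hji]
    · rw [e1, e2 j hj hji]
      have := mul_nonneg ht0 hm.le
      linarith
  · rw [e1, e2 j hj hji] at h
    apply hx0
    by_contra hne
    have ht : 0 < t := lt_of_le_of_ne ht0 (Ne.symm hne)
    have := mul_pos ht hm
    linarith

/-- On the short segment of `i ∈ I` the coordinates in `J` are all equal. -/
theorem exs_eqJ {k : ℕ} {δ : ℝ} {i : Fin k} (hi : blI k i)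
    {x : V k} (hx : x ∈ segment ℝ (pt k δ) (qt k δ i)) {j j' : Fin k} (hj : ¬ blI k j)
    (hj' : ¬ blI k j') : x j = x j' := by
  obtain ⟨t, -, -, hx, -⟩ := exs_seg hx
  rw [hx j, hx j', exs_ptJ hj, exs_ptJ hj', exs_qtIJ hi hj, exs_qtIJ hi hj']

/-- On the main segment the coordinates of each block are equal. -/
theorem exs_main {k : ℕ} {δ : ℝ} {x : V k} (hx : x ∈ segment ℝ (pt k δ) (pt k (1 - δ)))
    {j j' : Fin k} (hj : blI k j ↔ blI k j') : x j = x j' := by
  obtain ⟨t, -, -, hx, -⟩ := exs_seg hx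
  rw [hx j, hx j']
  by_cases h : blI k j
  · rw [exs_ptI h, exs_ptI h, exs_ptI (hj.1 h), exs_ptI (hj.1 h)]
  · rw [exs_ptJ h, exs_ptJ h, exs_ptJ (fun h' => h (hj.2 h')), exs_ptJ (fun h' => h (hj.2 h'))]

theorem exs_none_some {k : ℕ} (hk : 4 ≤ k) {δ : ℝ} (h0 : 0 < δ) (i : Fin k) {x : V k}
    (hx : x ∈ segment ℝ (sp k δ none) (sq k δ none))
    (hx' : x ∈ segment ℝ (sp k δ (some i)) (sq k δ (some i))) :
    x ∈ ({sp k δ none, sq k δ none} : Set (V k)) ∧
      x ∈ ({sp k δ (some i), sq k δ (some i)} : Set (V k)) := by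
  change x ∈ segment ℝ (pt k δ) (pt k (1 - δ)) at hx
  by_cases h : blI k i
  · have e1 : sp k δ (some i) = pt k δ := if_pos h
    rw [e1] at hx'
    change x ∈ segment ℝ (pt k δ) (qt k δ i) at hx'
    obtain ⟨j, hj, hji⟩ := exs_otherI hk i
    have h1 := (exs_leI hk h0 h hx').2.1 j hj hji
      (le_of_eq (exs_main hx (iff_of_true hj h)))
    rw [h1]
    exact ⟨Or.inl rfl, Or.inl e1.symm⟩
  · have e1 : sp k δ (some i) = pt k (1 - δ) := if_neg h
    rw [e1] at hx'
    change x ∈ segment ℝ (pt k (1 - δ)) (qt k δ i) at hx'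
    obtain ⟨j, hj, hji⟩ := exs_otherJ hk i
    have h1 := (exs_leJ hk h0 h hx').2 j hj hji
      (le_of_eq (exs_main hx (iff_of_false hj h)))
    rw [h1]
    exact ⟨Or.inr rfl, Or.inl e1.symm⟩

theorem exs_IJ {k : ℕ} (hk : 4 ≤ k) {δ : ℝ} (h0 : 0 < δ) (h1 : δ < 1 / 2) {i i' : Fin k}
    (hi : blI k i) (hi' : ¬ blI k i') {x : V k}
    (hx : x ∈ segment ℝ (pt k δ) (qt k δ i))
    (hx' : x ∈ segment ℝ (pt k (1 - δ)) (qt k δ i')) : False := by
  obtain ⟨j, hj, hji⟩ := exs_otherJ hk i'
  have e := (exs_leJ hk h0 hi' hx').2 j hj hji (le_of_eq (exs_eqJ hi hx hj hi'))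
  have e2 := (exs_leI hk h0 hi hx).2.2
  rw [e, exs_ptI hi] at e2
  have ha := exs_a2 hk
  rw [div_le_div_iff_of_pos_right (by linarith)] at e2
  linarith

/-- the segments meet only in end points -/
theorem ex_disj {k : ℕ} (hk : 4 ≤ k) {δ : ℝ} (h0 : 0 < δ) (h1 : δ < 1 / 2)
    (a b : Option (Fin k)) (hab : a ≠ b) :
    segment ℝ (sp k δ a) (sq k δ a) ∩ segment ℝ (sp k δ b) (sq k δ b) ⊆
      {sp k δ a, sq k δ a} := by
  rintro x ⟨hx, hx'⟩
  cases a with
  | none =>
    cases b with
    | none => exact absurd rfl hab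
    | some i => exact (exs_none_some hk h0 i hx hx').1
  | some i =>
    cases b with
    | none => exact (exs_none_some hk h0 i hx' hx).2
    | some i' =>
      have hii : i ≠ i' := fun h => hab (congrArg some h)
      by_cases h : blI k i
      · have e1 : sp k δ (some i) = pt k δ := if_pos h
        rw [e1] at hx ⊢
        change x ∈ segment ℝ (pt k δ) (qt k δ i) at hx
        by_cases h' : blI k i'
        · have e2 : sp k δ (some i') = pt k δ := if_pos h'
          rw [e2] at hx'
          change x ∈ segment ℝ (pt k δ) (qt k δ i') at hx'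
          exact Or.inl ((exs_leI hk h0 h hx).2.1 i' h' (Ne.symm hii)
            ((exs_leI hk h0 h' hx').1 i h))
        · have e2 : sp k δ (some i') = pt k (1 - δ) := if_neg h'
          rw [e2] at hx'
          change x ∈ segment ℝ (pt k (1 - δ)) (qt k δ i') at hx'
          exact (exs_IJ hk h0 h1 h h' hx hx').elim
      · have e1 : sp k δ (some i) = pt k (1 - δ) := if_neg h
        rw [e1] at hx ⊢
        change x ∈ segment ℝ (pt k (1 - δ)) (qt k δ i) at hx
        by_cases h' : blI k i'
        · have e2 : sp k δ (some i') = pt k δ := if_pos h'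
          rw [e2] at hx'
          change x ∈ segment ℝ (pt k δ) (qt k δ i') at hx'
          exact (exs_IJ hk h0 h1 h' h hx' hx).elim
        · have e2 : sp k δ (some i') = pt k (1 - δ) := if_neg h'
          rw [e2] at hx'
          change x ∈ segment ℝ (pt k (1 - δ)) (qt k δ i') at hx'
          exact Or.inl ((exs_leJ hk h0 h hx).2 i' h' (Ne.symm hii)
            ((exs_leJ hk h0 h' hx').1 i h))

theorem exs_pt_cont (k : ℕ) : Continuous (fun s : ℝ => pt k s) := by
  refine (PiLp.continuous_toLp 2 _).comp (continuous_pi fun j => ?_)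
  by_cases h : blI k j
  · simp only [h, if_true]
    exact continuous_id.div_const _
  · simp only [h, if_false]
    exact (continuous_const.sub continuous_id).div_const _

theorem exs_qt_cont (k : ℕ) (i : Fin k) : Continuous (fun δ : ℝ => qt k δ i) := by
  refine (PiLp.continuous_toLp 2 _).comp (continuous_pi fun j => ?_)
  by_cases h : blI k i
  · simp only [h, if_true]
    by_cases hj : j = i
    · simp only [hj, if_true]
      exact continuous_const
    · simp only [hj, if_false]
      by_cases h' : blI k j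
      · simp only [h', if_true]
        fun_prop
      · simp only [h', if_false]
        fun_prop
  · simp only [h, if_false]
    by_cases hj : j = i
    · simp only [hj, if_true]
      exact continuous_const
    · simp only [hj, if_false]
      by_cases h' : blI k j
      · simp only [h', if_true]
        fun_prop
      · simp only [h', if_false]
        fun_prop

theorem exs_len0 {k : ℕ} (hk : 4 ≤ k) : ∑ a, dist (sp k 0 a) (sq k 0 a) = wd k := by
  have ha := exs_a2 hk
  have hb := exs_b2 hk
  rw [Fintype.sum_option]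
  have h1 : ∀ i : Fin k, dist (sp k 0 (some i)) (sq k 0 (some i)) = 0 := by
    intro i
    rw [dist_eq_zero]
    by_cases h : blI k i
    · have e1 : sp k 0 (some i) = pt k 0 := if_pos h
      rw [e1]
      change pt k 0 = qt k 0 i
      ext j
      by_cases hj : blI k j
      · rw [exs_ptI hj]
        by_cases hji : j = i
        · rw [hji, exs_qt_self, zero_div]
        · rw [exs_qtI h hj hji]; simp
      · rw [exs_ptJ hj, exs_qtIJ h hj]; simp
    · have e1 : sp k 0 (some i) = pt k (1 - 0) := if_neg h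
      rw [e1]
      change pt k (1 - 0) = qt k 0 i
      ext j
      by_cases hj : blI k j
      · rw [exs_ptI hj]
        have hij : j ≠ i := fun h' => h (h' ▸ hj)
        have : qt k 0 i j = (1 - (bb k - 1) * (0 * k / (bb k * (k - 1)))) / aa k := by
          change (if blI k i then _ else (if j = i then 0 else if blI k j then _ else _)) = _
          rw [if_neg h, if_neg hij, if_pos hj]
        rw [this]; simp
      · rw [exs_ptJ hj]
        by_cases hji : j = i
        · rw [hji, exs_qt_self]; simp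
        · rw [exs_qtJ h hj hji]; simp
  rw [Finset.sum_eq_zero (fun i _ => h1 i), add_zero]
  change dist (pt k 0) (pt k (1 - 0)) = wd k
  rw [EuclideanSpace.dist_eq, wd]
  congr 1
  have h2 : ∀ j : Fin k, dist (pt k 0 j) (pt k (1 - 0) j) ^ 2 =
      if blI k j then (1 / aa k) ^ 2 else (1 / bb k) ^ 2 := by
    intro j
    rw [Real.dist_eq, sq_abs]
    by_cases hj : blI k j
    · rw [exs_ptI hj, exs_ptI hj, if_pos hj]; ring
    · rw [exs_ptJ hj, exs_ptJ hj, if_neg hj]; ring
  simp_rw [h2]
  rw [exs_sum]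
  change _ = 1 / aa k + 1 / bb k
  have ha' : aa k ≠ 0 := by linarith
  have hb' : bb k ≠ 0 := by linarith
  field_simp

/-- the total length tends to `wd k` -/
theorem ex_len {k : ℕ} (hk : 4 ≤ k) :
    Tendsto (fun δ => ∑ a, dist (sp k δ a) (sq k δ a)) (𝓝[>] 0) (𝓝 (wd k)) := by
  rw [← exs_len0 hk]
  refine Tendsto.mono_left (Continuous.tendsto ?_ 0) nhdsWithin_le_nhds
  refine continuous_finsetSum _ fun a _ => ?_
  have hc := exs_pt_cont k
  have hc' : Continuous (fun δ : ℝ => pt k (1 - δ)) :=
    hc.comp (continuous_const.sub continuous_id)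
  cases a with
  | none => exact hc.dist hc'
  | some i =>
    change Continuous fun δ => dist (if blI k i then pt k δ else pt k (1 - δ)) (qt k δ i)
    by_cases h : blI k i
    · simp only [h, if_true]
      exact hc.dist (exs_qt_cont k i)
    · simp only [h, if_false]
      exact hc'.dist (exs_qt_cont k i)

end SP
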