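import Pool.Agent.H59.SP.Defs

/-!
# Module T: continua (separation, boundary bumping)
-/

open Metric Set

namespace SP

/-- the component in terms of the subtype -/
theorem topo_comp_eq {X : Type*} [TopologicalSpace X] {C : Set X} {x : X} (hx : x ∈ C) :
    connectedComponentIn C x = Subtype.val '' connectedComponent (⟨x, hx⟩ : C) :=
  connectedComponentIn_eq_image hx

/-- separation in a compact Hausdorff space -/
theorem topo_sep {Y : Type*} [TopologicalSpace Y] [T2Space Y] [CompactSpace Y] {A B : Set Y}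
    (hA : IsClosed A) (hB : IsClosed B) (h : ∀ x ∈ A, ∀ y ∈ B, y ∉ connectedComponent x) :
    ∃ P : Set Y, IsClopen P ∧ A ⊆ P ∧ Disjoint P B := by
  have h1 : ∀ x ∈ A, ∃ W : Set Y, IsClopen W ∧ x ∈ W ∧ Disjoint W B := by
    intro x hx
    have h2 : ∀ y ∈ B, ∃ V : Set Y, IsClopen V ∧ x ∈ V ∧ y ∉ V := by
      intro y hy
      have h3 := h x hx y hy
      rw [connectedComponent_eq_iInter_isClopen, mem_iInter, not_forall] at h3
      obtain ⟨⟨V, hV, hxV⟩, hy'⟩ := h3
      exact ⟨V, hV, hxV, hy'⟩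
    choose! V hV hxV hyV using h2
    obtain ⟨t, htB⟩ := hB.isCompact.elim_nhds_subcover' (fun y _ => (V y)ᶜ)
      (fun y hy => (hV y hy).compl.isOpen.mem_nhds (hyV y hy))
    refine ⟨⋂ y ∈ t, V y, ?_, ?_, ?_⟩
    · exact isClopen_biInter_finset fun y _ => hV y y.2
    · exact mem_iInter₂.2 fun y _ => hxV y y.2
    · rw [Set.disjoint_left]
      intro z hz hzB
      obtain ⟨y, hy, hzy⟩ := mem_iUnion₂.1 (htB hzB)
      exact hzy (mem_iInter₂.1 hz y hy)
  choose! W hW hxW hWB using h1
  obtain ⟨t, ht⟩ := hA.isCompact.elim_nhds_subcover' (fun x _ => W x)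
    (fun x hx => (hW x hx).isOpen.mem_nhds (hxW x hx))
  refine ⟨⋃ x ∈ t, W x, ?_, ht, ?_⟩
  · exact isClopen_biUnion_finset fun x _ => hW x x.2
  · rw [Set.disjoint_left]
    intro z hz hzB
    obtain ⟨x, hx, hzx⟩ := mem_iUnion₂.1 hz
    exact Set.disjoint_left.1 (hWB x x.2) hzx hzB

/-- if no component of the compact set `C` meets both `A` and `B`, then `C` splits -/
theorem sep {X : Type*} [TopologicalSpace X] [T2Space X] {C A B : Set X} (hC : IsCompact C)
    (hA : IsClosed A) (hB : IsClosed B) (hAC : A ⊆ C) (hBC : B ⊆ C)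
    (h : ∀ x ∈ A, ∀ y ∈ B, y ∉ connectedComponentIn C x) :
    ∃ P Q : Set X, IsClosed P ∧ IsClosed Q ∧ Disjoint P Q ∧ P ∪ Q = C ∧ A ⊆ P ∧ B ⊆ Q := by
  have : CompactSpace C := isCompact_iff_compactSpace.1 hC
  obtain ⟨P, hP, hAP, hPB⟩ := topo_sep (Y := C) (A := Subtype.val ⁻¹' A) (B := Subtype.val ⁻¹' B)
    (hA.preimage continuous_subtype_val) (hB.preimage continuous_subtype_val) (by
      intro x hx y hy hxy
      apply h x hx y hy
      rw [topo_comp_eq x.2]
      exact ⟨y, hxy, rfl⟩)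
  refine ⟨Subtype.val '' P, Subtype.val '' Pᶜ, ?_, ?_, ?_, ?_, ?_, ?_⟩
  · exact (hP.isClosed.isCompact.image continuous_subtype_val).isClosed
  · exact (hP.compl.isClosed.isCompact.image continuous_subtype_val).isClosed
  · rw [Set.disjoint_left]
    rintro z ⟨x, hx, rfl⟩ ⟨y, hy, hxy⟩
    exact hy (Subtype.val_injective hxy ▸ hx)
  · rw [← image_union, union_compl_self, image_univ, Subtype.range_val]
  · intro x hx
    exact ⟨⟨x, hAC hx⟩, hAP hx, rfl⟩
  · intro x hx
    exact ⟨⟨x, hBC hx⟩, fun hxP => Set.disjoint_left.1 hPB hxP hx, rfl⟩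

/-- components of compact sets are continua -/
theorem comp_compact {X : Type*} [TopologicalSpace X] [T2Space X] {C : Set X} (hC : IsCompact C)
    {x : X} (hx : x ∈ C) : IsCompact (connectedComponentIn C x) ∧
      IsConnected (connectedComponentIn C x) := by
  have : CompactSpace C := isCompact_iff_compactSpace.1 hC
  refine ⟨?_, isConnected_connectedComponentIn_iff.2 hx⟩
  rw [topo_comp_eq hx]
  exact isClosed_connectedComponent.isCompact.image continuous_subtype_val

/-- a connected set is not the disjoint union of two closed sets which both meet it -/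
theorem topo_split {X : Type*} [TopologicalSpace X] {C P Q : Set X} (hc : IsConnected C)
    (hP : IsClosed P) (hQ : IsClosed Q) (hPQ : C ⊆ P ∪ Q) (hd : Disjoint P Q)
    (h1 : (C ∩ P).Nonempty) (h2 : (C ∩ Q).Nonempty) : False := by
  obtain ⟨z, -, hzP, hzQ⟩ := isPreconnected_closed_iff.1 hc.isPreconnected P Q hP hQ hPQ h1 h2
  exact Set.disjoint_left.1 hd hzP hzQ

/-- boundary bumping: a component of `C \ U` meets the closure of the open set `U` -/
theorem bump {X : Type*} [TopologicalSpace X] [T2Space X] {C U : Set X} (hC : IsCompact C)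
    (hc : IsConnected C) (hU : IsOpen U) (hne : (C ∩ U).Nonempty) {x : X} (hx : x ∈ C \ U) :
    (connectedComponentIn (C \ U) x ∩ closure U).Nonempty := by
  by_contra hcon
  rw [not_nonempty_iff_eq_empty] at hcon
  have hCU : IsCompact (C \ U) := hC.diff hU
  obtain ⟨P, Q, hP, hQ, hd, hPQ, hAP, hBQ⟩ := sep (C := C \ U) (A := {x})
    (B := (C \ U) ∩ closure U) hCU isClosed_singleton (hCU.isClosed.inter isClosed_closure)
    (singleton_subset_iff.2 hx) inter_subset_left (by
      rintro z rfl y hy hzy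
      have : y ∈ connectedComponentIn (C \ U) z ∩ closure U := ⟨hzy, hy.2⟩
      rw [hcon] at this
      exact this)
  obtain ⟨u, huC, huU⟩ := hne
  refine topo_split (P := P) (Q := Q ∪ (C ∩ closure U)) hc hP
    (hQ.union (hC.isClosed.inter isClosed_closure)) ?_ ?_ ⟨x, hx.1, hAP rfl⟩
    ⟨u, huC, Or.inr ⟨huC, subset_closure huU⟩⟩
  · intro z hz
    by_cases hzU : z ∈ U
    · exact Or.inr (Or.inr ⟨hz, subset_closure hzU⟩)
    · have : z ∈ P ∪ Q := by
        rw [hPQ]
        exact ⟨hz, hzU⟩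
      rcases this with h1 | h1
      · exact Or.inl h1
      · exact Or.inr (Or.inl h1)
  · rw [Set.disjoint_left]
    rintro z hzP (hzQ | ⟨-, hzc⟩)
    · exact Set.disjoint_left.1 hd hzP hzQ
    · have h1 : z ∈ C \ U := hPQ ▸ Or.inl hzP
      exact Set.disjoint_left.1 hd hzP (hBQ ⟨h1, hzc⟩)

/-- a subcontinuum from `p` to the sphere of radius `r` -/
theorem reach {X : Type*} [MetricSpace X] {C : Set X} (hC : IsCompact C) (hc : IsConnected C)
    {p q : X} (hp : p ∈ C) (hq : q ∈ C) {r : ℝ} (hr : 0 < r) (hpq : r ≤ dist p q) :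
    ∃ R : Set X, R ⊆ C ∩ closedBall p r ∧ IsCompact R ∧ IsConnected R ∧ p ∈ R ∧
      ∃ z ∈ R, dist p z = r := by
  have hCr : IsCompact (C ∩ closedBall p r) := hC.inter_right isClosed_closedBall
  have hp' : p ∈ C ∩ closedBall p r := ⟨hp, mem_closedBall_self hr.le⟩
  obtain ⟨h1, h2⟩ := comp_compact hCr hp'
  refine ⟨connectedComponentIn (C ∩ closedBall p r) p, connectedComponentIn_subset _ _, h1, h2,
    mem_connectedComponentIn hp', ?_⟩
  by_contra hcon
  push Not at hcon
  obtain ⟨P, Q, hP, hQ, hd, hPQ, hAP, hBQ⟩ := sep (C := C ∩ closedBall p r) (A := {p})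
    (B := (C ∩ closedBall p r) ∩ {z | dist p z = r}) hCr isClosed_singleton
    (hCr.isClosed.inter (isClosed_eq (continuous_const.dist continuous_id) continuous_const))
    (singleton_subset_iff.2 hp') inter_subset_left (by
      rintro z rfl y hy hzy
      exact hcon y hzy hy.2)
  have hcl : IsClosed {z | r ≤ dist p z} :=
    isClosed_le continuous_const (continuous_const.dist continuous_id)
  refine topo_split (P := P) (Q := Q ∪ (C ∩ {z | r ≤ dist p z})) hc hP
    (hQ.union (hC.isClosed.inter hcl)) ?_ ?_ ⟨p, hp, hAP rfl⟩ ⟨q, hq, Or.inr ⟨hq, hpq⟩⟩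
  · intro z hz
    by_cases hzr : r ≤ dist p z
    · exact Or.inr (Or.inr ⟨hz, hzr⟩)
    · have : z ∈ P ∪ Q := by
        rw [hPQ]
        refine ⟨hz, ?_⟩
        rw [mem_closedBall, dist_comm]
        exact (not_le.1 hzr).le
      rcases this with h1 | h1
      · exact Or.inl h1
      · exact Or.inr (Or.inl h1)
  · rw [Set.disjoint_left]
    rintro z hzP (hzQ | ⟨-, hzc⟩)
    · exact Set.disjoint_left.1 hd hzP hzQ
    · have h3 : z ∈ C ∩ closedBall p r := hPQ ▸ Or.inl hzP
      have h4 : dist p z ≤ r := by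
        rw [dist_comm]
        exact h3.2
      exact Set.disjoint_left.1 hd hzP (hBQ ⟨h3, le_antisymm h4 hzc⟩)

end SP
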