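import Pool.Agent.H59.SP.Kkm
import Pool.Agent.H59.SP.Topo

/-!
# Module D: a component of the set of points in `k - 1` sets which meets all facets
-/

open Metric Set

namespace SP

theorem Comp_Sx_compact (k : ℕ) : IsCompact (Sx k) := by
  have hcl : IsClosed (Sx k) := by
    have h1 : Sx k = (⋂ i, {x : V k | 0 ≤ x i}) ∩ {x | ∑ i, x i = 1} := by
      ext x
      simp [Sx]
    rw [h1]
    refine IsClosed.inter (isClosed_iInter fun i => ?_) ?_
    · exact isClosed_le continuous_const (by fun_prop)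
    · exact isClosed_eq (by fun_prop) continuous_const
  refine Metric.isCompact_of_isClosed_isBounded hcl ?_
  refine (Metric.isBounded_iff_subset_closedBall (0 : V k)).2 ⟨1, fun x hx => ?_⟩
  obtain ⟨h0, h1⟩ := hx
  rw [mem_closedBall, dist_zero_right, EuclideanSpace.norm_eq]
  rw [Real.sqrt_le_one]
  calc ∑ i, ‖x i‖ ^ 2 ≤ ∑ i, x i := by
        refine Finset.sum_le_sum fun i _ => ?_
        have hi : x i ≤ 1 := by
          rw [← h1]
          exact Finset.single_le_sum (fun j _ => h0 j) (Finset.mem_univ i)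
        rw [Real.norm_eq_abs, sq_abs]
        nlinarith [h0 i]
    _ = 1 := h1

theorem meet_compact {k : ℕ} {A : Fin k → Set (V k)} (hA : Adm0 k A) (j : ℕ) (hj : 1 ≤ j) :
    IsCompact (meet k A j) ∧ meet k A j ⊆ Sx k := by
  have hsub : meet k A j ⊆ Sx k := by
    rintro x ⟨T, hT, hx⟩
    have hne : T.Nonempty := Finset.card_pos.1 (by omega)
    obtain ⟨i, hi⟩ := hne
    rw [← hA.cover]
    exact mem_iUnion.2 ⟨i, hx i hi⟩
  refine ⟨(Comp_Sx_compact k).of_isClosed_subset ?_ hsub, hsub⟩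
  have h1 : meet k A j = ⋃ T ∈ {T : Finset (Fin k) | j ≤ T.card}, ⋂ i ∈ T, A i := by
    ext x
    simp only [meet, mem_ofPred_eq, mem_iUnion, mem_iInter, exists_prop]
  rw [h1]
  refine (Set.toFinite _).isClosed_biUnion fun T _ => ?_
  exact isClosed_biInter fun i _ => hA.closed i

/-- Otherwise every component of `S = meet k A (k - 1)` misses a facet. Components of the compact
set `S` are intersections of clopen subsets, so `S` is a disjoint union of closed sets `P i` with
`x i > 0` on `P i` (`split_facets`). Take disjoint open neighbourhoods `W i ⊇ P i` with disjoint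
closures in the simplex, with `x i > 0` on the closure; apply `kkm` to
`(A i \ ⋃ l ≠ i, W l) ∪ closure (W i)`. -/
theorem split_facets {k : ℕ} {S : Set (V k)} (hS : IsCompact S)
    (h : ∀ x ∈ S, ∃ l, ∀ y ∈ connectedComponentIn S x, y l ≠ 0) :
    ∃ P : Fin k → Set (V k), (∀ i, IsClosed (P i)) ∧ (∀ i j, i ≠ j → Disjoint (P i) (P j)) ∧
      ⋃ i, P i = S ∧ ∀ i, ∀ x ∈ P i, x i ≠ 0 := by
  classical
  have : CompactSpace S := isCompact_iff_compactSpace.1 hS
  have key : ∀ x : S, ∃ l : Fin k, ∃ U : Set S, IsClopen U ∧ x ∈ U ∧ ∀ y ∈ U, (y : V k) l ≠ 0 := by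
    intro x
    obtain ⟨l, hl⟩ := h x x.2
    refine ⟨l, ?_⟩
    have hZ : IsClosed {y : S | (y : V k) l = 0} :=
      isClosed_eq (by fun_prop) continuous_const
    have hcomp : {y : S | (y : V k) l = 0} ∩ ⋂ s : { s : Set S // IsClopen s ∧ x ∈ s }, s.1 = ∅ := by
      rw [← connectedComponent_eq_iInter_isClopen]
      rw [Set.eq_empty_iff_forall_notMem]
      rintro y ⟨hy1, hy2⟩
      refine hl y ?_ hy1
      rw [connectedComponentIn_eq_image x.2]
      exact ⟨y, hy2, rfl⟩
    obtain ⟨t, ht⟩ := hZ.isCompact.elim_finite_subfamily_closed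
      (fun s : { s : Set S // IsClopen s ∧ x ∈ s } => s.1) (fun s => s.2.1.1) hcomp
    refine ⟨⋂ s ∈ t, s.1, isClopen_biInter_finset fun s _ => s.2.1, ?_, ?_⟩
    · exact mem_iInter₂.2 fun s _ => s.2.2
    · intro y hy hy0
      have : y ∈ {y : S | (y : V k) l = 0} ∩ ⋂ s ∈ t, s.1 := ⟨hy0, hy⟩
      rw [ht] at this
      exact this
  choose l U hU hxU hU0 using key
  obtain ⟨t, -, ht⟩ := isCompact_univ.elim_nhds_subcover U
    (fun x _ => (hU x).2.mem_nhds (hxU x))
  let C : Fin k → Set S := fun i => ⋃ x ∈ t.filter (fun x => l x = i), U x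
  have hC : ∀ i, IsClopen (C i) := fun i => isClopen_biUnion_finset fun x _ => hU x
  have hC0 : ∀ i, ∀ y ∈ C i, (y : V k) i ≠ 0 := by
    intro i y hy
    simp only [C, mem_iUnion, Finset.mem_filter, exists_prop] at hy
    obtain ⟨x, ⟨-, rfl⟩, hx⟩ := hy
    exact hU0 x y hx
  have hCu : ∀ y : S, ∃ i, y ∈ C i := by
    intro y
    have := ht (mem_univ y)
    simp only [mem_iUnion, exists_prop] at this
    obtain ⟨x, hx, hy⟩ := this
    refine ⟨l x, ?_⟩
    simp only [C, mem_iUnion, Finset.mem_filter, exists_prop]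
    exact ⟨x, ⟨hx, rfl⟩, hy⟩
  let Q : Fin k → Set S := fun i => C i \ ⋃ j ∈ Finset.univ.filter (fun j => j < i), C j
  have hQ : ∀ i, IsClopen (Q i) := fun i => (hC i).diff (isClopen_biUnion_finset fun j _ => hC j)
  have hQm : ∀ i y, y ∈ Q i ↔ y ∈ C i ∧ ∀ j < i, y ∉ C j := by
    intro i y
    simp only [Q, mem_sdiff, mem_iUnion, Finset.mem_filter, Finset.mem_univ, true_and, exists_prop,
      not_exists, not_and]
  refine ⟨fun i => (↑) '' Q i, ?_, ?_, ?_, ?_⟩
  · intro i
    exact hS.isClosed.isClosedEmbedding_subtypeVal.isClosedMap _ (hQ i).1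
  · have aux : ∀ i j, i < j → Disjoint ((↑) '' Q i : Set (V k)) ((↑) '' Q j) := by
      intro i j hij
      rw [Set.disjoint_left]
      rintro _ ⟨y, hy, rfl⟩ ⟨y', hy', hyy⟩
      have : y' = y := Subtype.ext hyy
      subst this
      exact ((hQm _ _).1 hy').2 i hij ((hQm _ _).1 hy).1
    intro i j hij
    rcases lt_or_gt_of_ne hij with h1 | h1
    · exact aux i j h1
    · exact (aux j i h1).symm
  · ext x
    constructor
    · intro hx
      obtain ⟨i, y, -, rfl⟩ := mem_iUnion.1 hx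
      exact y.2
    · intro hx
      obtain ⟨i, hi, hmin⟩ := WellFounded.has_min (wellFounded_lt (α := Fin k))
        {i | (⟨x, hx⟩ : S) ∈ C i} (hCu ⟨x, hx⟩)
      exact mem_iUnion.2 ⟨i, ⟨x, hx⟩, (hQm _ _).2 ⟨hi, fun j hj hj' => hmin j hj' hj⟩, rfl⟩
  · rintro i _ ⟨y, hy, rfl⟩
    exact hC0 i y ((hQm _ _).1 hy).1

theorem exists_comp {k : ℕ} (hk : 2 ≤ k) {A : Fin k → Set (V k)} (hA : Adm0 k A) :
    ∃ C ⊆ meet k A (k - 1), IsCompact C ∧ IsConnected C ∧ ∀ l, ∃ x ∈ C, x l = 0 := by
  classical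
  by_contra hcon
  obtain ⟨hS, hSs⟩ := meet_compact hA (k - 1) (by omega)
  have h : ∀ x ∈ meet k A (k - 1), ∃ l,
      ∀ y ∈ connectedComponentIn (meet k A (k - 1)) x, y l ≠ 0 := by
    intro x hx
    by_contra hl
    push Not at hl
    apply hcon
    refine ⟨connectedComponentIn (meet k A (k - 1)) x, connectedComponentIn_subset _ _, ?_,
      isConnected_connectedComponentIn_iff.2 hx, fun l => ?_⟩
    · have : CompactSpace (meet k A (k - 1)) := isCompact_iff_compactSpace.1 hS
      rw [connectedComponentIn_eq_image hx]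
      exact (isClosed_connectedComponent.isCompact).image continuous_subtype_val
    · exact hl l
  obtain ⟨P, hPc, hPd, hPu, hP0⟩ := split_facets hS h
  have hPS : ∀ i, P i ⊆ meet k A (k - 1) := fun i => by
    rw [← hPu]; exact subset_iUnion P i
  have hPk : ∀ i, IsCompact (P i) := fun i => hS.of_isClosed_subset (hPc i) (hPS i)
  obtain ⟨δ, hδ, hδ1, hδ2⟩ : ∃ δ : ℝ, 0 < δ ∧
      (∀ i j, i ≠ j → Disjoint (cthickening δ (P i)) (cthickening δ (P j))) ∧
      ∀ i, cthickening δ (P i) ⊆ {x : V k | x i ≠ 0} := by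
    have e1 : ∀ i j, ∀ᶠ δ : ℝ in nhdsWithin 0 (Ioi 0),
        i ≠ j → Disjoint (cthickening δ (P i)) (cthickening δ (P j)) := by
      intro i j
      by_cases hij : i = j
      · exact Filter.Eventually.of_forall fun δ h => absurd hij h
      · obtain ⟨d, hd, hdd⟩ := (hPd i j hij).exists_cthickenings (hPk i) (hPc j)
        filter_upwards [Ioo_mem_nhdsGT hd] with δ hδ _
        exact hdd.mono (cthickening_mono hδ.2.le _) (cthickening_mono hδ.2.le _)
    have e2 : ∀ i, ∀ᶠ δ : ℝ in nhdsWithin 0 (Ioi 0),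
        cthickening δ (P i) ⊆ {x : V k | x i ≠ 0} := by
      intro i
      have ho : IsOpen {x : V k | x i ≠ 0} := isOpen_ne_fun (by fun_prop) continuous_const
      obtain ⟨d, hd, hdd⟩ := (hPk i).exists_cthickening_subset_open ho (hP0 i)
      filter_upwards [Ioo_mem_nhdsGT hd] with δ hδ
      exact (cthickening_mono hδ.2.le _).trans hdd
    have e3 : ∀ᶠ δ : ℝ in nhdsWithin 0 (Ioi 0), 0 < δ := self_mem_nhdsWithin
    have e1' := Filter.eventually_all.2 fun i => Filter.eventually_all.2 (e1 i)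
    have e2' := Filter.eventually_all.2 e2
    obtain ⟨δ, h1, h2, h3⟩ := (e1'.and (e2'.and e3)).exists
    exact ⟨δ, h3, h1, h2⟩
  have hPW : ∀ i, P i ⊆ thickening δ (P i) := fun i => self_subset_thickening hδ _
  have hWc : ∀ i, thickening δ (P i) ⊆ cthickening δ (P i) := fun i =>
    thickening_subset_cthickening _ _
  obtain ⟨x, hx, hxA⟩ := kkm (k := k) (by omega)
    (fun i => (A i \ ⋃ l ∈ {l | l ≠ i}, thickening δ (P l)) ∪ cthickening δ (P i))
    (fun i => ((hA.closed i).sdiff (isOpen_biUnion fun l _ => isOpen_thickening)).union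
      isClosed_cthickening)
    (by
      intro x hx
      by_cases hW : ∃ l, x ∈ thickening δ (P l)
      · obtain ⟨l, hl⟩ := hW
        exact mem_iUnion.2 ⟨l, Or.inr (hWc l hl)⟩
      · push Not at hW
        rw [← hA.cover] at hx
        obtain ⟨i, hi⟩ := mem_iUnion.1 hx
        refine mem_iUnion.2 ⟨i, Or.inl ⟨hi, ?_⟩⟩
        simp only [mem_iUnion, exists_prop, not_exists, not_and]
        exact fun l _ => hW l)
    (by
      intro i x hx hxS
      rcases hx with hx | hx
      · exact hA.pos i x hx.1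
      · exact lt_of_le_of_ne (hxS.1 i) (Ne.symm (hδ2 i hx)))
  have hxA' : ∀ i, (x ∈ A i ∧ ∀ l, l ≠ i → x ∉ thickening δ (P l)) ∨ x ∈ cthickening δ (P i) := by
    intro i
    rcases hxA i with h | h
    · left
      refine ⟨h.1, fun l hl hx => h.2 ?_⟩
      simp only [mem_iUnion, exists_prop]
      exact ⟨l, hl, hx⟩
    · exact Or.inr h
  by_cases hW : ∃ l, x ∈ cthickening δ (P l)
  · obtain ⟨l, hl⟩ := hW
    have h1 : ∀ i, i ≠ l → x ∈ A i ∧ ∀ l, l ≠ i → x ∉ thickening δ (P l) := by
      intro i hi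
      rcases hxA' i with h | h
      · exact h
      · exact (Set.disjoint_left.1 (hδ1 i l hi) h hl).elim
    have hxS : x ∈ meet k A (k - 1) := by
      refine ⟨Finset.univ.erase l, ?_, fun i hi => (h1 i (Finset.ne_of_mem_erase hi)).1⟩
      rw [Finset.card_erase_of_mem (Finset.mem_univ l), Finset.card_univ, Fintype.card_fin]
    rw [← hPu] at hxS
    obtain ⟨j, hj⟩ := mem_iUnion.1 hxS
    have hjl : j = l := by
      by_contra hne
      exact Set.disjoint_left.1 (hδ1 j l hne) (hWc j (hPW j hj)) hl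
    subst hjl
    obtain ⟨i, hi⟩ : ∃ i : Fin k, i ≠ j := by
      have : Nontrivial (Fin k) := Fin.nontrivial_iff_two_le.2 hk
      exact exists_ne j
    exact (h1 i hi).2 j (Ne.symm hi) (hPW j hj)
  · push Not at hW
    have h1 : ∀ i, x ∈ A i ∧ ∀ l, l ≠ i → x ∉ thickening δ (P l) := by
      intro i
      rcases hxA' i with h | h
      · exact h
      · exact absurd h (hW i)
    have hxS : x ∈ meet k A (k - 1) := by
      refine ⟨Finset.univ, ?_, fun i _ => (h1 i).1⟩
      rw [Finset.card_univ, Fintype.card_fin]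
      omega
    rw [← hPu] at hxS
    obtain ⟨j, hj⟩ := mem_iUnion.1 hxS
    exact hW j (hWc j (hPW j hj))

end SP
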