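import Pool.Agent.H59.SP.Defs

/-!
# Module M: measures of neighbourhoods
-/

open MeasureTheory Metric Set Filter Module
open scoped Topology MeasureTheory RealInnerProductSpace

namespace SP

theorem al_pos (m : ℕ) : 0 < al m := by
  unfold al
  refine ENNReal.toReal_pos (ne_of_gt ?_) (ne_of_lt ?_)
  · exact Metric.measure_closedBall_pos _ _ one_pos
  · exact measure_closedBall_lt_top

namespace Mea

/-- closed balls in an inner product space of dimension `n` -/
theorem vol_closedBall {E : Type*} [NormedAddCommGroup E] [InnerProductSpace ℝ E]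
    [FiniteDimensional ℝ E] [MeasurableSpace E] [BorelSpace E] {n : ℕ} (hn : finrank ℝ E = n)
    (z : E) {ε : ℝ} (hε : 0 < ε) :
    volume (closedBall z ε) = ENNReal.ofReal (al n * ε ^ n) := by
  subst hn
  have h1 : volume (closedBall z ε)
      = volume (closedBall (0 : EuclideanSpace ℝ (Fin (finrank ℝ E))) ε) := by
    have hmp := (stdOrthonormalBasis ℝ E).measurePreserving_repr
    have := hmp.measure_preimage (s := closedBall ((stdOrthonormalBasis ℝ E).repr z) ε)
      measurableSet_closedBall.nullMeasurableSet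
    have h2 : (stdOrthonormalBasis ℝ E).repr ⁻¹' closedBall ((stdOrthonormalBasis ℝ E).repr z) ε
        = closedBall z ε := by
      ext x
      simp [mem_closedBall]
    rw [h2] at this
    rw [this]
    rw [Measure.addHaar_closedBall_center]
  rw [h1, Measure.addHaar_closedBall' _ _ hε.le]
  have h3 : volume (closedBall (0 : EuclideanSpace ℝ (Fin (finrank ℝ E))) 1)
      = ENNReal.ofReal (al (finrank ℝ E)) := by
    unfold al
    rw [ENNReal.ofReal_toReal measure_closedBall_lt_top.ne]
  rw [h3, ← ENNReal.ofReal_mul (by positivity), mul_comm]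
  simp

section Slice

variable {E : Type*} [NormedAddCommGroup E] [InnerProductSpace ℝ E]
    [FiniteDimensional ℝ E] [MeasurableSpace E] [BorelSpace E]

omit [FiniteDimensional ℝ E] [MeasurableSpace E] [BorelSpace E] in
theorem mem_mk' {v w y : E} : y ∈ (AffineSubspace.mk' w (ℝ ∙ v)ᗮ : Set E) ↔ ⟪v, y - w⟫ = 0 := by
  rw [SetLike.mem_coe, AffineSubspace.mem_mk', vsub_eq_sub,
    Submodule.mem_orthogonal_singleton_iff_inner_right]

/-- the measure of a ball in a hyperplane through its centre -/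
theorem slice_ball {n : ℕ} (hn : finrank ℝ E = n + 1) {v : E} (hv : v ≠ 0) (w z : E)
    (hz : ⟪v, z - w⟫ = 0) {ε : ℝ} (hε : 0 < ε) :
    μHE[n] (closedBall z ε ∩ AffineSubspace.mk' w (ℝ ∙ v)ᗮ) = ENNReal.ofReal (al n * ε ^ n) := by
  have hr : finrank ℝ (ℝ ∙ v)ᗮ = n := by
    have : Fact (finrank ℝ E = n + 1) := ⟨hn⟩
    exact Submodule.finrank_orthogonal_span_singleton hv
  let g : (ℝ ∙ v)ᗮ → E := fun x => (x : E) + z
  have hg : Isometry g := by
    intro x y
    simp only [g]
    rw [edist_add_right]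
    rfl
  have hrange : range g = (AffineSubspace.mk' w (ℝ ∙ v)ᗮ : Set E) := by
    ext y
    rw [mem_mk']
    constructor
    · rintro ⟨x, rfl⟩
      have hx := (Submodule.mem_orthogonal_singleton_iff_inner_right).1 x.2
      simp only [g]
      rw [add_sub_assoc, inner_add_right, hx, hz, add_zero]
    · intro hy
      refine ⟨⟨y - z, ?_⟩, by simp [g]⟩
      rw [Submodule.mem_orthogonal_singleton_iff_inner_right]
      have : y - z = (y - w) - (z - w) := by abel
      rw [this, inner_sub_right, hy, hz, sub_zero]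
  rw [← hrange, ← hg.euclideanHausdorffMeasure_preimage]
  have hpre : g ⁻¹' closedBall z ε = closedBall (0 : (ℝ ∙ v)ᗮ) ε := by
    ext x
    simp only [g, mem_preimage, mem_closedBall, dist_eq_norm]
    simp
  rw [hpre]
  have h4 : (μHE[n] : Measure (ℝ ∙ v)ᗮ) = volume := by
    have := InnerProductSpace.euclideanHausdorffMeasure_eq_volume (V := (ℝ ∙ v)ᗮ)
    rw [hr] at this
    exact this
  rw [h4]
  exact vol_closedBall hr 0 hε

/-- lower bound for the neighbourhood of a connected set -/
theorem lower {n : ℕ} (hn : finrank ℝ E = n + 1) {K : Set E} (hc : IsPreconnected K)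
    {p q : E} (hp : p ∈ K) (hq : q ∈ K) {ε : ℝ} (hε : 0 < ε) :
    ENNReal.ofReal (dist p q * (al n * ε ^ n)) ≤ volume (cthickening ε K) := by
  rcases eq_or_ne p q with rfl | hpq
  · simp
  set d := dist p q with hd
  have hd0 : 0 < d := dist_pos.2 hpq
  set v : E := q - p with hvdef
  have hv : v ≠ 0 := sub_ne_zero.2 hpq.symm
  have hvn : ‖v‖ = d := by rw [hd, dist_comm, dist_eq_norm]
  have hfor := EuclideanGeometry.euclideanHausdorffMeasure_eq_lintegral p hv
    (isClosed_cthickening (δ := ε) (E := K)).measurableSet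
  rw [InnerProductSpace.euclideanHausdorffMeasure_eq_volume] at hfor
  rw [hfor, hn, Nat.add_sub_cancel]
  have hnn : ‖v‖ₑ = ENNReal.ofReal d := by
    rw [← hvn, ofReal_norm]
  rw [hnn, ENNReal.ofReal_mul hd0.le]
  gcongr
  have hlow : ∀ x ∈ Icc (0 : ℝ) 1, ENNReal.ofReal (al n * ε ^ n) ≤
      μHE[n] (cthickening ε K ∩ AffineSubspace.mk' (x • v +ᵥ p) (ℝ ∙ v)ᗮ) := by
    intro x hx
    have hcont : ContinuousOn (fun z : E => ⟪v, z - p⟫) K := by fun_prop
    have hiv := hc.intermediate_value hp hq hcont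
    have hmem : x * ‖v‖ ^ 2 ∈ Icc (⟪v, p - p⟫) (⟪v, q - p⟫) := by
      rw [sub_self, inner_zero_right, ← hvdef, real_inner_self_eq_norm_sq]
      constructor
      · exact mul_nonneg hx.1 (sq_nonneg _)
      · nlinarith [hx.2, sq_nonneg ‖v‖]
    obtain ⟨z, hzK, hz⟩ := hiv hmem
    have hz' : ⟪v, z - (x • v +ᵥ p)⟫ = 0 := by
      have : z - (x • v +ᵥ p) = (z - p) - x • v := by
        rw [vadd_eq_add]; abel
      simp only at hz
      rw [this, inner_sub_right, hz, inner_smul_right, real_inner_self_eq_norm_sq]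
      ring
    rw [← slice_ball hn hv (x • v +ᵥ p) z hz' hε]
    apply measure_mono
    apply inter_subset_inter_left
    exact closedBall_subset_cthickening hzK ε
  calc ENNReal.ofReal (al n * ε ^ n)
      = ∫⁻ _ in Icc (0 : ℝ) 1, ENNReal.ofReal (al n * ε ^ n) := by
        simp
    _ ≤ ∫⁻ x in Icc (0 : ℝ) 1,
        μHE[n] (cthickening ε K ∩ AffineSubspace.mk' (x • v +ᵥ p) (ℝ ∙ v)ᗮ) :=
        setLIntegral_mono' measurableSet_Icc hlow
    _ ≤ _ := setLIntegral_le_lintegral _ _

/-- upper bound for the neighbourhood of a segment -/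
theorem upper {n : ℕ} (hn : finrank ℝ E = n + 1) (p q : E) {ε : ℝ} (hε : 0 < ε) :
    volume (cthickening ε (segment ℝ p q)) ≤
      ENNReal.ofReal ((dist p q + 2 * ε) * (al n * ε ^ n)) := by
  have : Nontrivial E := by
    apply Module.nontrivial_of_finrank_pos (R := ℝ)
    omega
  obtain ⟨v, hv1, hpv⟩ : ∃ v : E, ‖v‖ = 1 ∧ q = p + dist p q • v := by
    rcases eq_or_ne p q with rfl | hpq
    · obtain ⟨v, hv⟩ := exists_norm_eq E (c := 1) zero_le_one
      exact ⟨v, hv, by simp⟩
    · have hd0 : 0 < dist p q := dist_pos.2 hpq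
      refine ⟨(dist p q)⁻¹ • (q - p), ?_, ?_⟩
      · rw [norm_smul, norm_inv, Real.norm_of_nonneg hd0.le, dist_comm, dist_eq_norm]
        rw [dist_comm, dist_eq_norm] at hd0
        exact inv_mul_cancel₀ hd0.ne'
      · rw [smul_smul, mul_inv_cancel₀ hd0.ne', one_smul]; abel
  set d := dist p q with hd
  have hd0 : 0 ≤ d := dist_nonneg
  have hv : v ≠ 0 := by
    intro h
    rw [h, norm_zero] at hv1
    exact zero_ne_one hv1
  have hcomp : IsCompact (segment ℝ p q) := by
    rw [segment_eq_image_lineMap]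
    exact isCompact_Icc.image (by fun_prop)
  have hfor := EuclideanGeometry.euclideanHausdorffMeasure_eq_lintegral p hv
    (isClosed_cthickening (δ := ε) (E := segment ℝ p q)).measurableSet
  rw [InnerProductSpace.euclideanHausdorffMeasure_eq_volume] at hfor
  rw [hfor, hn, Nat.add_sub_cancel]
  have hnn : ‖v‖ₑ = 1 := by
    rw [← ofReal_norm, hv1, ENNReal.ofReal_one]
  rw [hnn, one_mul]
  have hkey : ∀ x : ℝ, μHE[n] (cthickening ε (segment ℝ p q) ∩
      AffineSubspace.mk' (x • v +ᵥ p) (ℝ ∙ v)ᗮ) ≤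
      (Icc (-ε) (d + ε)).indicator (fun _ => ENNReal.ofReal (al n * ε ^ n)) x := by
    intro x
    have hpt : ∀ y ∈ cthickening ε (segment ℝ p q) ∩
        (AffineSubspace.mk' (x • v +ᵥ p) (ℝ ∙ v)ᗮ : Set E),
        x ∈ Icc (-ε) (d + ε) ∧ y ∈ closedBall (x • v +ᵥ p) ε := by
      rintro y ⟨hy, hyp⟩
      rw [mem_mk'] at hyp
      rw [hcomp.cthickening_eq_biUnion_closedBall hε.le] at hy
      simp only [mem_iUnion, exists_prop] at hy
      obtain ⟨z, hz, hyz⟩ := hy
      rw [segment_eq_image_lineMap] at hz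
      obtain ⟨t, ht, rfl⟩ := hz
      have hz' : AffineMap.lineMap p q t = p + (t * d) • v := by
        rw [AffineMap.lineMap_apply, hpv]
        simp only [vsub_eq_sub, vadd_eq_add, add_sub_cancel_left, smul_smul]
        abel
      rw [hz', mem_closedBall, dist_eq_norm] at hyz
      have hdec : y - (p + (t * d) • v) = (y - (x • v +ᵥ p)) + (x - t * d) • v := by
        rw [vadd_eq_add, sub_smul]; abel
      have hsq : ‖y - (p + (t * d) • v)‖ ^ 2 = ‖y - (x • v +ᵥ p)‖ ^ 2 + (x - t * d) ^ 2 := by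
        rw [hdec, @norm_add_sq_real, inner_smul_right, real_inner_comm, hyp, norm_smul, hv1,
          Real.norm_eq_abs]
        simp
      have hle : ‖y - (p + (t * d) • v)‖ ^ 2 ≤ ε ^ 2 := by
        gcongr
      have ht0 : 0 ≤ t * d := mul_nonneg ht.1 hd0
      have ht1 : t * d ≤ d := by nlinarith [ht.2]
      have h5 : (x - t * d) ^ 2 ≤ ε ^ 2 := by
        nlinarith [sq_nonneg ‖y - (x • v +ᵥ p)‖]
      have h6 := abs_le_of_sq_le_sq' h5 hε.le
      refine ⟨⟨by linarith [h6.1], by linarith [h6.2]⟩, ?_⟩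
      rw [mem_closedBall, dist_eq_norm]
      refine abs_le_of_sq_le_sq ?_ hε.le |>.trans' (le_abs_self _)
      nlinarith [sq_nonneg (x - t * d)]
    by_cases hx : x ∈ Icc (-ε) (d + ε)
    · rw [indicator_of_mem hx]
      rw [← slice_ball hn hv (x • v +ᵥ p) (x • v +ᵥ p) (by simp) hε]
      apply measure_mono
      intro y hy
      exact ⟨(hpt y hy).2, hy.2⟩
    · rw [indicator_of_notMem hx]
      have : cthickening ε (segment ℝ p q) ∩
        (AffineSubspace.mk' (x • v +ᵥ p) (ℝ ∙ v)ᗮ : Set E) = ∅ := by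
        ext y
        simp only [mem_empty_iff_false, iff_false]
        intro hy
        exact hx (hpt y hy).1
      rw [this, measure_empty]
  calc ∫⁻ x : ℝ, μHE[n] (cthickening ε (segment ℝ p q) ∩
      AffineSubspace.mk' (x • v +ᵥ p) (ℝ ∙ v)ᗮ)
      ≤ ∫⁻ x : ℝ, (Icc (-ε) (d + ε)).indicator (fun _ => ENNReal.ofReal (al n * ε ^ n)) x :=
        lintegral_mono hkey
    _ = ENNReal.ofReal (al n * ε ^ n) * volume (Icc (-ε) (d + ε)) := by
        rw [lintegral_indicator measurableSet_Icc, setLIntegral_const]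
    _ = _ := by
        rw [Real.volume_Icc, ← ENNReal.ofReal_mul (by have := al_pos n; positivity)]
        congr 1
        ring

end Slice

section Transfer

/-- the vector of ones -/
noncomputable def one (k : ℕ) : V k := WithLp.toLp 2 (fun _ => 1)

/-- the direction of the affine hull -/
noncomputable abbrev E0 (k : ℕ) : Submodule ℝ (V k) := (ℝ ∙ one k)ᗮ

theorem mem_E0 {k : ℕ} {x : V k} : x ∈ E0 k ↔ ∑ i, x i = 0 := by
  rw [Submodule.mem_orthogonal_singleton_iff_inner_right]
  simp [one, PiLp.inner_apply]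

theorem one_ne {k : ℕ} (hk : 2 ≤ k) : one k ≠ 0 := by
  intro h
  have := congrArg (fun x : V k => x ⟨0, by omega⟩) h
  simp [one] at this

theorem finrank_E0 {k : ℕ} (hk : 2 ≤ k) : finrank ℝ (E0 k) = (k - 2) + 1 := by
  have : Fact (finrank ℝ (V k) = (k - 2) + 1 + 1) := ⟨by
    rw [finrank_euclideanSpace_fin]; omega⟩
  exact Submodule.finrank_orthogonal_span_singleton (one_ne hk)

/-- the isometry onto the affine hull -/
noncomputable def io {k : ℕ} (p : V k) : E0 k → V k := fun x => (x : V k) + p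

theorem io_isometry {k : ℕ} (p : V k) : Isometry (io p) := by
  intro x y
  simp only [io]
  rw [edist_add_right]
  rfl

theorem range_io {k : ℕ} {p : V k} (hp : p ∈ Hp k) : range (io p) = Hp k := by
  ext y
  constructor
  · rintro ⟨x, rfl⟩
    have hx := mem_E0.1 x.2
    simp only [io, Hp, mem_ofPred_eq] at hp ⊢
    simp [Finset.sum_add_distrib, hx, hp]
  · intro hy
    refine ⟨⟨y - p, ?_⟩, by simp [io]⟩
    rw [mem_E0]
    simp only [Hp, mem_ofPred_eq] at hp hy
    simp [hp, hy]

theorem mu_eq {k : ℕ} (hk : 2 ≤ k) {p : V k} (hp : p ∈ Hp k) (B : Set (V k)) :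
    μHE[k - 1] (B ∩ Hp k) = volume (io p ⁻¹' B) := by
  rw [← range_io hp, ← (io_isometry p).euclideanHausdorffMeasure_preimage]
  have h := InnerProductSpace.euclideanHausdorffMeasure_eq_volume (V := E0 k)
  have h2 : finrank ℝ (E0 k) = k - 1 := by rw [finrank_E0 hk]; omega
  rw [h2] at h
  rw [h]

theorem pre_cthick {k : ℕ} {p : V k} (hp : p ∈ Hp k) {A : Set (V k)} (hA : A ⊆ Hp k) (ε : ℝ) :
    io p ⁻¹' cthickening ε A = cthickening ε (io p ⁻¹' A) := by
  ext x
  rw [mem_preimage, mem_cthickening_iff, mem_cthickening_iff]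
  have h1 : io p '' (io p ⁻¹' A) = A := by
    rw [image_preimage_eq_iff, range_io hp]
    exact hA
  conv_lhs => rw [← h1]
  rw [infEDist_image (io_isometry p)]

end Transfer

end Mea

open Mea

/-- the neighbourhood of a bounded set has finite measure -/
theorem mu_fin {k : ℕ} (hk : 2 ≤ k) {A : Set (V k)} (hA : Bornology.IsBounded A) (ε : ℝ) :
    μHE[k - 1] (cthickening ε A ∩ Hp k) < ⊤ := by
  have hp : (EuclideanSpace.single ⟨0, by omega⟩ (1 : ℝ) : V k) ∈ Hp k := by
    simp [Hp]
  rw [mu_eq hk hp]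
  apply Bornology.IsBounded.measure_lt_top
  exact (io_isometry _).antilipschitz.isBounded_preimage hA.cthickening

/-- slices perpendicular to `q - p` contain balls of radius `ε`
(`EuclideanGeometry.euclideanHausdorffMeasure_eq_lintegral`) -/
theorem mu_lower {k : ℕ} (hk : 2 ≤ k) {K : Set (V k)} (hK : K ⊆ Hp k) (hc : IsConnected K)
    {p q : V k} (hp : p ∈ K) (hq : q ∈ K) {ε : ℝ} (hε : 0 < ε) :
    ENNReal.ofReal (dist p q * (al (k - 2) * ε ^ (k - 2))) ≤
      μHE[k - 1] (cthickening ε K ∩ Hp k) := by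
  rw [mu_eq hk (hK hp), pre_cthick (hK hp) hK]
  have himg : io p '' (io p ⁻¹' K) = K := by
    rw [image_preimage_eq_iff, range_io (hK hp)]
    exact hK
  obtain ⟨p', hp'⟩ : p ∈ range (io p) := by rw [range_io (hK hp)]; exact hK hp
  obtain ⟨q', hq'⟩ : q ∈ range (io p) := by rw [range_io (hK hp)]; exact hK hq
  have hd : dist p q = dist p' q' := by
    rw [← (io_isometry p).dist_eq, hp', hq']
  rw [hd]
  refine lower (finrank_E0 hk) ?_ ?_ ?_ hε
  · rw [← (io_isometry p).isEmbedding.isInducing.isPreconnected_image, himg]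
    exact hc.isPreconnected
  · rw [mem_preimage, hp']; exact hp
  · rw [mem_preimage, hq']; exact hq

/-- the neighbourhood of a segment lies in a cylinder -/
theorem mu_upper {k : ℕ} (hk : 2 ≤ k) {p q : V k} (hp : p ∈ Hp k) (hq : q ∈ Hp k) {ε : ℝ}
    (hε : 0 < ε) :
    μHE[k - 1] (cthickening ε (segment ℝ p q) ∩ Hp k) ≤
      ENNReal.ofReal ((dist p q + 2 * ε) * (al (k - 2) * ε ^ (k - 2))) := by
  have hseg : segment ℝ p q ⊆ Hp k := by
    rw [segment_eq_image]
    rintro _ ⟨t, _, rfl⟩
    simp only [Hp, mem_ofPred_eq] at hp hq ⊢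
    simp only [PiLp.add_apply, PiLp.smul_apply, smul_eq_mul, Finset.sum_add_distrib,
      ← Finset.mul_sum, hp, hq]
    ring
  rw [mu_eq hk hp, pre_cthick hp hseg]
  obtain ⟨p', hp'⟩ : p ∈ range (io p) := by rw [range_io hp]; exact hp
  obtain ⟨q', hq'⟩ : q ∈ range (io p) := by rw [range_io hp]; exact hq
  have hd : dist p q = dist p' q' := by
    rw [← (io_isometry p).dist_eq, hp', hq']
  rw [hd]
  have hpre : io p ⁻¹' segment ℝ p q = segment ℝ p' q' := by
    ext x
    rw [mem_preimage, segment_eq_image, segment_eq_image]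
    simp only [mem_image]
    refine exists_congr fun t => and_congr_right fun _ => ?_
    rw [← (io_isometry p).injective.eq_iff (b := x)]
    have : (1 - t) • p + t • q = io p ((1 - t) • p' + t • q') := by
      conv_lhs => rw [← hq']
      have hp2 : (p' : V k) + p = p := hp'
      have hp3 : (p' : V k) = 0 := by simpa using hp2
      simp only [io, Submodule.coe_add, Submodule.coe_smul, hp3]
      module
    rw [this]
  rw [hpre]
  exact upper (finrank_E0 hk) p' q' hε

end SP
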