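import Pool.Agent.H59.SP.ContA

/-!
# Module L, second part: the content of a finite union of segments
-/

open MeasureTheory Metric Set Filter
open scoped Topology MeasureTheory

namespace SP

theorem cb_seg_compact {k : ℕ} (p q : V k) : IsCompact (segment ℝ p q) := by
  rw [segment_eq_image_lineMap]
  exact isCompact_Icc.image (by fun_prop)

theorem cb_hp_conv (k : ℕ) : Convex ℝ (Hp k) := by
  intro x hx y hy a b _ _ hab
  change ∑ i, (a • x + b • y) i = 1
  have hx' : ∑ i, x i = 1 := hx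
  have hy' : ∑ i, y i = 1 := hy
  simp only [PiLp.add_apply, PiLp.smul_apply, smul_eq_mul, Finset.sum_add_distrib,
    ← Finset.mul_sum, hx', hy', mul_one, hab]

theorem cb_upper {k : ℕ} (hk : 2 ≤ k) {ι : Type} [Fintype ι] (p q : ι → V k)
    (hp : ∀ a, p a ∈ Hp k) (hq : ∀ a, q a ∈ Hp k) {ε : ℝ} (hε : 0 < ε) :
    (μHE[k - 1] (cthickening ε (⋃ a, segment ℝ (p a) (q a)) ∩ Hp k)).toReal ≤
      (∑ a, (dist (p a) (q a) + 2 * ε)) * (al (k - 2) * ε ^ (k - 2)) := by
  classical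
  have hc : 0 ≤ al (k - 2) * ε ^ (k - 2) := mul_nonneg (al_pos _).le (pow_nonneg hε.le _)
  have hcomp : IsCompact (⋃ a, segment ℝ (p a) (q a)) :=
    isCompact_iUnion fun a => cb_seg_compact _ _
  refine ENNReal.toReal_le_of_le_ofReal (mul_nonneg (Finset.sum_nonneg fun a _ => by positivity)
    hc) ?_
  rw [Finset.sum_mul, ENNReal.ofReal_sum_of_nonneg (fun a _ => mul_nonneg (by positivity) hc)]
  calc μHE[k - 1] (cthickening ε (⋃ a, segment ℝ (p a) (q a)) ∩ Hp k)
      ≤ μHE[k - 1] (⋃ a, (cthickening ε (segment ℝ (p a) (q a)) ∩ Hp k)) := by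
        refine measure_mono ?_
        rintro x ⟨hx, hxH⟩
        rw [hcomp.cthickening_eq_biUnion_closedBall hε.le] at hx
        simp only [mem_iUnion, exists_prop] at hx
        obtain ⟨y, ⟨a, hya⟩, hxy⟩ := hx
        exact mem_iUnion.2 ⟨a, mem_cthickening_of_dist_le x y ε _ hya hxy, hxH⟩
    _ ≤ ∑ a, μHE[k - 1] (cthickening ε (segment ℝ (p a) (q a)) ∩ Hp k) :=
        measure_iUnion_fintype_le _ _
    _ ≤ ∑ a, ENNReal.ofReal ((dist (p a) (q a) + 2 * ε) * (al (k - 2) * ε ^ (k - 2))) :=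
        Finset.sum_le_sum fun a _ => mu_upper hk (hp a) (hq a) hε

/-- the middle part of the segment -/
def cb_mid {k : ℕ} (p q : V k) (t : ℝ) : Set (V k) :=
  (fun s : ℝ => AffineMap.lineMap p q s) '' Icc t (1 - t)

theorem cb_mid_compact {k : ℕ} (p q : V k) (t : ℝ) : IsCompact (cb_mid p q t) :=
  isCompact_Icc.image (by fun_prop)

theorem cb_mid_conn {k : ℕ} (p q : V k) {t : ℝ} (ht : t < 1 / 2) : IsConnected (cb_mid p q t) :=
  (isConnected_Icc (by linarith)).image _ (by fun_prop)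

theorem cb_mid_sub {k : ℕ} (p q : V k) {t : ℝ} (ht : 0 < t) :
    cb_mid p q t ⊆ segment ℝ p q := by
  rw [segment_eq_image_lineMap]
  exact image_mono (Icc_subset_Icc ht.le (by linarith))

theorem cb_mid_diam {k : ℕ} (p q : V k) {t : ℝ} (ht : t < 1 / 2) :
    (1 - 2 * t) * dist p q ≤ diam (cb_mid p q t) := by
  have h1 : AffineMap.lineMap p q t ∈ cb_mid p q t := ⟨t, ⟨le_rfl, by linarith⟩, rfl⟩
  have h2 : AffineMap.lineMap p q (1 - t) ∈ cb_mid p q t := ⟨1 - t, ⟨by linarith, le_rfl⟩, rfl⟩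
  have h3 := dist_le_diam_of_mem (cb_mid_compact p q t).isBounded h2 h1
  rw [dist_lineMap_lineMap, Real.dist_eq, abs_of_pos (by linarith)] at h3
  calc (1 - 2 * t) * dist p q = (1 - t - t) * dist p q := by ring
    _ ≤ _ := h3

theorem cb_mid_notmem {k : ℕ} {p q : V k} (hne : p ≠ q) {t : ℝ} (ht : 0 < t) {x : V k}
    (hx : x ∈ cb_mid p q t) : x ≠ p ∧ x ≠ q := by
  obtain ⟨s, hs, rfl⟩ := hx
  constructor
  · intro h
    have h' : AffineMap.lineMap p q s = AffineMap.lineMap p q (0:ℝ) := by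
      simpa using h
    have := AffineMap.lineMap_injective ℝ hne h'
    linarith [hs.1]
  · intro h
    have h' : AffineMap.lineMap p q s = AffineMap.lineMap p q (1:ℝ) := by
      simpa using h
    have := AffineMap.lineMap_injective ℝ hne h'
    linarith [hs.2]

theorem cb_lower {k : ℕ} (hk : 2 ≤ k) {ι : Type} [Fintype ι] (p q : ι → V k)
    (hp : ∀ a, p a ∈ Hp k) (hq : ∀ a, q a ∈ Hp k)
    (h : ∀ a b, a ≠ b → segment ℝ (p a) (q a) ∩ segment ℝ (p b) (q b) ⊆ {p a, q a})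
    {t : ℝ} (ht : 0 < t) (ht2 : t < 1 / 2) :
    ∀ᶠ ε in 𝓝[>] (0:ℝ), ((1 - 2 * t) * ∑ a, dist (p a) (q a)) * (al (k - 2) * ε ^ (k - 2)) ≤
      (μHE[k - 1] (cthickening ε (⋃ a, segment ℝ (p a) (q a)) ∩ Hp k)).toReal := by
  classical
  set I : Finset ι := Finset.univ.filter fun a => p a ≠ q a with hI
  set F : Finset (Set (V k)) := I.image fun a => cb_mid (p a) (q a) t with hF
  have hdisj : ∀ a ∈ I, ∀ b ∈ I, a ≠ b →
      Disjoint (cb_mid (p a) (q a) t) (cb_mid (p b) (q b) t) := by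
    intro a ha b hb hab
    rw [Set.disjoint_left]
    intro x hxa hxb
    have hx := h a b hab ⟨cb_mid_sub _ _ ht hxa, cb_mid_sub _ _ ht hxb⟩
    have hne : p a ≠ q a := (Finset.mem_filter.1 ha).2
    obtain ⟨n1, n2⟩ := cb_mid_notmem hne ht hxa
    rcases hx with hx | hx
    · exact n1 hx
    · exact n2 hx
  have hinj : ∀ a ∈ I, ∀ b ∈ I, cb_mid (p a) (q a) t = cb_mid (p b) (q b) t → a = b := by
    intro a ha b hb hab
    by_contra hne
    have hd := hdisj a ha b hb hne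
    rw [← hab, disjoint_self] at hd
    exact (cb_mid_conn (p a) (q a) ht2).nonempty.ne_empty hd
  have hb : Bornology.IsBounded (⋃ a, segment ℝ (p a) (q a)) :=
    (isCompact_iUnion fun a => cb_seg_compact _ _).isBounded
  have hA : (⋃ a, segment ℝ (p a) (q a)) ⊆ Hp k :=
    iUnion_subset fun a => (cb_hp_conv k).segment_subset (hp a) (hq a)
  have hlow := pack_low hk hA hb F
    (by
      intro K hK
      obtain ⟨a, _, rfl⟩ := Finset.mem_image.1 hK
      exact ⟨cb_mid_compact _ _ _, cb_mid_conn _ _ ht2,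
        (cb_mid_sub _ _ ht).trans (subset_iUnion (fun a => segment ℝ (p a) (q a)) a)⟩)
    (by
      intro K hK K2 hK2 hne
      obtain ⟨a, ha, rfl⟩ := Finset.mem_image.1 hK
      obtain ⟨b, hb, rfl⟩ := Finset.mem_image.1 hK2
      refine hdisj a ha b hb ?_
      rintro rfl
      exact hne rfl)
  have hsum : (1 - 2 * t) * ∑ a, dist (p a) (q a) ≤ ∑ K ∈ F, diam K := by
    rw [hF, Finset.sum_image hinj, Finset.mul_sum]
    have e : ∑ a, (1 - 2 * t) * dist (p a) (q a) = ∑ a ∈ I, (1 - 2 * t) * dist (p a) (q a) := by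
      symm
      refine Finset.sum_subset (Finset.subset_univ _) fun a _ ha => ?_
      have : p a = q a := by
        by_contra hne
        exact ha (Finset.mem_filter.2 ⟨Finset.mem_univ _, hne⟩)
      rw [this, dist_self, mul_zero]
    rw [e]
    exact Finset.sum_le_sum fun a _ => cb_mid_diam _ _ ht2
  have hpos : ∀ᶠ δ : ℝ in 𝓝[>] 0, 0 < δ := eventually_mem_nhdsWithin
  filter_upwards [hlow, hpos] with ε h1 hε
  refine le_trans (mul_le_mul_of_nonneg_right hsum ?_) h1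
  exact mul_nonneg (al_pos _).le (pow_nonneg hε.le _)

/-- the content of a finite union of segments which meet only in end points -/
theorem content_segments {k : ℕ} (hk : 2 ≤ k) {ι : Type} [Fintype ι] (p q : ι → V k)
    (hp : ∀ a, p a ∈ Hp k) (hq : ∀ a, q a ∈ Hp k)
    (h : ∀ a b, a ≠ b → segment ℝ (p a) (q a) ∩ segment ℝ (p b) (q b) ⊆ {p a, q a}) :
    HasContent k 1 (⋃ a, segment ℝ (p a) (q a)) (∑ a, dist (p a) (q a)) := by
  classical
  have hk2 : k - 1 - 1 = k - 2 := by omega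
  unfold HasContent
  rw [hk2]
  set D : ℝ := ∑ a, dist (p a) (q a) with hD
  have hD0 : 0 ≤ D := Finset.sum_nonneg fun a _ => dist_nonneg
  have hpos : ∀ᶠ δ : ℝ in 𝓝[>] 0, 0 < δ := eventually_mem_nhdsWithin
  rw [tendsto_order]
  constructor
  · intro a ha
    obtain ⟨t, ht0, ht2, hta⟩ : ∃ t : ℝ, 0 < t ∧ t < 1 / 2 ∧ a < (1 - 2 * t) * D := by
      have hc : Tendsto (fun t : ℝ => (1 - 2 * t) * D) (𝓝[>] 0) (𝓝 ((1 - 2 * 0) * D)) := by
        refine (Continuous.tendsto ?_ 0).mono_left nhdsWithin_le_nhds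
        fun_prop
      have e1 : ∀ᶠ t : ℝ in 𝓝[>] 0, a < (1 - 2 * t) * D := by
        refine hc.eventually_const_lt ?_
        simpa using ha
      have e2 : ∀ᶠ t : ℝ in 𝓝[>] 0, t < 1 / 2 := by
        have : Ioc (0:ℝ) (1/4) ∈ 𝓝[>] (0:ℝ) := Ioc_mem_nhdsGT (by norm_num)
        filter_upwards [this] with t ht
        linarith [ht.2]
      obtain ⟨t, h1, h2, h3⟩ := (hpos.and (e2.and e1)).exists
      exact ⟨t, h1, h2, h3⟩
    filter_upwards [cb_lower hk p q hp hq h ht0 ht2, hpos] with ε h1 hε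
    refine lt_of_lt_of_le hta ?_
    rw [le_div_iff₀ (mul_pos (al_pos _) (pow_pos hε _))]
    exact h1
  · intro b hb
    have hc : Tendsto (fun ε : ℝ => ∑ a, (dist (p a) (q a) + 2 * ε)) (𝓝[>] 0)
        (𝓝 (∑ a, (dist (p a) (q a) + 2 * 0))) := by
      refine (Continuous.tendsto ?_ 0).mono_left nhdsWithin_le_nhds
      fun_prop
    have e1 : ∀ᶠ ε : ℝ in 𝓝[>] 0, ∑ a, (dist (p a) (q a) + 2 * ε) < b := by
      refine hc.eventually_lt_const ?_
      simpa using hb
    filter_upwards [e1, hpos] with ε h1 hε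
    refine lt_of_le_of_lt ?_ h1
    rw [div_le_iff₀ (mul_pos (al_pos _) (pow_pos hε _))]
    exact cb_upper hk p q hp hq hε

end SP
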