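import Pool.Agent.H59.SP.ContA
import Pool.Agent.H59.SP.ContB

/-!
# Module L: Minkowski content and disjoint continua
The statements `pack_of_content` and `content_segments` are in `ContA` and `ContB`.
-/
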