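import Pool.Agent.H59.SP.ContLow
import Pool.Agent.H59.SP.Cont
import Pool.Agent.H59.SP.Comp
import Pool.Agent.H59.SP.ExAdm
import Pool.Agent.H59.SP.ExMeet
import Pool.Agent.H59.SP.ExSeg

/-!
# The final theorem
-/

open MeasureTheory Metric Set Filter
open scoped Topology MeasureTheory

namespace SP

/-- the lower bound, for all closed covers with `x i > 0` on the `i`-th set -/
theorem lower {k : ℕ} (hk : 4 ≤ k) {A : Fin k → Set (V k)} (hA : Adm0 k A) {L : ℝ}
    (hL : HasContent k 1 (meet k A (k - 1)) L) : wd k ≤ L := by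
  obtain ⟨C, hC, h1, h2, h3⟩ := exists_comp (by omega) hA
  obtain ⟨h4, h5⟩ := meet_compact hA (k - 1) (by omega)
  have h6 : meet k A (k - 1) ⊆ Hp k := fun x hx => (h5 hx).2
  have hp := pack_of_content (by omega) h6 h4.isBounded hL
  exact cont_ge (by omega) h1 h2 (hC.trans h6) h3 fun F hF hd =>
    hp F (fun K hK => ⟨(hF K hK).1, (hF K hK).2.1, (hF K hK).2.2.trans hC⟩) hd

theorem main {k : ℕ} (hk : 4 ≤ k) :
    IsGLB {L : ℝ | ∃ A : Fin k → Set (V k), Adm k A ∧ HasContent k 1 (meet k A (k - 1)) L}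
      (wd k) ∧
    ∀ A : Fin k → Set (V k), Adm0 k A → ∀ L : ℝ, HasContent k 1 (meet k A (k - 1)) L →
      wd k ≤ L := by
  refine ⟨⟨?_, ?_⟩, fun A hA L hL => lower hk hA hL⟩
  · rintro L ⟨A, hA, hL⟩
    exact lower hk hA.toAdm0 hL
  · intro w hw
    refine ge_of_tendsto (ex_len hk) ?_
    have h1 : ∀ᶠ δ : ℝ in 𝓝[>] 0, 0 < δ ∧ δ < 1 / 2 := by
      filter_upwards [self_mem_nhdsWithin,
        mem_nhdsWithin_of_mem_nhds (Iio_mem_nhds (show (0 : ℝ) < 1 / 2 by norm_num))] with δ h h'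
      exact ⟨h, h'⟩
    filter_upwards [h1] with δ hδ
    refine hw ⟨exA k δ, ex_adm hk hδ.1 hδ.2, ?_⟩
    rw [ex_meet hk hδ.1 hδ.2]
    exact content_segments (by omega) _ _ (fun a => (ex_mem hk δ a).1)
      (fun a => (ex_mem hk δ a).2) (ex_disj hk hδ.1 hδ.2)

end SP
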