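import Mathlib

/-!
# Module K1: Brouwer's fixed point theorem
-/

open MeasureTheory Metric Set
open scoped Topology ContDiff

namespace SP

/-- the value at one of the determinant along a pencil, by interpolation -/
theorem brou_interp {n : ℕ} (s : Finset ℕ) (v : ℕ → ℝ) (hv : Set.InjOn v s) (hs : n < s.card)
    (A : EuclideanSpace ℝ (Fin n) →L[ℝ] EuclideanSpace ℝ (Fin n)) (t : ℝ) :
    (ContinuousLinearMap.id ℝ _ + t • A).det
      = ∑ j ∈ s, (Lagrange.basis s v j).eval t *
          (ContinuousLinearMap.id ℝ (EuclideanSpace ℝ (Fin n)) + v j • A).det := by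
  classical
  set b := (EuclideanSpace.basisFun (Fin n) ℝ).toBasis with hb
  set M : Matrix (Fin n) (Fin n) ℝ := LinearMap.toMatrix b b (A : _ →ₗ[ℝ] _) with hM
  set p : Polynomial ℝ :=
    Matrix.det ((Polynomial.X : Polynomial ℝ) • M.map Polynomial.C
      + (1 : Matrix (Fin n) (Fin n) ℝ).map Polynomial.C) with hp
  have hev : ∀ t : ℝ, p.eval t
      = (ContinuousLinearMap.id ℝ (EuclideanSpace ℝ (Fin n)) + t • A).det := by
    intro t
    have h1 : (ContinuousLinearMap.id ℝ (EuclideanSpace ℝ (Fin n)) + t • A).det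
        = (1 + t • M).det := by
      rw [ContinuousLinearMap.det, ← LinearMap.det_toMatrix b]
      congr 1
      simp [hM]
    rw [h1, hp]
    have h2 := (Polynomial.evalRingHom t).map_det ((Polynomial.X : Polynomial ℝ) • M.map Polynomial.C
      + (1 : Matrix (Fin n) (Fin n) ℝ).map Polynomial.C)
    rw [Polynomial.coe_evalRingHom] at h2
    rw [h2]
    congr 1
    ext i j
    simp [Matrix.one_apply]
    split_ifs <;> simp [add_comm, mul_comm]
  have hdeg : p.degree < (s.card : WithBot ℕ) := by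
    have h3 : p.natDegree ≤ n := by
      have h30 := Polynomial.natDegree_det_X_add_C_le M 1
      rwa [Fintype.card_fin] at h30
    refine lt_of_le_of_lt Polynomial.degree_le_natDegree ?_
    exact_mod_cast lt_of_le_of_lt h3 hs
  have h4 := Lagrange.eq_interpolate hv hdeg
  rw [← hev t]
  conv_lhs => rw [h4]
  rw [Lagrange.interpolate_apply, Polynomial.eval_finsetSum]
  refine Finset.sum_congr rfl fun j _ => ?_
  rw [Polynomial.eval_mul, Polynomial.eval_C, hev, mul_comm]

theorem brou_det_pos {n : ℕ} (A : EuclideanSpace ℝ (Fin n) →L[ℝ] EuclideanSpace ℝ (Fin n))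
    {t : ℝ} (ht : 0 ≤ t) (hA : t * ‖A‖ < 1) :
    0 < (ContinuousLinearMap.id ℝ (EuclideanSpace ℝ (Fin n)) + t • A).det := by
  have hne : ∀ s ∈ Icc 0 t, (ContinuousLinearMap.id ℝ (EuclideanSpace ℝ (Fin n)) + s • A).det ≠ 0 := by
    intro s hs h0
    have h1 : s * ‖A‖ < 1 :=
      lt_of_le_of_lt (mul_le_mul_of_nonneg_right hs.2 (norm_nonneg _)) hA
    set B : EuclideanSpace ℝ (Fin n) →L[ℝ] EuclideanSpace ℝ (Fin n) :=
      ContinuousLinearMap.id ℝ (EuclideanSpace ℝ (Fin n)) + s • A with hB
    have h2 : LinearMap.det (B : EuclideanSpace ℝ (Fin n) →ₗ[ℝ] EuclideanSpace ℝ (Fin n)) = 0 := h0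
    obtain ⟨x, hx, hx0⟩ := Submodule.exists_mem_ne_zero_of_ne_bot
      (LinearMap.bot_lt_ker_of_det_eq_zero h2).ne'
    have h3 : x + s • A x = 0 := by
      have h30 := LinearMap.mem_ker.mp hx
      simpa [hB] using h30
    have h4 : ‖x‖ = s * ‖A x‖ := by
      have : x = -(s • A x) := eq_neg_of_add_eq_zero_left h3
      calc ‖x‖ = ‖-(s • A x)‖ := by rw [← this]
        _ = s * ‖A x‖ := by rw [norm_neg, norm_smul, Real.norm_eq_abs, abs_of_nonneg hs.1]
    have h5 : ‖A x‖ ≤ ‖A‖ * ‖x‖ := A.le_opNorm x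
    have h6 : 0 < ‖x‖ := norm_pos_iff.mpr hx0
    nlinarith [mul_le_mul_of_nonneg_left h5 hs.1]
  have hc : Continuous fun s : ℝ =>
      (ContinuousLinearMap.id ℝ (EuclideanSpace ℝ (Fin n)) + s • A).det :=
    ContinuousLinearMap.continuous_det.comp (by fun_prop)
  by_contra hle
  push Not at hle
  have h0 : (0 : ℝ) < (ContinuousLinearMap.id ℝ (EuclideanSpace ℝ (Fin n)) + (0 : ℝ) • A).det := by
    have h00 : (ContinuousLinearMap.id ℝ (EuclideanSpace ℝ (Fin n)) + (0 : ℝ) • A).det = 1 := by
      have h01 : ContinuousLinearMap.id ℝ (EuclideanSpace ℝ (Fin n)) + (0 : ℝ) • A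
          = ContinuousLinearMap.id ℝ (EuclideanSpace ℝ (Fin n)) := by
        ext x; simp
      rw [h01]
      simp [ContinuousLinearMap.det]
    rw [h00]; exact one_pos
  obtain ⟨s, hs, hs0⟩ := intermediate_value_Icc' ht hc.continuousOn ⟨hle, h0.le⟩
  exact hne s hs hs0

/-- a map that is equal to zero off the ball and Lipschitz on it is Lipschitz -/
theorem brou_lip {n : ℕ} {g : EuclideanSpace ℝ (Fin n) → EuclideanSpace ℝ (Fin n)} {L : ℝ}
    (hL : 0 ≤ L)
    (hg : ∀ x ∈ closedBall (0 : EuclideanSpace ℝ (Fin n)) 1,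
      ∀ y ∈ closedBall (0 : EuclideanSpace ℝ (Fin n)) 1, ‖g x - g y‖ ≤ L * ‖x - y‖)
    (h0 : ∀ x, 1 ≤ ‖x‖ → g x = 0) (x y : EuclideanSpace ℝ (Fin n)) :
    ‖g x - g y‖ ≤ L * ‖x - y‖ := by
  have key : ∀ x y : EuclideanSpace ℝ (Fin n), ‖x‖ ≤ 1 → 1 ≤ ‖y‖ →
      ‖g x - g y‖ ≤ L * ‖x - y‖ := by
    intro x y hx hy
    have hc : Continuous fun s : ℝ => ‖x + s • (y - x)‖ := by fun_prop
    have h1 : (fun s : ℝ => ‖x + s • (y - x)‖) 0 ≤ 1 := by simpa using hx
    have h2 : 1 ≤ (fun s : ℝ => ‖x + s • (y - x)‖) 1 := by simpa using hy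
    obtain ⟨s, hs, hs1⟩ := intermediate_value_Icc zero_le_one hc.continuousOn ⟨h1, h2⟩
    simp only at hs1
    set z := x + s • (y - x) with hz
    have h3 : g z = g y := by rw [h0 y hy, h0 z hs1.ge]
    have h4 := hg x (mem_closedBall_zero_iff.mpr hx) z (mem_closedBall_zero_iff.mpr hs1.le)
    rw [h3] at h4
    refine h4.trans (mul_le_mul_of_nonneg_left ?_ hL)
    have : x - z = s • (x - y) := by
      rw [hz, ← neg_sub x y, smul_neg]; abel
    rw [this, norm_smul, Real.norm_eq_abs, abs_of_nonneg hs.1]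
    exact mul_le_of_le_one_left (norm_nonneg _) hs.2
  rcases le_total ‖x‖ 1 with hx | hx
  · rcases le_total ‖y‖ 1 with hy | hy
    · exact hg x (mem_closedBall_zero_iff.mpr hx) y (mem_closedBall_zero_iff.mpr hy)
    · exact key x y hx hy
  · rcases le_total ‖y‖ 1 with hy | hy
    · rw [norm_sub_rev (g x), norm_sub_rev x]
      exact key y x hy hx
    · rw [h0 x hx, h0 y hy, sub_zero, norm_zero]
      positivity

/-- small perturbations of the identity map the ball onto itself, with positive jacobian -/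
theorem brou_vol {n : ℕ} {f : EuclideanSpace ℝ (Fin n) → EuclideanSpace ℝ (Fin n)}
    {U : Set (EuclideanSpace ℝ (Fin n))} (hU : IsOpen U) (hB : closedBall 0 1 ⊆ U)
    (hf : ContDiffOn ℝ 1 f U) (h1 : ∀ x ∈ closedBall (0 : EuclideanSpace ℝ (Fin n)) 1, ‖f x‖ = 1)
    (h2 : ∀ x, ‖x‖ = 1 → f x = x) :
    ∃ t₀ > 0, ∀ t ∈ Ioo (0 : ℝ) t₀,
      ∫ x in closedBall (0 : EuclideanSpace ℝ (Fin n)) 1,
        (ContinuousLinearMap.id ℝ (EuclideanSpace ℝ (Fin n))
          + t • (fderiv ℝ f x - ContinuousLinearMap.id ℝ (EuclideanSpace ℝ (Fin n)))).det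
      = (volume (closedBall (0 : EuclideanSpace ℝ (Fin n)) 1)).toReal := by
  have hfd : ∀ x ∈ U, HasFDerivAt f (fderiv ℝ f x) x := fun x hx =>
    ((hf.differentiableOn one_ne_zero).differentiableAt (hU.mem_nhds hx)).hasFDerivAt
  have hcd : ContinuousOn (fderiv ℝ f) U := hf.continuousOn_fderiv_of_isOpen hU le_rfl
  have hcomp : IsCompact (closedBall (0 : EuclideanSpace ℝ (Fin n)) 1) := isCompact_closedBall _ _
  obtain ⟨C, hC⟩ := hcomp.exists_bound_of_continuousOn
    ((hcd.mono hB).sub (continuousOn_const (c := ContinuousLinearMap.id ℝ (EuclideanSpace ℝ (Fin n)))))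
  set L : ℝ := max C 0 with hL
  have hL0 : 0 ≤ L := le_max_right _ _
  have hLx : ∀ x ∈ closedBall (0 : EuclideanSpace ℝ (Fin n)) 1,
      ‖fderiv ℝ f x - ContinuousLinearMap.id ℝ (EuclideanSpace ℝ (Fin n))‖ ≤ L :=
    fun x hx => (hC x hx).trans (le_max_left _ _)
  classical
  set g : EuclideanSpace ℝ (Fin n) → EuclideanSpace ℝ (Fin n) :=
    fun x => if ‖x‖ ≤ 1 then f x - x else 0 with hg
  have hgB : ∀ x, ‖x‖ ≤ 1 → g x = f x - x := fun x hx => if_pos hx
  have hg0 : ∀ x, 1 ≤ ‖x‖ → g x = 0 := by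
    intro x hx
    rcases hx.lt_or_eq with h | h
    · exact if_neg (not_le.mpr h)
    · rw [hgB x h.ge, h2 x h.symm, sub_self]
  have hlipB : ∀ x ∈ closedBall (0 : EuclideanSpace ℝ (Fin n)) 1,
      ∀ y ∈ closedBall (0 : EuclideanSpace ℝ (Fin n)) 1, ‖g x - g y‖ ≤ L * ‖x - y‖ := by
    intro x hx y hy
    rw [hgB x (mem_closedBall_zero_iff.mp hx), hgB y (mem_closedBall_zero_iff.mp hy)]
    refine (convex_closedBall (0 : EuclideanSpace ℝ (Fin n)) 1).norm_image_sub_le_of_norm_hasFDerivWithin_le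
      (f := fun x => f x - x)
      (f' := fun x => fderiv ℝ f x - ContinuousLinearMap.id ℝ (EuclideanSpace ℝ (Fin n)))
      (fun z hz => ((hfd z (hB hz)).sub (hasFDerivAt_id z)).hasFDerivWithinAt) hLx hy hx
  have hlip := brou_lip hL0 hlipB hg0
  refine ⟨1 / (L + 1), by positivity, fun t ht => ?_⟩
  have htL : t * L < 1 := by
    have h3 : t * (L + 1) < 1 := by
      have := ht.2
      rwa [lt_div_iff₀ (by positivity)] at this
    nlinarith [ht.1]
  have ht1 : t ≤ 1 := by
    have h3 : (1 : ℝ) / (L + 1) ≤ 1 := by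
      rw [div_le_one (by positivity)]; linarith
    exact ht.2.le.trans h3
  set F : EuclideanSpace ℝ (Fin n) → EuclideanSpace ℝ (Fin n) := fun x => x + t • (f x - x) with hF
  have hFmem : ∀ x ∈ closedBall (0 : EuclideanSpace ℝ (Fin n)) 1,
      F x ∈ closedBall (0 : EuclideanSpace ℝ (Fin n)) 1 := by
    intro x hx
    have e : F x = (1 - t) • x + t • f x := by
      simp only [hF, smul_sub, sub_smul, one_smul]; abel
    rw [e]
    exact (convex_closedBall (0 : EuclideanSpace ℝ (Fin n)) 1) hx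
      (mem_closedBall_zero_iff.mpr (h1 x hx).le) (by linarith) ht.1.le (by ring)
  have hinj : InjOn F (closedBall (0 : EuclideanSpace ℝ (Fin n)) 1) := by
    intro x hx y hy hxy
    have h3 : x - y = -(t • (g x - g y)) := by
      rw [hgB x (mem_closedBall_zero_iff.mp hx), hgB y (mem_closedBall_zero_iff.mp hy)]
      have : x + t • (f x - x) = y + t • (f y - y) := hxy
      rw [smul_sub]
      have h30 := sub_eq_zero.mpr this
      rw [← sub_eq_zero]
      rw [← h30]; abel
    have h4 : ‖x - y‖ ≤ t * L * ‖x - y‖ := by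
      calc ‖x - y‖ = ‖-(t • (g x - g y))‖ := by rw [← h3]
        _ = t * ‖g x - g y‖ := by rw [norm_neg, norm_smul, Real.norm_eq_abs, abs_of_pos ht.1]
        _ ≤ t * (L * ‖x - y‖) := mul_le_mul_of_nonneg_left (hlip x y) ht.1.le
        _ = t * L * ‖x - y‖ := by ring
    have h5 : ‖x - y‖ = 0 := by
      have := norm_nonneg (x - y)
      nlinarith
    exact sub_eq_zero.mp (norm_eq_zero.mp h5)
  have hsurj : F '' closedBall (0 : EuclideanSpace ℝ (Fin n)) 1
      = closedBall (0 : EuclideanSpace ℝ (Fin n)) 1 := by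
    refine Subset.antisymm (image_subset_iff.mpr hFmem) fun y hy => ?_
    have hcon : ContractingWith (Real.toNNReal (t * L)) fun x => y - t • g x := by
      refine ⟨by rwa [← NNReal.coe_lt_coe, Real.coe_toNNReal _ (by have := ht.1; positivity)], ?_⟩
      refine LipschitzWith.of_dist_le_mul fun a b => ?_
      rw [Real.coe_toNNReal _ (by have := ht.1; positivity), dist_eq_norm, dist_eq_norm]
      have : y - t • g a - (y - t • g b) = -(t • (g a - g b)) := by
        rw [smul_sub]; abel
      rw [this, norm_neg, norm_smul, Real.norm_eq_abs, abs_of_pos ht.1, mul_assoc]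
      exact mul_le_mul_of_nonneg_left (hlip a b) ht.1.le
    have hfp := hcon.fixedPoint_isFixedPt
    set x := ContractingWith.fixedPoint (fun x => y - t • g x) hcon with hx
    have h3 : y - t • g x = x := hfp
    have hyn : ‖y‖ ≤ 1 := mem_closedBall_zero_iff.mp hy
    have hxn : ‖x‖ ≤ 1 := by
      by_contra hlt
      push Not at hlt
      rw [hg0 x hlt.le, smul_zero, sub_zero] at h3
      rw [h3] at hyn
      linarith
    refine ⟨x, mem_closedBall_zero_iff.mpr hxn, ?_⟩
    simp only [hF]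
    rw [← hgB x hxn]
    nth_rewrite 1 [← h3]
    abel
  have hFd : ∀ x ∈ closedBall (0 : EuclideanSpace ℝ (Fin n)) 1,
      HasFDerivWithinAt F (ContinuousLinearMap.id ℝ (EuclideanSpace ℝ (Fin n))
          + t • (fderiv ℝ f x - ContinuousLinearMap.id ℝ (EuclideanSpace ℝ (Fin n))))
        (closedBall (0 : EuclideanSpace ℝ (Fin n)) 1) x := fun x hx =>
    ((hasFDerivAt_id x).add (((hfd x (hB hx)).sub (hasFDerivAt_id x)).const_smul t)).hasFDerivWithinAt
  have h3 := integral_image_eq_integral_abs_det_fderiv_smul (μ := volume)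
    (measurableSet_closedBall) hFd hinj (fun _ => (1 : ℝ))
  rw [hsurj] at h3
  have h4 : ∫ x in closedBall (0 : EuclideanSpace ℝ (Fin n)) 1, (1 : ℝ)
      = (volume (closedBall (0 : EuclideanSpace ℝ (Fin n)) 1)).toReal := by
    simp [Measure.real]
  rw [← h4, h3]
  refine setIntegral_congr_fun measurableSet_closedBall fun x hx => ?_
  have h5 := brou_det_pos (fderiv ℝ f x - ContinuousLinearMap.id ℝ (EuclideanSpace ℝ (Fin n)))
    ht.1.le (lt_of_le_of_lt (mul_le_mul_of_nonneg_left (hLx x hx) ht.1.le) htL)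
  simp only [smul_eq_mul, mul_one]
  rw [abs_of_pos h5]

/-- there is no retraction of class `C ^ 1` of the ball onto the sphere. Proof (Milnor, Rogers):
let `f` be of class `C ^ 1` near the closed unit ball `B`, with values in the sphere, and equal to
the identity on the sphere; put `f_t x = x + t (f x - x)`. For small `t ≥ 0` it is a bijection of
`B` onto `B` with positive jacobian, so `∫ x in B, det (D f_t x)` is the volume of `B` for small
`t`; it is a polynomial in `t`, so the same holds for `t = 1`, where the determinant vanishes. -/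
theorem no_retraction {n : ℕ} (f : EuclideanSpace ℝ (Fin n) → EuclideanSpace ℝ (Fin n))
    {U : Set (EuclideanSpace ℝ (Fin n))} (hU : IsOpen U) (hB : closedBall 0 1 ⊆ U)
    (hf : ContDiffOn ℝ 1 f U) (h1 : ∀ x ∈ closedBall (0 : EuclideanSpace ℝ (Fin n)) 1, ‖f x‖ = 1)
    (h2 : ∀ x, ‖x‖ = 1 → f x = x) : False := by
  obtain ⟨t₀, ht₀, hvol⟩ := brou_vol hU hB hf h1 h2
  have hfd : ∀ x ∈ U, HasFDerivAt f (fderiv ℝ f x) x := fun x hx =>
    ((hf.differentiableOn one_ne_zero).differentiableAt (hU.mem_nhds hx)).hasFDerivAt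
  have hcd : ContinuousOn (fderiv ℝ f) U := hf.continuousOn_fderiv_of_isOpen hU le_rfl
  have hcomp : IsCompact (closedBall (0 : EuclideanSpace ℝ (Fin n)) 1) := isCompact_closedBall _ _
  set G : ℝ → EuclideanSpace ℝ (Fin n) → ℝ := fun t x =>
    (ContinuousLinearMap.id ℝ (EuclideanSpace ℝ (Fin n))
          + t • (fderiv ℝ f x - ContinuousLinearMap.id ℝ (EuclideanSpace ℝ (Fin n)))).det with hG
  have hGc : ∀ t, ContinuousOn (G t) (closedBall (0 : EuclideanSpace ℝ (Fin n)) 1) := by
    intro t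
    refine ContinuousLinearMap.continuous_det.comp_continuousOn ?_
    exact continuousOn_const.add (((hcd.mono hB).sub continuousOn_const).const_smul t)
  have hGi : ∀ t, IntegrableOn (G t) (closedBall (0 : EuclideanSpace ℝ (Fin n)) 1) volume :=
    fun t => (hGc t).integrableOn_compact hcomp
  set v : ℕ → ℝ := fun j => t₀ / (j + 2) with hv
  have hvI : ∀ j, v j ∈ Ioo (0 : ℝ) t₀ := by
    intro j
    have : (0 : ℝ) ≤ j := Nat.cast_nonneg j
    refine ⟨by simp only [hv]; positivity, ?_⟩
    simp only [hv]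
    exact div_lt_self ht₀ (by linarith)
  have hvinj : Function.Injective v := by
    intro i j hij
    simp only [hv] at hij
    have hi : (0 : ℝ) < i + 2 := by positivity
    have hj : (0 : ℝ) < j + 2 := by positivity
    rw [div_eq_div_iff hi.ne' hj.ne'] at hij
    have := mul_left_cancel₀ ht₀.ne' hij
    have h3 : (i : ℝ) = j := by linarith
    exact_mod_cast h3
  set s : Finset ℕ := Finset.range (n + 1) with hs
  have hcard : n < s.card := by rw [hs, Finset.card_range]; exact Nat.lt_succ_self n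
  have h3 : ∫ x in closedBall (0 : EuclideanSpace ℝ (Fin n)) 1, G 1 x
      = (volume (closedBall (0 : EuclideanSpace ℝ (Fin n)) 1)).toReal := by
    calc ∫ x in closedBall (0 : EuclideanSpace ℝ (Fin n)) 1, G 1 x
        = ∫ x in closedBall (0 : EuclideanSpace ℝ (Fin n)) 1,
            ∑ j ∈ s, (Lagrange.basis s v j).eval 1 * G (v j) x := by
          refine setIntegral_congr_fun measurableSet_closedBall fun x _ => ?_
          exact brou_interp s v (hvinj.injOn) hcard _ 1
      _ = ∑ j ∈ s, ∫ x in closedBall (0 : EuclideanSpace ℝ (Fin n)) 1,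
            (Lagrange.basis s v j).eval 1 * G (v j) x :=
          integral_finsetSum _ fun j _ => (hGi (v j)).const_mul _
      _ = ∑ j ∈ s, (Lagrange.basis s v j).eval 1
            * (volume (closedBall (0 : EuclideanSpace ℝ (Fin n)) 1)).toReal := by
          refine Finset.sum_congr rfl fun j _ => ?_
          rw [integral_const_mul, hvol (v j) (hvI j)]
      _ = (volume (closedBall (0 : EuclideanSpace ℝ (Fin n)) 1)).toReal := by
          rw [← Finset.sum_mul, ← Polynomial.eval_finsetSum,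
            Lagrange.sum_basis (hvinj.injOn) ⟨0, by simp [hs]⟩, Polynomial.eval_one, one_mul]
  have h4 : ∀ x ∈ ball (0 : EuclideanSpace ℝ (Fin n)) 1, G 1 x = 0 := by
    intro x hx
    have hxB : x ∈ closedBall (0 : EuclideanSpace ℝ (Fin n)) 1 := ball_subset_closedBall hx
    have h5 : ∀ w, inner ℝ (f x) (fderiv ℝ f x w) = 0 := by
      intro w
      have h6 : HasFDerivAt (fun y => inner ℝ (f y) (f y)) _ x :=
        (hfd x (hB hxB)).inner ℝ (hfd x (hB hxB))
      have h7 : (fun y => inner ℝ (f y) (f y)) =ᶠ[𝓝 x] fun _ => (1 : ℝ) := by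
        filter_upwards [isOpen_ball.mem_nhds hx] with y hy
        rw [real_inner_self_eq_norm_sq, h1 y (ball_subset_closedBall hy), one_pow]
      have h8 := (h6.congr_of_eventuallyEq h7.symm).unique (hasFDerivAt_const (1 : ℝ) x)
      have h9 := congrArg (fun A => A w) h8
      simp only [ContinuousLinearMap.comp_apply, ContinuousLinearMap.prod_apply,
        fderivInnerCLM_apply, zero_apply] at h9
      have h90 := real_inner_comm (f x) (fderiv ℝ f x w)
      linarith
    have h6 : G 1 x = (fderiv ℝ f x).det := by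
      simp only [hG, one_smul]
      congr 1
      abel
    rw [h6]
    by_contra hne
    set A : EuclideanSpace ℝ (Fin n) →ₗ[ℝ] EuclideanSpace ℝ (Fin n) :=
      (fderiv ℝ f x : EuclideanSpace ℝ (Fin n) →ₗ[ℝ] EuclideanSpace ℝ (Fin n)) with hA
    have h7 : LinearMap.det A ≠ 0 := hne
    set e := LinearMap.equivOfDetNeZero A h7 with he
    have h8 : A (e.symm (f x)) = f x := e.apply_symm_apply (f x)
    have h9 := h5 (e.symm (f x))
    have h10 : fderiv ℝ f x (e.symm (f x)) = f x := h8
    rw [h10, real_inner_self_eq_norm_sq, h1 x hxB] at h9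
    norm_num at h9
  have h5 : ∫ x in closedBall (0 : EuclideanSpace ℝ (Fin n)) 1, G 1 x = 0 := by
    rcases Nat.eq_zero_or_pos n with hn | hn
    · subst hn
      have h6 : ∀ x : EuclideanSpace ℝ (Fin 0), x ∈ ball (0 : EuclideanSpace ℝ (Fin 0)) 1 := by
        intro x
        rw [Subsingleton.elim x 0]
        exact mem_ball_self one_pos
      rw [setIntegral_congr_fun (g := fun _ => (0 : ℝ)) measurableSet_closedBall
        fun x _ => h4 x (h6 x)]
      simp
    · have : Nonempty (Fin n) := ⟨⟨0, hn⟩⟩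
      have h6 : closedBall (0 : EuclideanSpace ℝ (Fin n)) 1 =ᵐ[volume]
          ball (0 : EuclideanSpace ℝ (Fin n)) 1 := by
        refine (ae_eq_of_subset_of_measure_ge ball_subset_closedBall ?_
          measurableSet_ball.nullMeasurableSet measure_closedBall_lt_top.ne).symm
        rw [Measure.addHaar_closedBall_eq_addHaar_ball]
      rw [setIntegral_congr_set h6, setIntegral_congr_fun (g := fun _ => (0 : ℝ))
        measurableSet_ball fun x hx => h4 x hx]
      simp
  have h6 : 0 < (volume (closedBall (0 : EuclideanSpace ℝ (Fin n)) 1)).toReal :=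
    ENNReal.toReal_pos (measure_closedBall_pos volume _ one_pos).ne'
      (measure_closedBall_lt_top).ne
  rw [h5] at h3
  exact h6.ne h3

end SP
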