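import Pool.Agent.H59.SP.Defs

/-!
# Module B: the combinatorial inequality for networks
-/

open Metric Set

namespace SP

theorem wd_pos {k : ℕ} (hk : 2 ≤ k) : 0 < wd k := by
  unfold wd
  apply Real.sqrt_pos.2
  have h1 : 0 < k / 2 := by omega
  have h2 : 0 < (k + 1) / 2 := by omega
  have h1' : (0 : ℝ) < ((k / 2 : ℕ) : ℝ) := by exact_mod_cast h1
  have h2' : (0 : ℝ) < (((k + 1) / 2 : ℕ) : ℝ) := by exact_mod_cast h2
  positivity

theorem bun_nat (k r : ℕ) :
    ((r : ℝ) * ((k : ℝ) - r)) ≤ ((k / 2 : ℕ) : ℝ) * (((k + 1) / 2 : ℕ) : ℝ) := by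
  have h : ∃ a : ℕ, k = a + a ∨ k = a + a + 1 := by
    rcases Nat.even_or_odd k with ⟨a, ha⟩ | ⟨a, ha⟩
    · exact ⟨a, Or.inl ha⟩
    · exact ⟨a, Or.inr (by omega)⟩
  obtain ⟨a, ha | ha⟩ := h
  · have e1 : k / 2 = a := by omega
    have e2 : (k + 1) / 2 = a := by omega
    rw [e1, e2, ha]
    push_cast
    nlinarith [sq_nonneg ((r : ℝ) - a)]
  · have e1 : k / 2 = a := by omega
    have e2 : (k + 1) / 2 = a + 1 := by omega
    rw [e1, e2, ha]
    push_cast
    rcases Nat.lt_or_ge r (a + 1) with h | h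
    · have h' : (r : ℝ) ≤ a := by exact_mod_cast (by omega : r ≤ a)
      nlinarith
    · have h' : (a : ℝ) + 1 ≤ r := by exact_mod_cast h
      nlinarith

theorem bun_wd_sq {k : ℕ} (hk : 2 ≤ k) :
    wd k ^ 2 * (((k / 2 : ℕ) : ℝ) * (((k + 1) / 2 : ℕ) : ℝ)) = k := by
  have h1 : 0 < k / 2 := by omega
  have h2 : 0 < (k + 1) / 2 := by omega
  have h1' : (0 : ℝ) < ((k / 2 : ℕ) : ℝ) := by exact_mod_cast h1
  have h2' : (0 : ℝ) < (((k + 1) / 2 : ℕ) : ℝ) := by exact_mod_cast h2
  unfold wd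
  rw [Real.sq_sqrt (by positivity)]
  have h3 : ((k / 2 : ℕ) : ℝ) + (((k + 1) / 2 : ℕ) : ℝ) = k := by
    exact_mod_cast (by omega : k / 2 + (k + 1) / 2 = k)
  rw [← h3]
  field_simp
  ring

/-- `∑ i ∈ I, (p i - q i) ≤ √(|I| (k - |I|) / k) * ‖p - q‖` and
`|I| (k - |I|) ≤ ⌊k/2⌋ ⌈k/2⌉` -/
theorem sum_le {k : ℕ} (hk : 2 ≤ k) {p q : V k} (hp : p ∈ Hp k) (hq : q ∈ Hp k)
    (I : Finset (Fin k)) : wd k * ∑ i ∈ I, (p i - q i) ≤ dist p q := by
  have hk0 : (0 : ℝ) < k := by exact_mod_cast (by omega : 0 < k)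
  set r : ℝ := (I.card : ℝ) with hr
  -- the test vector
  let g : Fin k → ℝ := fun i => (if i ∈ I then 1 else 0) - r / k
  have hv0 : ∑ i, (p i - q i) = 0 := by
    rw [Finset.sum_sub_distrib]
    have h1 : ∑ i, p i = 1 := hp
    have h2 : ∑ i, q i = 1 := hq
    rw [h1, h2]; ring
  have hgv : ∑ i, g i * (p i - q i) = ∑ i ∈ I, (p i - q i) := by
    have : ∀ i, g i * (p i - q i) = (if i ∈ I then (p i - q i) else 0) - r / k * (p i - q i) := by
      intro i
      simp only [g]
      split_ifs <;> ring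
    rw [Finset.sum_congr rfl (fun i _ => this i), Finset.sum_sub_distrib, ← Finset.mul_sum, hv0]
    simp
  have hgg : ∑ i, g i ^ 2 = r * (k - r) / k := by
    have : ∀ i, g i ^ 2 = (if i ∈ I then (1 - 2 * (r / k)) else 0) + (r / k) ^ 2 := by
      intro i
      simp only [g]
      split_ifs <;> ring
    rw [Finset.sum_congr rfl (fun i _ => this i), Finset.sum_add_distrib]
    simp only [Finset.sum_ite_mem, Finset.univ_inter, Finset.sum_const, Finset.card_univ,
      Fintype.card_fin, nsmul_eq_mul]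
    rw [← hr]
    field_simp
    ring
  have hd : dist p q ^ 2 = ∑ i, (p i - q i) ^ 2 := by
    rw [EuclideanSpace.dist_eq, Real.sq_sqrt (Finset.sum_nonneg fun i _ => by positivity)]
    refine Finset.sum_congr rfl fun i _ => ?_
    rw [Real.dist_eq, sq_abs]
  have hcs : (∑ i ∈ I, (p i - q i)) ^ 2 ≤ r * (k - r) / k * dist p q ^ 2 := by
    rw [← hgv, ← hgg, hd]
    exact Finset.sum_mul_sq_le_sq_mul_sq _ _ _
  have hn := bun_nat k I.card
  rw [← hr] at hn
  have hw := bun_wd_sq hk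
  have hwp := wd_pos hk
  refine le_of_abs_le (abs_le_of_sq_le_sq ?_ dist_nonneg)
  rw [mul_pow]
  calc wd k ^ 2 * (∑ i ∈ I, (p i - q i)) ^ 2
      ≤ wd k ^ 2 * (r * (k - r) / k * dist p q ^ 2) := by gcongr
    _ = wd k ^ 2 * (r * (k - r)) / k * dist p q ^ 2 := by ring
    _ ≤ wd k ^ 2 * (((k / 2 : ℕ) : ℝ) * (((k + 1) / 2 : ℕ) : ℝ)) / k * dist p q ^ 2 := by gcongr
    _ = dist p q ^ 2 := by rw [hw, div_self hk0.ne', one_mul]

/-- bundles inside one node `K`: a point `b` at distance at most `D` from all of them -/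
theorem bun_one {k : ℕ} (hk : 2 ≤ k) {D : ℝ} (I : Finset (Fin k)) (z : Fin k → V k) (b : V k)
    (hb : b ∈ Hp k) (hz : ∀ i ∈ I, z i ∈ Hp k) (hd : ∀ i ∈ I, dist b (z i) ≤ D) :
    wd k * ∑ i ∈ I, (b i - z i i) ≤ D * ((I.image z).card : ℝ) := by
  classical
  rw [← Finset.sum_fiberwise_of_maps_to (s := I) (t := I.image z) (g := z)
    (fun i hi => Finset.mem_image_of_mem z hi), Finset.mul_sum, mul_comm D, ← nsmul_eq_mul]
  refine Finset.sum_le_card_nsmul _ _ _ fun w hw => ?_
  obtain ⟨i, hi, hiw⟩ := Finset.mem_image.1 hw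
  have h1 : ∑ j ∈ I with z j = w, (b j - z j j) = ∑ j ∈ I with z j = w, (b j - w j) := by
    refine Finset.sum_congr rfl fun j hj => ?_
    rw [(Finset.mem_filter.1 hj).2]
  rw [h1]
  refine (sum_le hk hb (hiw ▸ hz i hi) _).trans (hiw ▸ hd i hi)

/-- the claim of the induction for the set `P` of nodes -/
def BunP (k : ℕ) (δ ρ : ℝ) (P : Finset (Set (V k))) : Prop :=
  ∀ (I : Finset (Fin k)) (z : Fin k → V k) (b : V k), I.Nonempty →
    (∃ K ∈ P, b ∈ K) → (∀ i ∈ I, ∃ K ∈ P, z i ∈ K) →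
    wd k * ∑ i ∈ I, (b i - z i i) ≤
      ∑ K ∈ P, diam K + δ * (((I.image z).card : ℝ) - 1) + ρ * ((P.card : ℝ) - 1)

theorem bunP_single {k : ℕ} (hk : 2 ≤ k) {δ ρ : ℝ} {K : Set (V k)} (hK : IsCompact K)
    (hKH : K ⊆ Hp k) (hKd : diam K ≤ δ) : BunP k δ ρ {K} := by
  intro I z b hI hb hz
  have hb' : b ∈ K := by simpa using hb
  have hz' : ∀ i ∈ I, z i ∈ K := by simpa using hz
  have h1 := bun_one hk I z b (hKH hb') (fun i hi => hKH (hz' i hi))
    (fun i hi => dist_le_diam_of_mem hK.isBounded hb' (hz' i hi))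
  have h2 : (1 : ℝ) ≤ ((I.image z).card : ℝ) := by
    exact_mod_cast Finset.card_pos.2 (hI.image z)
  simp only [Finset.sum_singleton, Finset.card_singleton, Nat.cast_one, sub_self, mul_zero,
    add_zero]
  nlinarith [diam_nonneg (s := K)]

theorem bunP_insert {k : ℕ} (hk : 2 ≤ k) {δ ρ : ℝ} (hδ : 0 ≤ δ) (hρ : 0 ≤ ρ)
    {P : Finset (Set (V k))} (hPH : ∀ K ∈ P, K ⊆ Hp k) {K' : Set (V k)}
    (hK' : IsCompact K') (hK'H : K' ⊆ Hp k) (hK'd : diam K' ≤ δ) (hnot : K' ∉ P)
    {K : Set (V k)} (hK : K ∈ P) {p q : V k} (hp : p ∈ K) (hq : q ∈ K') (hpq : dist p q ≤ ρ)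
    (hP : BunP k δ ρ P) : BunP k δ ρ (insert K' P) := by
  classical
  intro I z b hI hb hz
  have hpH : p ∈ Hp k := hPH K hK hp
  have hqH : q ∈ Hp k := hK'H hq
  have hdd : 0 ≤ diam K' := diam_nonneg
  have hPc : (1 : ℝ) ≤ (P.card : ℝ) := by
    exact_mod_cast Finset.card_pos.2 ⟨K, hK⟩
  have hPd : 0 ≤ ∑ L ∈ P, diam L := Finset.sum_nonneg fun L _ => diam_nonneg
  -- the two parts
  let I₁ := I.filter (fun i => ∃ L ∈ P, z i ∈ L)
  let I₂ := I.filter (fun i => ¬ ∃ L ∈ P, z i ∈ L)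
  have hI₁ : ∀ i ∈ I₁, ∃ L ∈ P, z i ∈ L := fun i hi => (Finset.mem_filter.1 hi).2
  have hI₂ : ∀ i ∈ I₂, z i ∈ K' := by
    intro i hi
    obtain ⟨hiI, hi2⟩ := Finset.mem_filter.1 hi
    obtain ⟨L, hL, hzL⟩ := hz i hiI
    rcases Finset.mem_insert.1 hL with rfl | hL
    · exact hzL
    · exact absurd ⟨L, hL, hzL⟩ hi2
  have hI₁H : ∀ i ∈ I₁, z i ∈ Hp k := by
    intro i hi
    obtain ⟨L, hL, hzL⟩ := hI₁ i hi
    exact hPH L hL hzL
  have hI₂H : ∀ i ∈ I₂, z i ∈ Hp k := fun i hi => hK'H (hI₂ i hi)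
  have hsplit : ∀ f : Fin k → ℝ, ∑ i ∈ I, f i = ∑ i ∈ I₁, f i + ∑ i ∈ I₂, f i := fun f =>
    (Finset.sum_filter_add_sum_filter_not I _ f).symm
  have hn : (I.image z).card = (I₁.image z).card + (I₂.image z).card := by
    rw [← Finset.card_union_of_disjoint]
    · rw [← Finset.image_union]
      congr 2
      exact (Finset.filter_union_filter_not_eq _ I).symm
    · rw [Finset.disjoint_left]
      intro w h1 h2
      obtain ⟨i, hi, rfl⟩ := Finset.mem_image.1 h1
      obtain ⟨j, hj, hij⟩ := Finset.mem_image.1 h2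
      exact (Finset.mem_filter.1 hj).2 (hij ▸ hI₁ i hi)
  have hn' : ((I.image z).card : ℝ) = ((I₁.image z).card : ℝ) + ((I₂.image z).card : ℝ) := by
    exact_mod_cast hn
  rw [Finset.sum_insert hnot, Finset.card_insert_of_notMem hnot, hn']
  push_cast
  by_cases hbP : ∃ L ∈ P, b ∈ L
  · -- `b` is an old point
    obtain ⟨L, hL, hbL⟩ := hbP
    have hbH : b ∈ Hp k := hPH L hL hbL
    rcases I₂.eq_empty_or_nonempty with h2 | h2
    · have h3 := hP I₁ z b (by
        rw [Finset.nonempty_iff_ne_empty]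
        intro h1
        obtain ⟨i, hi⟩ := hI
        have : i ∈ I₁ ∪ I₂ := by
          rw [Finset.filter_union_filter_not_eq _ I]; exact hi
        rw [h1, h2] at this
        simp at this) ⟨L, hL, hbL⟩ hI₁
      rw [hsplit, h2]
      simp only [Finset.sum_empty, add_zero, Finset.image_empty, Finset.card_empty,
        Nat.cast_zero]
      nlinarith
    · -- merge the new bundles
      let z' : Fin k → V k := fun i => if i ∈ I₂ then p else z i
      have hz'1 : ∀ i ∈ I₁, z' i = z i := by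
        intro i hi
        have : i ∉ I₂ := fun h => (Finset.mem_filter.1 h).2 (Finset.mem_filter.1 hi).2
        simp [z', this]
      have hz'2 : ∀ i ∈ I₂, z' i = p := by
        intro i hi
        simp [z', hi]
      have h3 := hP I z' b hI ⟨L, hL, hbL⟩ (by
        intro i hi
        by_cases h : i ∈ I₂
        · rw [hz'2 i h]; exact ⟨K, hK, hp⟩
        · have h1 : i ∈ I₁ := by
            have : i ∈ I₁ ∪ I₂ := by
              rw [Finset.filter_union_filter_not_eq _ I]; exact hi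
            rcases Finset.mem_union.1 this with h' | h'
            · exact h'
            · exact absurd h' h
          rw [hz'1 i h1]; exact hI₁ i h1)
      have h4 : ((I.image z').card : ℝ) ≤ ((I₁.image z).card : ℝ) + 1 := by
        have : I.image z' ⊆ insert p (I₁.image z) := by
          intro w hw
          obtain ⟨i, hi, rfl⟩ := Finset.mem_image.1 hw
          by_cases h : i ∈ I₂
          · rw [hz'2 i h]; exact Finset.mem_insert_self _ _
          · have h1 : i ∈ I₁ := by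
              have : i ∈ I₁ ∪ I₂ := by
                rw [Finset.filter_union_filter_not_eq _ I]; exact hi
              rcases Finset.mem_union.1 this with h' | h'
              · exact h'
              · exact absurd h' h
            rw [hz'1 i h1]
            exact Finset.mem_insert_of_mem (Finset.mem_image_of_mem z h1)
        exact_mod_cast (Finset.card_le_card this).trans (Finset.card_insert_le _ _)
      have h5 : ∑ i ∈ I, (b i - z i i) = ∑ i ∈ I, (b i - z' i i) + ∑ i ∈ I₂, (p i - q i) +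
          ∑ i ∈ I₂, (q i - z i i) := by
        rw [hsplit (fun i => b i - z i i), hsplit (fun i => b i - z' i i)]
        have e1 : ∑ i ∈ I₁, (b i - z' i i) = ∑ i ∈ I₁, (b i - z i i) :=
          Finset.sum_congr rfl fun i hi => by rw [hz'1 i hi]
        have e2 : ∑ i ∈ I₂, (b i - z' i i) = ∑ i ∈ I₂, (b i - p i) :=
          Finset.sum_congr rfl fun i hi => by rw [hz'2 i hi]
        rw [e1, e2, add_assoc, add_assoc, ← Finset.sum_add_distrib, ← Finset.sum_add_distrib]
        congr 1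
        refine Finset.sum_congr rfl fun i _ => ?_
        ring
      have h6 := sum_le hk hpH hqH I₂
      have h7 := bun_one hk I₂ z q hqH hI₂H
        (fun i hi => dist_le_diam_of_mem hK'.isBounded hq (hI₂ i hi))
      have h8 : (1 : ℝ) ≤ ((I₂.image z).card : ℝ) := by
        exact_mod_cast Finset.card_pos.2 (h2.image z)
      have h9 : δ * (((I.image z').card : ℝ) - 1) ≤ δ * ((I₁.image z).card : ℝ) :=
        mul_le_mul_of_nonneg_left (by linarith) hδ
      have h10 : diam K' * (((I₂.image z).card : ℝ) - 1) ≤ δ * (((I₂.image z).card : ℝ) - 1) :=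
        mul_le_mul_of_nonneg_right hK'd (by linarith)
      rw [h5, mul_add, mul_add]
      nlinarith
  · -- `b` is in the new node
    have hbK : b ∈ K' := by
      obtain ⟨L, hL, hbL⟩ := hb
      rcases Finset.mem_insert.1 hL with rfl | hL
      · exact hbL
      · exact absurd ⟨L, hL, hbL⟩ hbP
    have hbH : b ∈ Hp k := hK'H hbK
    have h7 := bun_one hk I₂ z b hbH hI₂H
      (fun i hi => dist_le_diam_of_mem hK'.isBounded hbK (hI₂ i hi))
    rcases I₁.eq_empty_or_nonempty with h1 | h1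
    · have h2 : I₂.Nonempty := by
        rw [Finset.nonempty_iff_ne_empty]
        intro h2
        obtain ⟨i, hi⟩ := hI
        have : i ∈ I₁ ∪ I₂ := by
          rw [Finset.filter_union_filter_not_eq _ I]; exact hi
        rw [h1, h2] at this
        simp at this
      have h8 : (1 : ℝ) ≤ ((I₂.image z).card : ℝ) := by
        exact_mod_cast Finset.card_pos.2 (h2.image z)
      have h10 : diam K' * (((I₂.image z).card : ℝ) - 1) ≤ δ * (((I₂.image z).card : ℝ) - 1) :=
        mul_le_mul_of_nonneg_right hK'd (by linarith)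
      rw [hsplit, h1]
      simp only [Finset.sum_empty, zero_add, Finset.image_empty, Finset.card_empty,
        Nat.cast_zero]
      nlinarith
    · have h3 := hP I₁ z p h1 ⟨K, hK, hp⟩ hI₁
      have h4 := sum_le hk hbH hqH I₁
      have h5 := sum_le hk hqH hpH I₁
      have h6 : dist b q ≤ diam K' := dist_le_diam_of_mem hK'.isBounded hbK hq
      have h8 : ∑ i ∈ I, (b i - z i i) = ∑ i ∈ I₁, (b i - q i) + ∑ i ∈ I₁, (q i - p i) +
          ∑ i ∈ I₁, (p i - z i i) + ∑ i ∈ I₂, (b i - z i i) := by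
        rw [hsplit (fun i => b i - z i i), ← Finset.sum_add_distrib, ← Finset.sum_add_distrib]
        congr 1
        refine Finset.sum_congr rfl fun i _ => ?_
        ring
      have h9 : diam K' * ((I₂.image z).card : ℝ) ≤ δ * ((I₂.image z).card : ℝ) :=
        mul_le_mul_of_nonneg_right hK'd (by positivity)
      rw [dist_comm q p] at h5
      rw [h8, mul_add, mul_add, mul_add]
      nlinarith

/-- Induction on finite sets `P ⊆ G` of nodes, adding one node at a time: for every nonempty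
finite family of bundles `(I t, z t)`, with the `I t` pairwise disjoint and `z t` in a node of
`P`, and every point `b` of a node of `P`,
`wd k * ∑ t, ∑ i ∈ I t, (b i - z t i) ≤ ∑ K ∈ P, diam K + δ * (card T - 1) + ρ * (P.card - 1)`.
In the step let the new node `K'` be joined to `K ∈ P` by `p' ∈ K'`, `q ∈ K`. If `b` is in a node
of `P`, the bundles in `K'` are merged into one bundle with point `q` (cost
`diam K' + δ * (number - 1) + ρ`). If `b ∈ K'`, go from `b` to `p'` and `q` with all the bundles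
outside `K'` (cost `diam K' + ρ`), the bundles in `K'` cost at most `δ` each. -/
theorem net_bound {k : ℕ} (hk : 2 ≤ k) {G : Finset (Set (V k))} {δ ρ : ℝ} (hδ : 0 ≤ δ)
    (hρ : 0 ≤ ρ) (hG : ∀ K ∈ G, IsCompact K ∧ K.Nonempty ∧ K ⊆ Hp k ∧ diam K ≤ δ)
    (hG0 : G.Nonempty)
    (hc : ∀ P ⊆ G, P.Nonempty → P ≠ G → ∃ K ∈ P, ∃ K' ∈ G \ P, ∃ p ∈ K, ∃ q ∈ K', dist p q ≤ ρ)
    (y : Fin k → V k) (hyH : ∀ l, y l ∈ Hp k)
    (hy : ∀ l, ∃ K ∈ G, ∃ p ∈ K, dist p (y l) ≤ ρ) :
    wd k * (1 - ∑ l, y l l) ≤ ∑ K ∈ G, diam K + k * δ + (G.card + k) * ρ := by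
  classical
  have hk0 : 0 < k := by omega
  have : NeZero k := ⟨by omega⟩
  -- the chain
  have hchain : ∀ n, n + 1 ≤ G.card → ∃ P ⊆ G, P.card = n + 1 ∧ BunP k δ ρ P := by
    intro n
    induction n with
    | zero =>
      intro _
      obtain ⟨K, hK⟩ := hG0
      obtain ⟨h1, h2, h3, h4⟩ := hG K hK
      exact ⟨{K}, by simpa using hK, by simp, bunP_single hk h1 h3 h4⟩
    | succ n ih =>
      intro hn
      obtain ⟨P, hPG, hPc, hP⟩ := ih (by omega)
      have hPne : P.Nonempty := Finset.card_pos.1 (by omega)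
      have hPG' : P ≠ G := by
        rintro rfl
        omega
      obtain ⟨K, hK, K', hK', p, hp, q, hq, hpq⟩ := hc P hPG hPne hPG'
      obtain ⟨hK'G, hK'P⟩ := Finset.mem_sdiff.1 hK'
      obtain ⟨h1, h2, h3, h4⟩ := hG K' hK'G
      refine ⟨insert K' P, Finset.insert_subset hK'G hPG, ?_, ?_⟩
      · rw [Finset.card_insert_of_notMem hK'P, hPc]
      · exact bunP_insert hk hδ hρ (fun L hL => (hG L (hPG hL)).2.2.1) h1 h3 h4 hK'P hK hp hq
          hpq hP
  have hGc : 1 ≤ G.card := Finset.card_pos.2 hG0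
  have hBG : BunP k δ ρ G := by
    obtain ⟨P, hPG, hPc, hP⟩ := hchain (G.card - 1) (by omega)
    have : P = G := Finset.eq_of_subset_of_card_le hPG (by omega)
    exact this ▸ hP
  choose Kf hKf zf hzf hzd using hy
  have hzH : ∀ l, zf l ∈ Hp k := fun l => (hG _ (hKf l)).2.2.1 (hzf l)
  have hi0 : (0 : Fin k) ∈ (Finset.univ : Finset (Fin k)) := Finset.mem_univ _
  have h1 := hBG Finset.univ zf (zf 0) ⟨0, hi0⟩ ⟨Kf 0, hKf 0, hzf 0⟩
    (fun i _ => ⟨Kf i, hKf i, hzf i⟩)
  have h2 : ∑ i, zf 0 i = 1 := hzH 0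
  have h3 : ∑ l : Fin k, wd k * (zf l l - y l l) ≤ k * ρ := by
    have : ∀ l ∈ (Finset.univ : Finset (Fin k)), wd k * (zf l l - y l l) ≤ ρ := by
      intro l _
      have := sum_le hk (hzH l) (hyH l) {l}
      simp only [Finset.sum_singleton] at this
      exact this.trans (hzd l)
    have h := Finset.sum_le_card_nsmul _ _ _ this
    simpa using h
  have h4 : ((Finset.univ.image zf).card : ℝ) ≤ k := by
    have : (Finset.univ.image zf).card ≤ k := by
      simpa using Finset.card_image_le (s := (Finset.univ : Finset (Fin k))) (f := zf)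
    exact_mod_cast this
  have h5 : wd k * (1 - ∑ l, y l l) =
      wd k * ∑ i, (zf 0 i - zf i i) + ∑ l : Fin k, wd k * (zf l l - y l l) := by
    rw [← Finset.mul_sum, ← mul_add, ← Finset.sum_add_distrib]
    congr 1
    rw [← h2, ← Finset.sum_sub_distrib]
    refine Finset.sum_congr rfl fun i _ => ?_
    ring
  have h6 : δ * (((Finset.univ.image zf).card : ℝ) - 1) ≤ δ * k :=
    mul_le_mul_of_nonneg_left (by linarith) hδ
  rw [h5]
  nlinarith

end SP
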