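import Pool.Agent.H59.SP.Mea

/-!
# Module L, first part: disjoint continua in a bounded set
-/

open MeasureTheory Metric Set Filter
open scoped Topology MeasureTheory

namespace SP

theorem ca_diam {X : Type*} [MetricSpace X] {K : Set X} (hK : IsCompact K) (hn : K.Nonempty) :
    ∃ p ∈ K, ∃ q ∈ K, dist p q = diam K := by
  obtain ⟨z, hz, hmax⟩ := (hK.prod hK).exists_isMaxOn (hn.prod hn)
    (continuous_dist.continuousOn (s := K ×ˢ K))
  refine ⟨z.1, hz.1, z.2, hz.2, le_antisymm (dist_le_diam_of_mem hK.isBounded hz.1 hz.2) ?_⟩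
  refine diam_le_of_forall_dist_le dist_nonneg fun x hx y hy => ?_
  exact hmax (show (x, y) ∈ K ×ˢ K from ⟨hx, hy⟩)

theorem ca_hp_closed (k : ℕ) : IsClosed (Hp k) := by
  have : Hp k = (fun x : V k => ∑ i, x i) ⁻¹' {1} := rfl
  rw [this]
  refine isClosed_singleton.preimage ?_
  fun_prop

theorem ca_thick {X : Type*} [MetricSpace X] (F : Finset (Set X))
    (h1 : ∀ K ∈ F, IsCompact K)
    (h2 : ∀ K ∈ F, ∀ K2 ∈ F, K ≠ K2 → Disjoint K K2) :
    ∃ δ : ℝ, 0 < δ ∧ ∀ K ∈ F, ∀ K2 ∈ F, K ≠ K2 →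
      Disjoint (cthickening δ K) (cthickening δ K2) := by
  classical
  have hev : ∀ᶠ δ : ℝ in 𝓝[>] 0, ∀ K ∈ F, ∀ K2 ∈ F, K ≠ K2 →
      Disjoint (cthickening δ K) (cthickening δ K2) := by
    rw [Finset.eventually_all]
    intro K hK
    rw [Finset.eventually_all]
    intro K2 hK2
    by_cases hne : K = K2
    · exact Filter.Eventually.of_forall fun _ h => absurd hne h
    · obtain ⟨δ, hδ, hd⟩ := (h2 K hK K2 hK2 hne).exists_cthickenings (h1 K hK) (h1 K2 hK2).isClosed
      have : Ioc (0:ℝ) δ ∈ 𝓝[>] (0:ℝ) := Ioc_mem_nhdsGT hδ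
      filter_upwards [this] with ε hε _
      exact hd.mono (cthickening_mono hε.2 _) (cthickening_mono hε.2 _)
  have hpos : ∀ᶠ δ : ℝ in 𝓝[>] 0, 0 < δ := eventually_mem_nhdsWithin
  obtain ⟨δ, h⟩ := (hpos.and hev).exists
  exact ⟨δ, h.1, h.2⟩

theorem pack_low {k : ℕ} (hk : 2 ≤ k) {A : Set (V k)} (hA : A ⊆ Hp k)
    (hb : Bornology.IsBounded A) (F : Finset (Set (V k)))
    (h1 : ∀ K ∈ F, IsCompact K ∧ IsConnected K ∧ K ⊆ A)
    (h2 : ∀ K ∈ F, ∀ K2 ∈ F, K ≠ K2 → Disjoint K K2) :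
    ∀ᶠ ε in 𝓝[>] (0:ℝ), (∑ K ∈ F, diam K) * (al (k - 2) * ε ^ (k - 2)) ≤
      (μHE[k - 1] (cthickening ε A ∩ Hp k)).toReal := by
  classical
  obtain ⟨δ, hδ, hd⟩ := ca_thick F (fun K hK => (h1 K hK).1) h2
  have : Ioc (0:ℝ) δ ∈ 𝓝[>] (0:ℝ) := Ioc_mem_nhdsGT hδ
  filter_upwards [this] with ε hε
  have hε0 : 0 < ε := hε.1
  have hc : 0 ≤ al (k - 2) * ε ^ (k - 2) := mul_nonneg (al_pos _).le (pow_nonneg hε0.le _)
  have hfin := mu_fin (k := k) hk hb ε
  have key : ENNReal.ofReal ((∑ K ∈ F, diam K) * (al (k - 2) * ε ^ (k - 2))) ≤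
      μHE[k - 1] (cthickening ε A ∩ Hp k) := by
    rw [Finset.sum_mul, ENNReal.ofReal_sum_of_nonneg (fun K _ => mul_nonneg diam_nonneg hc)]
    calc ∑ K ∈ F, ENNReal.ofReal (diam K * (al (k - 2) * ε ^ (k - 2)))
        ≤ ∑ K ∈ F, μHE[k - 1] (cthickening ε K ∩ Hp k) := by
          refine Finset.sum_le_sum fun K hK => ?_
          obtain ⟨hKc, hKn, hKA⟩ := h1 K hK
          obtain ⟨p, hp, q, hq, hpq⟩ := ca_diam hKc hKn.nonempty
          rw [← hpq]
          exact mu_lower hk (hKA.trans hA) hKn hp hq hε0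
      _ = μHE[k - 1] (⋃ K ∈ F, (cthickening ε K ∩ Hp k)) := by
          rw [measure_biUnion_finset]
          · intro K hK K2 hK2 hne
            exact ((hd K hK K2 hK2 hne).mono (cthickening_mono hε.2 _)
              (cthickening_mono hε.2 _)).mono inter_subset_left inter_subset_left
          · intro K _
            exact (isClosed_cthickening.inter (ca_hp_closed k)).measurableSet
      _ ≤ μHE[k - 1] (cthickening ε A ∩ Hp k) := by
          refine measure_mono (iUnion₂_subset fun K hK => ?_)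
          exact inter_subset_inter_left _ (cthickening_subset_of_subset ε (h1 K hK).2.2)
  rw [← ENNReal.ofReal_le_iff_le_toReal hfin.ne]
  exact key

/-- if the sets `K` of the finite family `F` are disjoint continua in `A`, then for small `ε` their
`ε`-neighbourhoods are disjoint and lie in the `ε`-neighbourhood of `A`; hence `liminf` of the
quotient is at least the sum of the diameters -/
theorem pack_of_content {k : ℕ} (hk : 2 ≤ k) {A : Set (V k)} (hA : A ⊆ Hp k)
    (hb : Bornology.IsBounded A) {L : ℝ} (hL : HasContent k 1 A L) : Pack A L := by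
  intro F h1 h2
  have hlow := pack_low hk hA hb F h1 h2
  have hpos : ∀ᶠ δ : ℝ in 𝓝[>] 0, 0 < δ := eventually_mem_nhdsWithin
  have hk2 : k - 1 - 1 = k - 2 := by omega
  unfold HasContent at hL
  rw [hk2] at hL
  refine ge_of_tendsto hL ?_
  filter_upwards [hlow, hpos] with ε h hε
  rw [le_div_iff₀ (mul_pos (al_pos _) (pow_pos hε _))]
  exact h

end SP
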