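import Pool.Agent.H59.SP.Topo

/-!
# Module N: a finite connected network of small disjoint subcontinua
-/

open Metric Set

namespace SP

/-- a point of the closed thickening of a compact set is close to a point of the set -/
theorem net_close {X : Type*} [MetricSpace X] {K : Set X} (hK : IsCompact K)
    {r : ℝ} (hr : 0 ≤ r) {z : X} (hz : z ∈ cthickening r K) : ∃ p ∈ K, dist z p ≤ r := by
  rw [hK.cthickening_eq_biUnion_closedBall hr] at hz
  obtain ⟨p, hp, hzp⟩ := mem_iUnion₂.1 hz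
  exact ⟨p, hp, hzp⟩

/-- Let `F` be as in `exists_family` and `y` finitely many points of `C`. For small `ρ` let
`C' = C \ ⋃ K ∈ F, thickening ρ K`. Nodes of the network: the members of `F`, for every pair
`K, K'` of members for which some component of `C'` meets `cthickening ρ K` and
`cthickening ρ K'` one such component, and for every `y l` in `C'` its component. So there are at
most `F.card + F.card ^ 2 + n` nodes. By `sep` the network is connected. It is enough to treat
small `ρ` (the statement for `ρ` follows from the one for a smaller number). -/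
theorem exists_net {X : Type*} [MetricSpace X] {C : Set X} (hC : IsCompact C)
    (hc : IsConnected C) {δ : ℝ} {F : Finset (Set X)} (hF0 : F.Nonempty)
    (hF : ∀ K ∈ F, IsCompact K ∧ IsConnected K ∧ K ⊆ C ∧ diam K ≤ δ)
    (hd : ∀ K ∈ F, ∀ K' ∈ F, K ≠ K' → Disjoint K K')
    (hR : ∀ R : Set X, IsCompact R → IsConnected R → R ⊆ C → (∀ K ∈ F, Disjoint R K) →
      diam R ≤ δ) {n : ℕ} (y : Fin n → X) (hy : ∀ l, y l ∈ C) :
    ∃ M : ℕ, ∀ ρ > 0, ∃ G : Finset (Set X), G.card ≤ M ∧ G.Nonempty ∧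
      (∀ K ∈ G, IsCompact K ∧ IsConnected K ∧ K ⊆ C ∧ diam K ≤ δ) ∧
      (∀ K ∈ G, ∀ K' ∈ G, K ≠ K' → Disjoint K K') ∧
      (∀ P ⊆ G, P.Nonempty → P ≠ G → ∃ K ∈ P, ∃ K' ∈ G \ P, ∃ p ∈ K, ∃ q ∈ K', dist p q ≤ ρ) ∧
      ∀ l, ∃ K ∈ G, ∃ p ∈ K, dist p (y l) ≤ ρ := by
  classical
  refine ⟨F.card + F.card * F.card + n, fun ρ hρ => ?_⟩
  obtain ⟨r, hr, hrρ⟩ : ∃ r : ℝ, 0 < r ∧ r + r = ρ := ⟨ρ / 2, by linarith, by ring⟩
  obtain ⟨U, hUdef⟩ : ∃ U : Set X, U = ⋃ K ∈ F, thickening r K := ⟨_, rfl⟩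
  have hU : IsOpen U := by
    rw [hUdef]
    exact isOpen_biUnion fun K _ => isOpen_thickening
  have hKU : ∀ K ∈ F, K ⊆ U := by
    intro K hK
    rw [hUdef]
    exact (self_subset_thickening hr K).trans (subset_biUnion_of_mem (u := thickening r) hK)
  obtain ⟨C', hC'def⟩ : ∃ C' : Set X, C' = C \ U := ⟨_, rfl⟩
  have hC' : IsCompact C' := by
    rw [hC'def]
    exact hC.diff hU
  have hC'C : C' ⊆ C := by
    rw [hC'def]
    exact fun z hz => hz.1
  -- the components
  have hcoC : ∀ x, connectedComponentIn C' x ⊆ C' := fun x => connectedComponentIn_subset _ _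
  have hcoF : ∀ x, ∀ K ∈ F, Disjoint (connectedComponentIn C' x) K := by
    intro x K hK
    rw [Set.disjoint_left]
    intro z hz hzK
    have h1 := hcoC x hz
    rw [hC'def] at h1
    exact h1.2 (hKU K hK hzK)
  have hco : ∀ x ∈ C', IsCompact (connectedComponentIn C' x) ∧
      IsConnected (connectedComponentIn C' x) ∧ connectedComponentIn C' x ⊆ C ∧
      diam (connectedComponentIn C' x) ≤ δ := by
    intro x hx
    obtain ⟨h1, h2⟩ := comp_compact hC' hx
    exact ⟨h1, h2, (hcoC x).trans hC'C, hR _ h1 h2 ((hcoC x).trans hC'C) (hcoF x)⟩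
  -- pairs of members touched by a common component
  obtain ⟨x0, hx0⟩ := hc.nonempty
  obtain ⟨T, hT⟩ : ∃ T : Set X × Set X → X → Prop, ∀ q x, T q x ↔ (x ∈ C' ∧
      (connectedComponentIn C' x ∩ cthickening r q.1).Nonempty ∧
      (connectedComponentIn C' x ∩ cthickening r q.2).Nonempty) := ⟨_, fun _ _ => Iff.rfl⟩
  have hpick : ∀ q, ∃ x, (∃ x, T q x) → T q x := by
    intro q
    by_cases h : ∃ x, T q x
    · exact ⟨h.choose, fun _ => h.choose_spec⟩
    · exact ⟨x0, fun h' => absurd h' h⟩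
  choose pick hpick using hpick
  obtain ⟨G, hG⟩ : ∃ G : Finset (Set X), G = F ∪
      (((F ×ˢ F).filter (fun q => ∃ x, T q x)).image (fun q => connectedComponentIn C' (pick q)) ∪
      (Finset.univ.filter (fun l => y l ∈ C')).image (fun l => connectedComponentIn C' (y l))) :=
    ⟨_, rfl⟩
  have hFG : F ⊆ G := by
    rw [hG]
    exact Finset.subset_union_left
  have hpickG : ∀ K ∈ F, ∀ K' ∈ F, (∃ x, T (K, K') x) →
      connectedComponentIn C' (pick (K, K')) ∈ G := by
    intro K hK K' hK' h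
    rw [hG, Finset.mem_union, Finset.mem_union]
    refine Or.inr (Or.inl ?_)
    rw [Finset.mem_image]
    exact ⟨(K, K'), Finset.mem_filter.2 ⟨Finset.mk_mem_product hK hK', h⟩, rfl⟩
  have hyG : ∀ l, y l ∈ C' → connectedComponentIn C' (y l) ∈ G := by
    intro l hl
    rw [hG, Finset.mem_union, Finset.mem_union]
    refine Or.inr (Or.inr ?_)
    rw [Finset.mem_image]
    exact ⟨l, Finset.mem_filter.2 ⟨Finset.mem_univ _, hl⟩, rfl⟩
  have hGcases : ∀ K ∈ G, K ∈ F ∨ ∃ x ∈ C', K = connectedComponentIn C' x := by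
    intro K hK
    rw [hG, Finset.mem_union, Finset.mem_union, Finset.mem_image, Finset.mem_image] at hK
    rcases hK with hK | ⟨q, hq, rfl⟩ | ⟨l, hl, rfl⟩
    · exact Or.inl hK
    · refine Or.inr ⟨pick q, ?_, rfl⟩
      exact ((hT _ _).1 (hpick q (Finset.mem_filter.1 hq).2)).1
    · exact Or.inr ⟨y l, (Finset.mem_filter.1 hl).2, rfl⟩
  have hnode : ∀ K ∈ G, IsCompact K ∧ IsConnected K ∧ K ⊆ C ∧ diam K ≤ δ := by
    intro K hK
    rcases hGcases K hK with h | ⟨x, hx, rfl⟩
    · exact hF K h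
    · exact hco x hx
  -- every component is close to a member of `F`
  have hbump : ∀ x ∈ C', ∃ K ∈ F, ∃ z ∈ connectedComponentIn C' x, ∃ p ∈ K, dist z p ≤ r := by
    intro x hx
    obtain ⟨K0, hK0⟩ := hF0
    obtain ⟨a, ha⟩ := (hF K0 hK0).2.1.nonempty
    have hb := bump (U := U) hC hc hU ⟨a, (hF K0 hK0).2.2.1 ha, hKU K0 hK0 ha⟩
      (x := x) (by rw [← hC'def]; exact hx)
    rw [← hC'def] at hb
    obtain ⟨z, hz, hzU⟩ := hb
    have hclos : closure U ⊆ ⋃ K ∈ F, cthickening r K := by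
      rw [hUdef]
      refine closure_minimal ?_ ?_
      · exact iUnion₂_mono fun K _ => thickening_subset_cthickening r K
      · exact F.finite_toSet.isClosed_biUnion fun K _ => isClosed_cthickening
    obtain ⟨K, hK, hzK⟩ := mem_iUnion₂.1 (hclos hzU)
    obtain ⟨p, hp, hzp⟩ := net_close (hF K hK).1 hr.le hzK
    exact ⟨K, hK, z, hz, p, hp, hzp⟩
  refine ⟨G, ?_, ?_, hnode, ?_, ?_, ?_⟩
  · -- cardinality
    rw [hG]
    refine (Finset.card_union_le _ _).trans ?_
    have h1 : (((F ×ˢ F).filter (fun q => ∃ x, T q x)).image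
        (fun q => connectedComponentIn C' (pick q))).card ≤ F.card * F.card := by
      refine Finset.card_image_le.trans ((Finset.card_filter_le _ _).trans ?_)
      rw [Finset.card_product]
    have h2 : ((Finset.univ.filter (fun l => y l ∈ C')).image
        (fun l => connectedComponentIn C' (y l))).card ≤ n := by
      refine Finset.card_image_le.trans ((Finset.card_filter_le _ _).trans ?_)
      rw [Finset.card_univ, Fintype.card_fin]
    have h3 := Finset.card_union_le
      (((F ×ˢ F).filter (fun q => ∃ x, T q x)).image (fun q => connectedComponentIn C' (pick q)))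
      ((Finset.univ.filter (fun l => y l ∈ C')).image (fun l => connectedComponentIn C' (y l)))
    omega
  · exact hF0.mono hFG
  · -- disjointness
    intro K hK K' hK' hne
    rcases hGcases K hK with h | ⟨x, hx, rfl⟩
    · rcases hGcases K' hK' with h' | ⟨x', hx', rfl⟩
      · exact hd K h K' h' hne
      · exact (hcoF x' K h).symm
    · rcases hGcases K' hK' with h' | ⟨x', hx', rfl⟩
      · exact hcoF x K' h'
      · rw [Set.disjoint_left]
        intro z hz hz'
        exact hne ((connectedComponentIn_eq hz).trans (connectedComponentIn_eq hz').symm)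
  · -- the network is connected
    intro P hPG hP0 hPne
    by_contra hcon
    push Not at hcon
    -- no close pair
    have hcl : ∀ K ∈ G, ∀ K' ∈ G, (∃ p ∈ K, ∃ q ∈ K', dist p q ≤ ρ) → (K ∈ P ↔ K' ∈ P) := by
      intro K hK K' hK' ⟨p, hp, q, hq, hpq⟩
      constructor
      · intro h
        by_contra h'
        exact absurd hpq (not_le.2 (hcon K h K' (Finset.mem_sdiff.2 ⟨hK', h'⟩) p hp q hq))
      · intro h
        by_contra h'
        rw [dist_comm] at hpq
        exact absurd hpq (not_le.2 (hcon K' h K (Finset.mem_sdiff.2 ⟨hK, h'⟩) q hq p hp))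
    -- every node is in the same part as some member of `F`
    have hnear : ∀ K ∈ G, ∃ K' ∈ F, (K ∈ P ↔ K' ∈ P) := by
      intro K hK
      rcases hGcases K hK with h | ⟨x, hx, rfl⟩
      · exact ⟨K, h, Iff.rfl⟩
      · obtain ⟨K', hK', z, hz, p, hp, hzp⟩ := hbump x hx
        exact ⟨K', hK', hcl _ hK K' (hFG hK') ⟨z, hz, p, hp, by linarith⟩⟩
    obtain ⟨K1, hK1F, hK1P⟩ : ∃ K ∈ F, K ∈ P := by
      obtain ⟨K, hK⟩ := hP0
      obtain ⟨K', hK', h⟩ := hnear K (hPG hK)
      exact ⟨K', hK', h.1 hK⟩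
    obtain ⟨K2, hK2F, hK2P⟩ : ∃ K ∈ F, K ∉ P := by
      obtain ⟨K, hK, hKP⟩ : ∃ K ∈ G, K ∉ P := by
        by_contra hcon'
        push Not at hcon'
        exact hPne (Finset.Subset.antisymm hPG hcon')
      obtain ⟨K', hK', h⟩ := hnear K hK
      exact ⟨K', hK', fun h' => hKP (h.2 h')⟩
    -- the two closed sets
    obtain ⟨A, hA⟩ : ∃ A : Set X, A = ⋃ K ∈ F.filter (· ∈ P), cthickening r K := ⟨_, rfl⟩
    obtain ⟨B, hB⟩ : ∃ B : Set X, B = ⋃ K ∈ F.filter (· ∉ P), cthickening r K := ⟨_, rfl⟩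
    have hAc : IsClosed A := by
      rw [hA]
      exact (F.filter (· ∈ P)).finite_toSet.isClosed_biUnion fun K _ => isClosed_cthickening
    have hBc : IsClosed B := by
      rw [hB]
      exact (F.filter (· ∉ P)).finite_toSet.isClosed_biUnion fun K _ => isClosed_cthickening
    have hAmem : ∀ z ∈ A, ∃ K ∈ F, K ∈ P ∧ z ∈ cthickening r K := by
      intro z hz
      rw [hA] at hz
      obtain ⟨K, hK, hzK⟩ := mem_iUnion₂.1 hz
      obtain ⟨h1, h2⟩ := Finset.mem_filter.1 hK
      exact ⟨K, h1, h2, hzK⟩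
    have hBmem : ∀ z ∈ B, ∃ K ∈ F, K ∉ P ∧ z ∈ cthickening r K := by
      intro z hz
      rw [hB] at hz
      obtain ⟨K, hK, hzK⟩ := mem_iUnion₂.1 hz
      obtain ⟨h1, h2⟩ := Finset.mem_filter.1 hK
      exact ⟨K, h1, h2, hzK⟩
    have hABd : Disjoint A B := by
      rw [Set.disjoint_left]
      intro z hzA hzB
      obtain ⟨K, hK, hKP, hzK⟩ := hAmem z hzA
      obtain ⟨K', hK', hKP', hzK'⟩ := hBmem z hzB
      obtain ⟨p, hp, hzp⟩ := net_close (hF K hK).1 hr.le hzK
      obtain ⟨q, hq, hzq⟩ := net_close (hF K' hK').1 hr.le hzK'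
      refine hKP' ((hcl K (hFG hK) K' (hFG hK') ⟨p, hp, q, hq, ?_⟩).1 hKP)
      have := dist_triangle_left p q z
      linarith
    have hUAB : U ⊆ A ∪ B := by
      intro z hz
      rw [hUdef] at hz
      obtain ⟨K, hK, hzK⟩ := mem_iUnion₂.1 hz
      by_cases hKP : K ∈ P
      · left
        rw [hA]
        exact mem_iUnion₂.2 ⟨K, Finset.mem_filter.2 ⟨hK, hKP⟩,
          thickening_subset_cthickening r K hzK⟩
      · right
        rw [hB]
        exact mem_iUnion₂.2 ⟨K, Finset.mem_filter.2 ⟨hK, hKP⟩,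
          thickening_subset_cthickening r K hzK⟩
    have hK1A : K1 ⊆ A := by
      intro z hz
      rw [hA]
      exact mem_iUnion₂.2 ⟨K1, Finset.mem_filter.2 ⟨hK1F, hK1P⟩, self_subset_cthickening K1 hz⟩
    have hK2B : K2 ⊆ B := by
      intro z hz
      rw [hB]
      exact mem_iUnion₂.2 ⟨K2, Finset.mem_filter.2 ⟨hK2F, hK2P⟩, self_subset_cthickening K2 hz⟩
    by_cases htouch : ∀ x ∈ C' ∩ A, ∀ z ∈ C' ∩ B, z ∉ connectedComponentIn C' x
    · -- `C` splits
      obtain ⟨P', Q', hP', hQ', hd', hPQ', hAP', hBQ'⟩ := sep hC' (hC'.isClosed.inter hAc)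
        (hC'.isClosed.inter hBc) inter_subset_left inter_subset_left htouch
      obtain ⟨a, ha⟩ := (hF K1 hK1F).2.1.nonempty
      obtain ⟨b, hb⟩ := (hF K2 hK2F).2.1.nonempty
      refine topo_split hc (hP'.union (hC.isClosed.inter hAc)) (hQ'.union (hC.isClosed.inter hBc))
        ?_ ?_ ⟨a, (hF K1 hK1F).2.2.1 ha, Or.inr ⟨(hF K1 hK1F).2.2.1 ha, hK1A ha⟩⟩
        ⟨b, (hF K2 hK2F).2.2.1 hb, Or.inr ⟨(hF K2 hK2F).2.2.1 hb, hK2B hb⟩⟩
      · intro z hz
        by_cases hzU : z ∈ U
        · rcases hUAB hzU with h | h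
          · exact Or.inl (Or.inr ⟨hz, h⟩)
          · exact Or.inr (Or.inr ⟨hz, h⟩)
        · have hzC' : z ∈ C' := by
            rw [hC'def]
            exact ⟨hz, hzU⟩
          rw [← hPQ'] at hzC'
          rcases hzC' with h | h
          · exact Or.inl (Or.inl h)
          · exact Or.inr (Or.inl h)
      · rw [Set.disjoint_left]
        rintro z (hz | ⟨hz, hzA⟩) (hz' | ⟨hz', hzB⟩)
        · exact Set.disjoint_left.1 hd' hz hz'
        · exact Set.disjoint_left.1 hd' hz (hBQ' ⟨hPQ' ▸ Or.inl hz, hzB⟩)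
        · exact Set.disjoint_left.1 hd' (hAP' ⟨hPQ' ▸ Or.inr hz', hzA⟩) hz'
        · exact Set.disjoint_left.1 hABd hzA hzB
    · -- a component touches both parts
      push Not at htouch
      obtain ⟨x, ⟨hxC, hxA⟩, z, ⟨hzC, hzB⟩, hzx⟩ := htouch
      obtain ⟨K, hK, hKP, hxK⟩ := hAmem x hxA
      obtain ⟨K', hK', hKP', hzK'⟩ := hBmem z hzB
      have hTx : ∃ x, T (K, K') x :=
        ⟨x, (hT _ _).2 ⟨hxC, ⟨x, mem_connectedComponentIn hxC, hxK⟩, ⟨z, hzx, hzK'⟩⟩⟩
      have hRG := hpickG K hK K' hK' hTx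
      obtain ⟨-, ⟨a, haR, haK⟩, ⟨b, hbR, hbK'⟩⟩ := (hT _ _).1 (hpick (K, K') hTx)
      obtain ⟨p, hp, hap⟩ := net_close (hF K hK).1 hr.le haK
      obtain ⟨q, hq, hbq⟩ := net_close (hF K' hK').1 hr.le hbK'
      have h1 := hcl _ hRG K (hFG hK) ⟨a, haR, p, hp, by linarith⟩
      have h2 := hcl _ hRG K' (hFG hK') ⟨b, hbR, q, hq, by linarith⟩
      exact hKP' (h2.1 (h1.2 hKP))
  · -- the points
    intro l
    by_cases hl : y l ∈ C'
    · exact ⟨_, hyG l hl, y l, mem_connectedComponentIn hl, by rw [dist_self]; exact hρ.le⟩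
    · have hlU : y l ∈ U := by
        by_contra h
        apply hl
        rw [hC'def]
        exact ⟨hy l, h⟩
      rw [hUdef] at hlU
      obtain ⟨K, hK, hlK⟩ := mem_iUnion₂.1 hlU
      obtain ⟨p, hp, hlp⟩ := mem_thickening_iff.1 hlK
      refine ⟨K, hFG hK, p, hp, ?_⟩
      rw [dist_comm]
      linarith

end SP
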