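import Pool.Agent.H59.SP.Fam
import Pool.Agent.H59.SP.Net
import Pool.Agent.H59.SP.Bun

/-!
# Module C: a continuum which meets all facets is long
-/

open Metric Set

namespace SP

theorem cont_ge {k : ℕ} (hk : 2 ≤ k) {C : Set (V k)} (hC : IsCompact C) (hc : IsConnected C)
    (hH : C ⊆ Hp k) (hf : ∀ l, ∃ x ∈ C, x l = 0) {c : ℝ} (hp : Pack C c) : wd k ≤ c := by
  choose y hyC hy0 using hf
  have hk0 : (0 : ℝ) < k := by exact_mod_cast (show 0 < k by omega)
  have key : ∀ δ > 0, wd k ≤ c + k * δ := by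
    intro δ hδ
    obtain ⟨F, hF0, hF, hd, hR⟩ := exists_family hC hc hp hδ
    obtain ⟨M, hM⟩ := exists_net hC hc hF0 hF hd hR y hyC
    have h1 : ∀ ρ > 0, wd k ≤ c + k * δ + (M + k) * ρ := by
      intro ρ hρ
      obtain ⟨G, hGM, hG0, hG, hGd, hGc, hGy⟩ := hM ρ hρ
      have h2 := net_bound hk hδ.le hρ.le (fun K hK => ⟨(hG K hK).1, (hG K hK).2.1.nonempty,
        (hG K hK).2.2.1.trans hH, (hG K hK).2.2.2⟩) hG0 hGc y (fun l => hH (hyC l)) hGy
      have h3 : ∑ K ∈ G, diam K ≤ c :=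
        hp G (fun K hK => ⟨(hG K hK).1, (hG K hK).2.1, (hG K hK).2.2.1⟩) hGd
      have h4 : ∑ l, y l l = 0 := Finset.sum_eq_zero fun l _ => hy0 l
      rw [h4, sub_zero, mul_one] at h2
      have h5 : (G.card : ℝ) ≤ M := by exact_mod_cast hGM
      have h6 : ((G.card : ℝ) + k) * ρ ≤ (M + k) * ρ :=
        mul_le_mul_of_nonneg_right (by linarith) hρ.le
      linarith
    refine le_of_forall_pos_le_add fun ε hε => ?_
    have hMk : (0 : ℝ) < M + k := by positivity
    have h2 := h1 (ε / (M + k)) (by positivity)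
    rwa [mul_div_cancel₀ _ hMk.ne'] at h2
  refine le_of_forall_pos_le_add fun ε hε => ?_
  have h2 := key (ε / k) (by positivity)
  rwa [mul_div_cancel₀ _ hk0.ne'] at h2

end SP
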