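import Mathlib

/-!
# Sperner partitions of the simplex: definitions
-/

open MeasureTheory Metric Set Filter
open scoped Topology MeasureTheory

namespace SP

/-- the ambient Euclidean space -/
abbrev V (k : ℕ) := EuclideanSpace ℝ (Fin k)

/-- the affine hull `H` of the simplex -/
def Hp (k : ℕ) : Set (V k) := {x | ∑ i, x i = 1}

/-- the simplex -/
def Sx (k : ℕ) : Set (V k) := {x | (∀ i, 0 ≤ x i) ∧ ∑ i, x i = 1}

/-- the volume of the unit ball of `ℝ ^ m` (equal to `1` for `m = 0`) -/
noncomputable def al (m : ℕ) : ℝ := (volume (closedBall (0 : EuclideanSpace ℝ (Fin m)) 1)).toReal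

/-- `A` has `l`-dimensional Minkowski content `L` in the affine hull `H` (of dimension `k - 1`);
`μHE[k - 1]` is the `k - 1`-dimensional Euclidean Hausdorff measure, that is Lebesgue measure
on `H`, and `cthickening ε A ∩ Hp k` is the closed `ε`-neighbourhood of `A` in `H`. -/
def HasContent (k l : ℕ) (A : Set (V k)) (L : ℝ) : Prop :=
  Tendsto (fun ε : ℝ => (μHE[k - 1] (cthickening ε A ∩ Hp k)).toReal /
    (al (k - 1 - l) * ε ^ (k - 1 - l))) (𝓝[>] 0) (𝓝 L)

/-- closed covers of the simplex with `x i > 0` on the `i`-th set -/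
structure Adm0 (k : ℕ) (A : Fin k → Set (V k)) : Prop where
  closed : ∀ i, IsClosed (A i)
  cover : ⋃ i, A i = Sx k
  pos : ∀ i, ∀ x ∈ A i, 0 < x i

/-- Sperner-admissible partitions: moreover the sets overlap only on their boundaries (in the
simplex): every point of `A i ∩ A j` is a limit of points of the simplex outside `A i`. -/
structure Adm (k : ℕ) (A : Fin k → Set (V k)) : Prop extends Adm0 k A where
  overlap : ∀ i j, i ≠ j → A i ∩ A j ⊆ closure (Sx k \ A i)

/-- the set of points which lie in at least `j` of the sets -/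
def meet (k : ℕ) (A : Fin k → Set (V k)) (j : ℕ) : Set (V k) :=
  {x | ∃ T : Finset (Fin k), j ≤ T.card ∧ ∀ i ∈ T, x ∈ A i}

/-- the minimal length `√(1 / ⌊k/2⌋ + 1 / ⌈k/2⌉)` -/
noncomputable def wd (k : ℕ) : ℝ := Real.sqrt (1 / ((k / 2 : ℕ) : ℝ) + 1 / (((k + 1) / 2 : ℕ) : ℝ))

/-- the sum of the diameters of finitely many disjoint subcontinua of `C` is at most `c` -/
def Pack {X : Type*} [MetricSpace X] (C : Set X) (c : ℝ) : Prop :=
  ∀ F : Finset (Set X), (∀ K ∈ F, IsCompact K ∧ IsConnected K ∧ K ⊆ C) →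
    (∀ K ∈ F, ∀ K' ∈ F, K ≠ K' → Disjoint K K') → ∑ K ∈ F, diam K ≤ c

end SP
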