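import Pool.Agent.H59.SP.Topo

/-!
# Module F: a finite family of small disjoint subcontinua with small remainders
-/

open Metric Set

namespace SP

/-- families of disjoint subcontinua with diameters in `[δ / 2, δ]` -/
def FamOk {X : Type*} [MetricSpace X] (C : Set X) (δ : ℝ) (F : Finset (Set X)) : Prop :=
  (∀ K ∈ F, IsCompact K ∧ IsConnected K ∧ K ⊆ C ∧ δ / 2 ≤ diam K ∧ diam K ≤ δ) ∧
    ∀ K ∈ F, ∀ K' ∈ F, K ≠ K' → Disjoint K K'

theorem fam_card {X : Type*} [MetricSpace X] {C : Set X} {c : ℝ} (hp : Pack C c) {δ : ℝ}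
    {F : Finset (Set X)} (hF : FamOk C δ F) : (F.card : ℝ) * (δ / 2) ≤ c := by
  have h1 : ∑ K ∈ F, diam K ≤ c :=
    hp F (fun K hK => ⟨(hF.1 K hK).1, (hF.1 K hK).2.1, (hF.1 K hK).2.2.1⟩) hF.2
  have h2 : ∑ _K ∈ F, δ / 2 ≤ ∑ K ∈ F, diam K :=
    Finset.sum_le_sum fun K hK => (hF.1 K hK).2.2.2.1
  rw [Finset.sum_const, nsmul_eq_mul] at h2
  exact h2.trans h1

theorem fam_max {X : Type*} [MetricSpace X] {C : Set X} {c : ℝ} (hp : Pack C c) {δ : ℝ}
    (hδ : 0 < δ) : ∃ F : Finset (Set X), FamOk C δ F ∧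
      ∀ F' : Finset (Set X), FamOk C δ F' → F'.card ≤ F.card := by
  classical
  set S : Set ℕ := {n | ∃ F : Finset (Set X), F.card = n ∧ FamOk C δ F} with hS
  have hne : S.Nonempty := ⟨0, ∅, rfl, by constructor <;> simp⟩
  have hbd : BddAbove S := by
    refine ⟨⌊c / (δ / 2)⌋₊, ?_⟩
    rintro n ⟨F, rfl, hF⟩
    apply Nat.le_floor
    rw [le_div_iff₀ (by positivity)]
    exact fam_card hp hF
  obtain ⟨F, hFc, hF⟩ := Nat.sSup_mem hne hbd
  refine ⟨F, hF, fun F' hF' => ?_⟩
  rw [hFc]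
  exact le_csSup hbd ⟨F', rfl, hF'⟩

/-- a subcontinuum disjoint from a family of maximal cardinality is small -/
theorem fam_small {X : Type*} [MetricSpace X] {C : Set X} {δ : ℝ} (hδ : 0 < δ)
    {F : Finset (Set X)} (hF : FamOk C δ F)
    (hmax : ∀ F' : Finset (Set X), FamOk C δ F' → F'.card ≤ F.card)
    {R : Set X} (hR : IsCompact R) (hRc : IsConnected R) (hRC : R ⊆ C)
    (hd : ∀ K ∈ F, Disjoint R K) : diam R ≤ δ := by
  classical
  by_contra hcon
  push Not at hcon
  obtain ⟨p, hp, q, hq, hpq⟩ : ∃ p ∈ R, ∃ q ∈ R, δ < dist p q := by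
    by_contra h
    push Not at h
    exact absurd (diam_le_of_forall_dist_le hδ.le h) (not_le.mpr hcon)
  obtain ⟨K, hKR, hK, hKc, hpK, z, hz, hpz⟩ :=
    reach hR hRc hp hq (r := δ / 2) (by positivity) (by linarith)
  have hKsub : K ⊆ R := fun x hx => (hKR hx).1
  have hKball : K ⊆ closedBall p (δ / 2) := fun x hx => (hKR hx).2
  have hdl : δ / 2 ≤ diam K := by
    rw [← hpz]
    exact dist_le_diam_of_mem hK.isBounded hpK hz
  have hdu : diam K ≤ δ := by
    calc diam K ≤ diam (closedBall p (δ / 2)) := diam_mono hKball isBounded_closedBall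
      _ ≤ 2 * (δ / 2) := diam_closedBall (by positivity)
      _ = δ := by ring
  have hKF : K ∉ F := by
    intro h
    exact (Set.disjoint_left.mp (hd K h)) hp hpK
  have hnew : FamOk C δ (insert K F) := by
    constructor
    · intro L hL
      rcases Finset.mem_insert.mp hL with rfl | hL
      · exact ⟨hK, hKc, hKsub.trans hRC, hdl, hdu⟩
      · exact hF.1 L hL
    · intro L hL L' hL' hne
      rcases Finset.mem_insert.mp hL with h1 | h1
      · rcases Finset.mem_insert.mp hL' with h2 | h2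
        · exact absurd (h1.trans h2.symm) hne
        · rw [h1]
          exact (hd L' h2).mono_left hKsub
      · rcases Finset.mem_insert.mp hL' with h2 | h2
        · rw [h2]
          exact ((hd L h1).mono_left hKsub).symm
        · exact hF.2 L h1 L' h2 hne
  have := hmax _ hnew
  rw [Finset.card_insert_of_notMem hKF] at this
  omega

/-- take a family of disjoint subcontinua with diameters in `[δ / 2, δ]` of maximal cardinality
(at most `2 * c / δ`); by `reach` a subcontinuum disjoint from it has diameter at most `δ` -/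
theorem exists_family {X : Type*} [MetricSpace X] {C : Set X} (hC : IsCompact C)
    (hc : IsConnected C) {c : ℝ} (hp : Pack C c) {δ : ℝ} (hδ : 0 < δ) :
    ∃ F : Finset (Set X), F.Nonempty ∧
      (∀ K ∈ F, IsCompact K ∧ IsConnected K ∧ K ⊆ C ∧ diam K ≤ δ) ∧
      (∀ K ∈ F, ∀ K' ∈ F, K ≠ K' → Disjoint K K') ∧
      ∀ R : Set X, IsCompact R → IsConnected R → R ⊆ C → (∀ K ∈ F, Disjoint R K) →
        diam R ≤ δ := by
  classical
  obtain ⟨F, hF, hmax⟩ := fam_max hp hδ
  rcases F.eq_empty_or_nonempty with rfl | hne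
  · refine ⟨{C}, Finset.singleton_nonempty C, ?_, ?_, ?_⟩
    · intro K hK
      rw [Finset.mem_singleton] at hK
      subst hK
      exact ⟨hC, hc, subset_rfl, fam_small hδ hF hmax hC hc subset_rfl (by simp)⟩
    · intro K hK K' hK' hne
      rw [Finset.mem_singleton] at hK hK'
      exact absurd (hK.trans hK'.symm) hne
    · intro R _ hRc hRC hd
      exfalso
      obtain ⟨x, hx⟩ := hRc.nonempty
      exact (Set.disjoint_left.mp (hd C (Finset.mem_singleton_self C))) hx (hRC hx)
  · exact ⟨F, hne, fun K hK => ⟨(hF.1 K hK).1, (hF.1 K hK).2.1, (hF.1 K hK).2.2.1,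
      (hF.1 K hK).2.2.2.2⟩, hF.2, fun R hR hRc hRC hd => fam_small hδ hF hmax hR hRc hRC hd⟩

end SP
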