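import Pool.Agent.H59.SP.Brou2
import Pool.Agent.H59.SP.Defs

/-!
# Module K3: the theorem of Knaster, Kuratowski and Mazurkiewicz
-/

open Metric Set

namespace SP

theorem kkm_Sx_closed (k : ℕ) : IsClosed (Sx k) := by
  have h1 : IsClosed {x : V k | ∀ i, 0 ≤ x i} := by
    have : {x : V k | ∀ i, 0 ≤ x i} = ⋂ i, {x : V k | 0 ≤ x i} := by
      ext x; simp
    rw [this]
    exact isClosed_iInter fun i => isClosed_le continuous_const (by fun_prop)
  have h2 : IsClosed {x : V k | ∑ i, x i = 1} :=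
    isClosed_eq (by fun_prop) continuous_const
  exact h1.inter h2

theorem kkm_Sx_compact (k : ℕ) : IsCompact (Sx k) := by
  apply Metric.isCompact_of_isClosed_isBounded (kkm_Sx_closed k)
  rw [isBounded_iff_forall_norm_le]
  refine ⟨1, fun x hx => ?_⟩
  have h1 : ∀ i, x i ≤ 1 := fun i => by
    rw [← hx.2]
    exact Finset.single_le_sum (fun j _ => hx.1 j) (Finset.mem_univ i)
  rw [EuclideanSpace.norm_eq]
  apply Real.sqrt_le_one.2
  calc ∑ i, ‖x i‖ ^ 2 ≤ ∑ i, x i := by
        apply Finset.sum_le_sum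
        intro i _
        rw [Real.norm_of_nonneg (hx.1 i)]
        nlinarith [hx.1 i, h1 i]
    _ = 1 := hx.2

theorem kkm_Sx_convex (k : ℕ) : Convex ℝ (Sx k) := by
  intro x hx y hy a b ha hb hab
  refine ⟨fun i => ?_, ?_⟩
  · have h1 := hx.1 i
    have h2 := hy.1 i
    simp only [PiLp.add_apply, PiLp.smul_apply, smul_eq_mul]
    positivity
  · simp only [PiLp.add_apply, PiLp.smul_apply, smul_eq_mul]
    rw [Finset.sum_add_distrib, ← Finset.mul_sum, ← Finset.mul_sum, hx.2, hy.2]
    linarith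

theorem kkm_vertex {k : ℕ} (i : Fin k) : EuclideanSpace.single i (1 : ℝ) ∈ Sx k := by
  refine ⟨fun j => ?_, ?_⟩
  · by_cases h : j = i <;> simp [h]
  · simp

/-- if the sets have no common point, the map `x ↦ (dist x (A i)) / ∑ j, dist x (A j)` has no
fixed point -/
theorem kkm {k : ℕ} (hk : 1 ≤ k) (A : Fin k → Set (V k)) (hA : ∀ i, IsClosed (A i))
    (hc : Sx k ⊆ ⋃ i, A i) (hp : ∀ i, ∀ x ∈ A i, x ∈ Sx k → 0 < x i) :
    ∃ x ∈ Sx k, ∀ i, x ∈ A i := by
  classical
  by_contra hcon
  push Not at hcon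
  have hne : ∀ i, (A i).Nonempty := by
    intro i
    obtain ⟨j, hj⟩ := Set.mem_iUnion.1 (hc (kkm_vertex i))
    have h := hp j _ hj (kkm_vertex i)
    by_cases hij : j = i
    · subst hij
      exact ⟨_, hj⟩
    · simp [hij] at h
  have hnn : ∀ (x : V k) i, 0 ≤ infDist x (A i) := fun x i => infDist_nonneg
  have hS : ∀ x ∈ Sx k, 0 < ∑ i, infDist x (A i) := by
    intro x hx
    obtain ⟨i, hi⟩ := hcon x hx
    refine Finset.sum_pos' (fun j _ => hnn x j) ⟨i, Finset.mem_univ i, ?_⟩
    exact ((hA i).notMem_iff_infDist_pos (hne i)).1 hi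
  set f : V k → V k := fun x =>
    WithLp.toLp 2 fun i => infDist x (A i) / ∑ j, infDist x (A j) with hf
  have hfc : ContinuousOn f (Sx k) := by
    rw [hf]
    have h1 : ContinuousOn (fun x : V k => fun i : Fin k =>
        infDist x (A i) / ∑ j, infDist x (A j)) (Sx k) := by
      rw [continuousOn_pi]
      intro i
      apply ContinuousOn.div
      · exact (continuous_infDist_pt _).continuousOn
      · exact (continuous_finset_sum _ fun j _ => continuous_infDist_pt _).continuousOn
      · intro x hx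
        exact (hS x hx).ne'
    exact (PiLp.continuous_toLp 2 _).comp_continuousOn h1
  have hfm : MapsTo f (Sx k) (Sx k) := by
    intro x hx
    have hpos := hS x hx
    refine ⟨fun i => ?_, ?_⟩
    · exact div_nonneg (hnn x i) hpos.le
    · show ∑ i, infDist x (A i) / ∑ j, infDist x (A j) = 1
      rw [← Finset.sum_div]
      exact div_self hpos.ne'
  obtain ⟨x, hx, hfx⟩ := brouwer (kkm_Sx_compact k) (kkm_Sx_convex k)
    ⟨_, kkm_vertex ⟨0, hk⟩⟩ hfc hfm
  obtain ⟨i, hi⟩ := Set.mem_iUnion.1 (hc hx)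
  have h1 := hp i x hi hx
  have h2 : x i = infDist x (A i) / ∑ j, infDist x (A j) := by
    conv_lhs => rw [← hfx]
  rw [infDist_zero_of_mem hi, zero_div] at h2
  linarith

end SP
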